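import Pool.Agent.Helper12.TS.St
import Pool.Agent.Helper41.AJ.M_CON

/-!
# Project TS (MP_d63854_co), module CMP: components
-/

set_option autoImplicit false

namespace Pool.Agent.Helper80.TS

open Pool.Agent.Helper12.TS
open Pool.Agent.Helper51.AJ (IsMinor Planar Apex ExMinor Con Tch con_nonempty con_singleton con_union
  tch_mono tch_symm)
open Pool.Agent.Helper12.NK (rst Kc add)

variable {V : Type}

private theorem con1 [Finite V] {G : SimpleGraph V} {W T : Set V} (h : Con G W) (hT : T ⊆ W) (hne : T.Nonempty)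
    (h0 : T ≠ W) : ∃ x ∈ T, ∃ y, y ∈ W ∧ y ∉ T ∧ G.Adj x y := by
  obtain ⟨x, hx, y, hy, hxy⟩ := (Pool.Agent.Helper41.AJ.hCON V G W h).1 T hT hne h0
  exact ⟨x, hx, y, hy.1, hy.2, hxy⟩

private theorem cmp1 [Finite V] (G : SimpleGraph V) (S : Set V) (x : V) (hx : x ∉ S) :
    ∃ C, Cmp G S C ∧ x ∈ C := by
  obtain ⟨C, ⟨hd, hc, hxC⟩, hmax⟩ := Set.exists_max_image
    {C : Set V | Disjoint C S ∧ Con G C ∧ x ∈ C} Set.ncard (Set.toFinite _)
    ⟨{x}, Set.disjoint_singleton_left.2 hx, con_singleton G x, rfl⟩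
  refine ⟨C, ⟨hd, hc, ?_⟩, hxC⟩
  intro a ha y hy hay
  by_contra hyC
  have h1 := hmax (C ∪ {y}) ⟨Set.disjoint_union_left.2 ⟨hd, Set.disjoint_singleton_left.2 hy⟩,
    con_union hc (con_singleton G y) ⟨a, ha, y, rfl, hay⟩, Or.inl hxC⟩
  rw [Set.union_singleton, Set.ncard_insert_of_notMem hyC (Set.toFinite _)] at h1
  omega

private theorem cmp3 [Finite V] (G : SimpleGraph V) (S C T : Set V) (hC : Cmp G S C) (hT : Con G T)
    (hd : Disjoint T S) (hne : (T ∩ C).Nonempty) : T ⊆ C := by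
  by_contra hno
  have h0 : T ∩ C ≠ T := fun h => hno (Set.inter_eq_left.1 h)
  obtain ⟨x, hx, y, hyT, hy, hxy⟩ := con1 hT Set.inter_subset_left hne h0
  exact hy ⟨hyT, hC.2.2 x hx.2 y (Set.disjoint_left.1 hd hyT) hxy⟩

private theorem cmp2 [Finite V] (G : SimpleGraph V) (S C C' : Set V) (hC : Cmp G S C) (hC' : Cmp G S C')
    (hne : C ≠ C') : Disjoint C C' := by
  by_contra hno
  rw [Set.not_disjoint_iff] at hno
  obtain ⟨x, hx, hx'⟩ := hno
  exact hne (Set.Subset.antisymm (cmp3 G S C' C hC' hC.2.1 hC.1 ⟨x, hx, hx'⟩)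
    (cmp3 G S C C' hC hC'.2.1 hC'.1 ⟨x, hx', hx⟩))

private theorem pair_lt (a b : V) : ({a, b} : Set V).ncard < 3 := by
  have := Set.ncard_insert_le a {b}
  rw [Set.ncard_singleton] at this
  omega

private theorem exists_other [Finite V] {S : Set V} (h : S.ncard = 3) (a b : V) :
    ∃ t ∈ S, t ≠ a ∧ t ≠ b := by
  by_contra hno
  push Not at hno
  have h1 : S ⊆ {a, b} := by
    intro t ht
    by_cases h2 : t = a
    · exact Or.inl h2
    · exact Or.inr (hno t ht h2)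
  have h2 := Set.ncard_le_ncard h1 (Set.toFinite _)
  have h3 := pair_lt a b
  omega

private theorem cmp4 [Finite V] (G : SimpleGraph V) (S : Set V) (hk : Kc 3 G Set.univ) (hS : S.ncard = 3)
    (C : Set V) (hC : Cmp G S C) (s : V) (hs : s ∈ S) : Tch G {s} C := by
  have h1 : (S \ {s}).ncard < 3 := by
    rw [Set.ncard_diff_singleton_of_mem hs]
    omega
  have h2 := hk.2 _ h1
  have hsC : s ∉ C := Set.disjoint_right.1 hC.1 hs
  obtain ⟨x, hx, y, hy, hyC, hxy⟩ := con1 (T := C) h2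
    (fun z hz => ⟨trivial, fun h => Set.disjoint_left.1 hC.1 hz h.1⟩) (con_nonempty hC.2.1)
    (fun h => hsC (h ▸ ⟨trivial, fun h => h.2 rfl⟩))
  have hyS : y ∈ S := by
    by_contra h
    exact hyC (hC.2.2 x hx y h hxy)
  have hys : y = s := by
    by_contra h
    exact hy.2 ⟨hyS, h⟩
  exact ⟨s, rfl, x, hx, hys ▸ hxy.symm⟩

private theorem cmp5 [Finite V] (G : SimpleGraph V) (S : Set V) (hk : Kc 3 G Set.univ) (hS : S.ncard = 3)
    (v : V) (hv : v ∉ S) (K : Set V) (hK : Cmp G (insert v S) K) (s : V) :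
    ∃ t ∈ S, t ≠ s ∧ Tch G {t} K := by
  have hvK : v ∉ K := Set.disjoint_right.1 hK.1 (Set.mem_insert _ _)
  obtain ⟨t, htS, hts, htv⟩ := exists_other hS s v
  have htK : t ∉ K := Set.disjoint_right.1 hK.1 (Set.mem_insert_of_mem _ htS)
  by_cases hsK : s ∈ K
  · have h2 := hk.2 {v} (by rw [Set.ncard_singleton]; omega)
    obtain ⟨x, hx, y, hy, hyK, hxy⟩ := con1 (T := K) h2
      (fun z hz => ⟨trivial, fun h => hvK (h ▸ hz)⟩) ⟨s, hsK⟩
      (fun h => htK (h ▸ ⟨trivial, htv⟩))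
    have hyS : y ∈ insert v S := by
      by_contra h
      exact hyK (hK.2.2 x hx y h hxy)
    exact ⟨y, hyS.resolve_left hy.2, fun h => hyK (h ▸ hsK), y, rfl, x, hx, hxy.symm⟩
  · have h2 := hk.2 {v, s} (pair_lt v s)
    obtain ⟨x, hx, y, hy, hyK, hxy⟩ := con1 (T := K) h2
      (fun z hz => ⟨trivial, fun h => by
        rcases h with h | h
        · exact hvK (h ▸ hz)
        · exact hsK (h ▸ hz)⟩) (con_nonempty hK.2.1)
      (fun h => htK (h ▸ ⟨trivial, fun h => by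
        rcases h with h | h
        · exact htv h
        · exact hts h⟩))
    have hyS : y ∈ insert v S := by
      by_contra h
      exact hyK (hK.2.2 x hx y h hxy)
    exact ⟨y, hyS.resolve_left fun h => hy.2 (Or.inl h), fun h => hy.2 (Or.inr h), y, rfl, x, hx, hxy.symm⟩

private theorem cmp6 [Finite V] (G : SimpleGraph V) (S : Set V) (hk : Kc 3 G Set.univ) (hS : S.ncard = 3)
    (Y : Set V) (hd : Disjoint Y S) (hY : Y.Nonempty) (a b : V) (ha : a ∉ Y) (hb : b ∉ Y) :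
    ∃ x ∈ Y, ∃ z, z ∉ Y ∧ z ≠ a ∧ z ≠ b ∧ G.Adj x z := by
  have h2 := hk.2 {a, b} (pair_lt a b)
  obtain ⟨t, htS, hta, htb⟩ := exists_other hS a b
  have htY : t ∉ Y := Set.disjoint_right.1 hd htS
  obtain ⟨x, hx, y, hy, hyY, hxy⟩ := con1 (T := Y) h2
    (fun z hz => ⟨trivial, fun h => by
      rcases h with h | h
      · exact ha (h ▸ hz)
      · exact hb (h ▸ hz)⟩) hY
    (fun h => htY (h ▸ ⟨trivial, fun h => by
      rcases h with h | h
      · exact hta h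
      · exact htb h⟩))
  exact ⟨x, hx, y, hyY, fun h => hy.2 (Or.inl h), fun h => hy.2 (Or.inr h), hxy⟩

private theorem cmp7a [Finite V] (G : SimpleGraph V) (W K : Set V) (v : V) (hW : Con G W) (hv : v ∈ W)
    (hK : Cmp G (W \ {v})ᶜ K) : Tch G {v} K := by
  have hKW : K ⊆ W \ {v} := Set.disjoint_compl_right_iff_subset.1 hK.1
  obtain ⟨x, hx, y, hyW, hyK, hxy⟩ := con1 hW (hKW.trans Set.diff_subset) (con_nonempty hK.2.1)
    (fun h => (hKW (h ▸ hv)).2 rfl)
  have hyv : y = v := by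
    by_contra h
    exact hyK (hK.2.2 x hx y (fun h' => h' ⟨hyW, h⟩) hxy)
  exact ⟨v, rfl, x, hx, hyv ▸ hxy.symm⟩

private theorem cmp7b [Finite V] (G : SimpleGraph V) (W K : Set V) (v : V) (hW : Con G W) (hv : v ∈ W)
    (hK : Cmp G (W \ {v})ᶜ K) : Con G (W \ K) := by
  have hKW : K ⊆ W \ {v} := Set.disjoint_compl_right_iff_subset.1 hK.1
  obtain ⟨T, ⟨hT, hc, hvT⟩, hmax⟩ := Set.exists_max_image
    {T : Set V | T ⊆ W \ K ∧ Con G T ∧ v ∈ T} Set.ncard (Set.toFinite _)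
    ⟨{v}, Set.singleton_subset_iff.2 ⟨hv, fun h => (hKW h).2 rfl⟩, con_singleton G v, rfl⟩
  have hTe : T = W \ K := by
    apply Set.Subset.antisymm hT
    intro y hy
    by_contra hyT
    have hyv : y ≠ v := fun h => hyT (h ▸ hvT)
    obtain ⟨K', hK', hyK'⟩ := cmp1 G (W \ {v})ᶜ y (fun h => h ⟨hy.1, hyv⟩)
    have hKW' : K' ⊆ W \ {v} := Set.disjoint_compl_right_iff_subset.1 hK'.1
    have hd : Disjoint K' K := cmp2 G _ K' K hK' hK (fun h => hy.2 (h ▸ hyK'))
    have h1 : Con G (T ∪ K') := con_union hc hK'.2.1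
      (tch_mono (cmp7a G W K' v hW hv hK') (Set.singleton_subset_iff.2 hvT) (Set.Subset.refl _))
    have h2 := hmax (T ∪ K') ⟨Set.union_subset hT fun z hz => ⟨(hKW' hz).1, Set.disjoint_left.1 hd hz⟩,
      h1, Or.inl hvT⟩
    have h3 : T ∪ K' = T := (Set.eq_of_subset_of_ncard_le Set.subset_union_left h2 (Set.toFinite _)).symm
    exact hyT (h3 ▸ Or.inr hyK')
  rw [← hTe]
  exact hc

theorem hCMP : StCMP := by
  intro V _ G S
  exact ⟨cmp1 G S, cmp2 G S, cmp3 G S, cmp4 G S, cmp5 G S, cmp6 G S,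
    fun W K v hW hv hK => ⟨cmp7a G W K v hW hv hK, cmp7b G W K v hW hv hK⟩⟩

end Pool.Agent.Helper80.TS
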