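import Pool.Agent.Helper80.TS.St

/-! # Refinement of cylinders (MP_ae7841_nt) -/

set_option autoImplicit false

namespace Pool.Agent.Helper80.TS

theorem app_cf (w v : List ℕ) (x : ℝ) : cf (w ++ v) x = cf w (cf v x) := by
  induction w with
  | nil => rfl
  | cons a w ih => simp only [List.cons_append, cf, ih]

theorem app_cf_pos (v : List ℕ) (hv : Dg v) (x : ℝ) (hx : 0 < x) : 0 < cf v x := by
  induction v with
  | nil => exact hx
  | cons a w ih =>
    have h1 : Dg w := fun b hb => hv b (List.mem_cons_of_mem _ hb)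
    have h2 := ih h1
    simp only [cf]
    have : (0 : ℝ) ≤ (a : ℝ) := Nat.cast_nonneg a
    positivity

theorem app_mat (w : List ℕ) (e : ℕ) : mat (w ++ [e]) =
    (e * (mat w).1 + (mat w).2.1, (mat w).1, e * (mat w).2.2.1 + (mat w).2.2.2,
      (mat w).2.2.1) := by
  induction w with
  | nil => simp [mat]
  | cons a w ih =>
    simp only [List.cons_append, mat, ih]
    ext
    · simp
    · simp
    · simp; ring
    · simp

theorem app_rr (hMat : StMat) (v : List ℕ) : ∀ w : List ℕ, Dg w → Dg v →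
    ((mat (w ++ v)).2.2.2 : ℝ) / ((mat (w ++ v)).2.2.1 : ℝ) =
      rr (((mat w).2.2.2 : ℝ) / ((mat w).2.2.1 : ℝ)) v := by
  induction v with
  | nil => intro w _ _; simp [rr]
  | cons e v ih =>
    intro w hw hv
    have h1 : Dg v := fun b hb => hv b (List.mem_cons_of_mem _ hb)
    have h2 : Dg (w ++ [e]) := by
      intro b hb
      rcases List.mem_append.1 hb with h | h
      · exact hw b h
      · rw [List.mem_singleton] at h
        rw [h]
        exact hv e (List.mem_cons_self)
    have h3 : w ++ e :: v = (w ++ [e]) ++ v := by simp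
    rw [h3, ih (w ++ [e]) h2 h1, rr]
    congr 1
    rw [app_mat]
    have hq : (0 : ℝ) < ((mat w).2.2.1 : ℝ) := by
      exact_mod_cast (hMat w hw).2.1
    have hq' : (0 : ℝ) ≤ ((mat w).2.2.2 : ℝ) := Nat.cast_nonneg _
    have he : (1 : ℝ) ≤ (e : ℝ) := by exact_mod_cast hv e (List.mem_cons_self)
    simp only
    push_cast
    have h4 : (0 : ℝ) < e * ((mat w).2.2.1 : ℝ) + ((mat w).2.2.2 : ℝ) := by positivity
    have h5 : (0 : ℝ) < (e : ℝ) + ((mat w).2.2.2 : ℝ) / ((mat w).2.2.1 : ℝ) := by positivity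
    field_simp

theorem app_par (w v : List ℕ) : par (w ++ v) = xor (par w) (par v) := by
  unfold par
  rw [List.length_append]
  rcases Nat.mod_two_eq_zero_or_one w.length with h1 | h1 <;>
    rcases Nat.mod_two_eq_zero_or_one v.length with h2 | h2 <;>
    simp [h1, h2, Nat.add_mod]

/-- the difference of two values -/
theorem app_diff (hMat : StMat) (w : List ℕ) (hw : Dg w) (x y : ℝ) (hx : 0 < x) (hy : 0 < y) :
    cf w y - cf w x = (if par w = true then -1 else 1) * (y - x) /
      ((((mat w).2.2.1 : ℝ) + ((mat w).2.2.2 : ℝ) * x) *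
        (((mat w).2.2.1 : ℝ) + ((mat w).2.2.2 : ℝ) * y)) := by
  obtain ⟨h1, h2, _, h4⟩ := hMat w hw
  rw [h1 x hx, h1 y hy]
  have hq : (0 : ℝ) < ((mat w).2.2.1 : ℝ) := by exact_mod_cast h2
  have hq' : (0 : ℝ) ≤ ((mat w).2.2.2 : ℝ) := Nat.cast_nonneg _
  have hx' : (0 : ℝ) < ((mat w).2.2.1 : ℝ) + ((mat w).2.2.2 : ℝ) * x := by positivity
  have hy' : (0 : ℝ) < ((mat w).2.2.1 : ℝ) + ((mat w).2.2.2 : ℝ) * y := by positivity
  have h4' : ((mat w).2.1 : ℝ) * ((mat w).2.2.1 : ℝ) - ((mat w).1 : ℝ) * ((mat w).2.2.2 : ℝ) =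
      (if par w = true then -1 else 1) := by
    have := congrArg (fun z : ℤ => (z : ℝ)) h4
    push_cast at this
    exact this
  rw [← h4']
  field_simp
  ring

theorem app_pos (hMat : StMat) (w : List ℕ) (hw : Dg w) (x : ℝ) (hx : 0 < x) :
    cf w x - cf w hA = (cf w hB - cf w hA) *
      pos (((mat w).2.2.2 : ℝ) / ((mat w).2.2.1 : ℝ)) x := by
  have hA0 : (0 : ℝ) < hA := by norm_num [hA]
  have hB0 : (0 : ℝ) < hB := by norm_num [hB]
  have hAB : (0 : ℝ) < hB - hA := by norm_num [hA, hB]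
  rw [app_diff hMat w hw hA x hA0 hx, app_diff hMat w hw hA hB hA0 hB0, pos]
  have hq : (0 : ℝ) < ((mat w).2.2.1 : ℝ) := by exact_mod_cast (hMat w hw).2.1
  have hq' : (0 : ℝ) ≤ ((mat w).2.2.2 : ℝ) := Nat.cast_nonneg _
  generalize ((mat w).2.2.1 : ℝ) = q at *
  generalize ((mat w).2.2.2 : ℝ) = q' at *
  have h1 : (0 : ℝ) < q + q' * x := by positivity
  have h2 : (0 : ℝ) < q + q' * hA := by positivity
  have h3 : (0 : ℝ) < q + q' * hB := by positivity
  have e1 : 1 + q' / q * hB = (q + q' * hB) / q := by field_simp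
  have e2 : 1 + q' / q * x = (q + q' * x) / q := by field_simp
  rw [e1, e2]
  field_simp

theorem hApp (hMat : StMat) : StApp := by
  intro w v hw hv
  have hA0 : (0 : ℝ) < hA := by norm_num [hA]
  have hB0 : (0 : ℝ) < hB := by norm_num [hB]
  have hAB : (0 : ℝ) < hB - hA := by norm_num [hA, hB]
  have hlo : 0 < lo v := lt_min (app_cf_pos v hv hA hA0) (app_cf_pos v hv hB hB0)
  have hhi : 0 < hi v := lt_of_lt_of_le hlo (min_le_max)
  have hle : lo v ≤ hi v := min_le_max
  have hq : (0 : ℝ) < ((mat w).2.2.1 : ℝ) := by exact_mod_cast (hMat w hw).2.1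
  have hq' : (0 : ℝ) ≤ ((mat w).2.2.2 : ℝ) := Nat.cast_nonneg _
  have hP := app_pos hMat w hw
  have hD := app_diff hMat w hw
  have hden : ∀ x : ℝ, 0 < x → (0 : ℝ) < ((mat w).2.2.1 : ℝ) + ((mat w).2.2.2 : ℝ) * x :=
    fun x hx => by positivity
  have hmin : min (cf (w ++ v) hA) (cf (w ++ v) hB) = min (cf w (lo v)) (cf w (hi v)) ∧
      |cf (w ++ v) hB - cf (w ++ v) hA| = |cf w (hi v) - cf w (lo v)| := by
    rw [app_cf, app_cf]
    rcases le_total (cf v hA) (cf v hB) with h | h
    · have e1 : lo v = cf v hA := min_eq_left h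
      have e2 : hi v = cf v hB := max_eq_right h
      rw [e1, e2]
      exact ⟨rfl, rfl⟩
    · have e1 : lo v = cf v hB := min_eq_right h
      have e2 : hi v = cf v hA := max_eq_left h
      rw [e1, e2]
      exact ⟨min_comm _ _, abs_sub_comm _ _⟩
  have hl := hP (lo v) hlo
  have hh := hP (hi v) hhi
  have hd1 := hD hA hB hA0 hB0
  have hd2 := hD (lo v) (hi v) hlo hhi
  have hLL : iv (w ++ v) = ⟨min (cf w (lo v)) (cf w (hi v)), |cf w (hi v) - cf w (lo v)|,
      xor (par w) (par v), rr (((mat w).2.2.2 : ℝ) / ((mat w).2.2.1 : ℝ)) v⟩ := by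
    unfold iv
    rw [hmin.1, hmin.2, app_par, app_rr hMat v w hw hv]
  rw [hLL]
  unfold Iv.ref iv
  simp only
  by_cases hp : par w = true
  · simp only [hp, if_true] at hd1 hd2 ⊢
    have n1 : cf w hB - cf w hA ≤ 0 := by
      rw [hd1]
      apply div_nonpos_of_nonpos_of_nonneg
      · linarith
      · exact (mul_pos (hden _ hA0) (hden _ hB0)).le
    have n2 : cf w (hi v) - cf w (lo v) ≤ 0 := by
      rw [hd2]
      apply div_nonpos_of_nonpos_of_nonneg
      · linarith
      · exact (mul_pos (hden _ hlo) (hden _ hhi)).le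
    rw [min_eq_right (by linarith : cf w (hi v) ≤ cf w (lo v)),
      min_eq_right (by linarith : cf w hB ≤ cf w hA), abs_of_nonpos n1, abs_of_nonpos n2]
    congr 1
    · linear_combination hh
    · linear_combination hl - hh
  · simp only [hp, Bool.false_eq_true, if_false] at hd1 hd2 ⊢
    have n1 : 0 ≤ cf w hB - cf w hA := by
      rw [hd1]
      apply div_nonneg
      · linarith
      · exact (mul_pos (hden _ hA0) (hden _ hB0)).le
    have n2 : 0 ≤ cf w (hi v) - cf w (lo v) := by
      rw [hd2]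
      apply div_nonneg
      · linarith
      · exact (mul_pos (hden _ hlo) (hden _ hhi)).le
    rw [min_eq_left (by linarith : cf w (lo v) ≤ cf w (hi v)),
      min_eq_left (by linarith : cf w hA ≤ cf w hB), abs_of_nonneg n1, abs_of_nonneg n2]
    congr 1
    · linear_combination hl
    · linear_combination hh - hl

end Pool.Agent.Helper80.TS
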