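import Pool.Agent.Helper80.TS.St

/-! # MODULE Bits (MP_ae7841_nt): bit patterns -/

set_option autoImplicit false

namespace Pool.Agent.Helper80.TS

theorem bits_an {a b : Bool} (h : an a b = true) : a = true ∧ b = true := by
  revert h
  cases a <;> cases b <;> decide

/-- `∑_{a < n} 2^(40 a)` -/
def bitsR : ℕ → ℕ
  | 0 => 0
  | n + 1 => 2 ^ 40 * bitsR n + 1

theorem bitsR_eq (n : ℕ) : 2 ^ (40 * n) = 1099511627775 * bitsR n + 1 := by
  induction n with
  | zero => rfl
  | succ n ih =>
    have h : 2 ^ (40 * (n + 1)) = 2 ^ 40 * 2 ^ (40 * n) := by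
      rw [← pow_add]; congr 1; ring
    rw [h, ih, bitsR]; ring

theorem pat_eq (nj nk : ℕ) : pat nj nk = (2 ^ nk - 1) * bitsR nj := by
  have h : (2 ^ (40 * nj) - 1) / 1099511627775 = bitsR nj := by
    rw [bitsR_eq, Nat.add_sub_cancel]
    exact Nat.mul_div_cancel_left _ (by norm_num)
  rw [← h]
  rfl

theorem pat_succ (nj nk : ℕ) : pat (nj + 1) nk = 2 ^ 40 * pat nj nk + (2 ^ nk - 1) := by
  rw [pat_eq, pat_eq, bitsR]; ring

theorem pat_bit (nk : ℕ) (hk : nk ≤ 40) : ∀ nj a b : ℕ, a < nj → b < nk →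
    (pat nj nk).testBit (40 * a + b) = true := by
  intro nj
  induction nj with
  | zero => intro a b ha; omega
  | succ n ih =>
    intro a b ha hb
    have hlt : 2 ^ nk - 1 < 2 ^ 40 := by
      have h1 : 2 ^ nk ≤ 2 ^ 40 := Nat.pow_le_pow_right (by norm_num) hk
      have h2 : 0 < 2 ^ nk := by positivity
      omega
    rw [pat_succ, Nat.testBit_two_pow_mul_add _ hlt]
    rcases Nat.eq_zero_or_pos a with h0 | h0
    · subst h0
      rw [if_pos (by omega), Nat.testBit_two_pow_sub_one]
      simpa using hb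
    · rw [if_neg (by omega)]
      obtain ⟨a', rfl⟩ : ∃ a', a = a' + 1 := ⟨a - 1, by omega⟩
      have h1 : 40 * (a' + 1) + b - 40 = 40 * a' + b := by omega
      rw [h1]
      exact ih a' b (by omega) hb

theorem hBits : StBits := by
  constructor
  · intro M nj nk j k ni
    induction ni with
    | zero => intro i _ _ i' j' k' h1 h2; omega
    | succ n ih =>
      intro i hk h i' j' k' h1 h2 h3 h4 h5 h6
      have h' : an (Nat.beq (Nat.land (Nat.shiftRight M (40 * (38 * i + j) + k)) (pat nj nk))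
          (pat nj nk)) (allb M (pat nj nk) j k n (i + 1)) = true := h
      obtain ⟨e1, e2⟩ := bits_an h'
      rcases Nat.lt_or_ge i i' with hi | hi
      · exact ih (i + 1) hk e2 i' j' k' hi (by omega) h3 h4 h5 h6
      · have hii : i' = i := by omega
        subst hii
        have e3 : (M >>> (40 * (38 * i' + j) + k)) &&& (pat nj nk) = pat nj nk :=
          Nat.eq_of_beq_eq_true e1
        obtain ⟨a, rfl⟩ : ∃ a, j' = j + a := ⟨j' - j, by omega⟩
        obtain ⟨b, rfl⟩ : ∃ b, k' = k + b := ⟨k' - k, by omega⟩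
        have e4 := pat_bit nk hk nj a b (by omega) (by omega)
        rw [← e3, Nat.testBit_and, Bool.and_eq_true, Nat.testBit_shiftRight] at e4
        have e5 : (i' * 38 + (j + a)) * 40 + (k + b) = 40 * (38 * i' + j) + k + (40 * a + b) := by ring
        rw [e5]
        exact e4.1
  · intro M nj nk i j k hk h j' k' h3 h4 h5 h6
    have e3 : (M >>> (40 * (38 * i + j) + k)) &&& (pat nj nk) = 0 := Nat.eq_of_beq_eq_true h
    obtain ⟨a, rfl⟩ : ∃ a, j' = j + a := ⟨j' - j, by omega⟩
    obtain ⟨b, rfl⟩ : ∃ b, k' = k + b := ⟨k' - k, by omega⟩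
    have e4 := pat_bit nk hk nj a b (by omega) (by omega)
    have e6 : ((M >>> (40 * (38 * i + j) + k)) &&& (pat nj nk)).testBit (40 * a + b) = false := by
      rw [e3, Nat.zero_testBit]
    rw [Nat.testBit_and, e4, Bool.and_true, Nat.testBit_shiftRight] at e6
    have e5 : (i * 38 + (j + a)) * 40 + (k + b) = 40 * (38 * i + j) + k + (40 * a + b) := by ring
    rw [e5]
    exact e6

end Pool.Agent.Helper80.TS
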