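
/-!
# The certificate checker (MP_ae7841_nt)

All arithmetic is on natural numbers and written with the kernel accelerated operations.
Scales: `H = 10000` for the hull `[3660/H, 7321/H]` and for the ratios `r`, `K = 2^20` for lengths and
positions, `40 * 2^16` for the relative position of the target.
-/

set_option autoImplicit false

noncomputable section

namespace Pool.Agent.Helper80.TS

/-- if then else -/
def sel {β : Type} (c : Bool) (t f : β) : β := @Bool.rec (fun _ => β) f t c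
/-- conjunction -/
def an (a b : Bool) : Bool := @Bool.rec (fun _ => Bool) false b a
/-- exclusive or -/
def xo (a b : Bool) : Bool :=
  @Bool.rec (fun _ => Bool) b (@Bool.rec (fun _ => Bool) true false b) a

/-- bit field -/
def fld (x s m : Nat) : Nat := Nat.land (Nat.shiftRight x s) m

def m24 : Nat := nat_lit 16777215
def m36 : Nat := nat_lit 68719476735

/-- a range -/
structure Rg where
  lo : Nat
  hi : Nat

/-- bounds attached to a word -/
structure WB where
  al : Nat
  ah : Nat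
  bl : Nat
  bh : Nat
  fl : Nat
  fh : Nat

/-- bounds of a word on a range of ratios.
`e` is the table entry of the word: `n1 (24) n2 (24) D1 (36) D2 (36) z1 (36) z2 (36)`. -/
def wb (e : Nat) (R : Rg) : WB :=
  (fun rl rh n1 n2 D1 D2 z1 z2 =>
    (fun EAl EAh EBl EBh q1l q1h q2l q2h =>
      WB.mk (Nat.div (Nat.mul (Nat.mul z1 EBl) (nat_lit 1048576)) (Nat.mul (nat_lit 36610000) q1l))
        (Nat.succ (Nat.div (Nat.mul (Nat.mul z1 EBh) (nat_lit 1048576)) (Nat.mul (nat_lit 36610000) q1h)))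
        (Nat.div (Nat.mul (Nat.mul z2 EBl) (nat_lit 1048576)) (Nat.mul (nat_lit 36610000) q2l))
        (Nat.succ (Nat.div (Nat.mul (Nat.mul z2 EBh) (nat_lit 1048576)) (Nat.mul (nat_lit 36610000) q2h)))
        (Nat.div (Nat.mul (Nat.mul EAh EBl) (nat_lit 1048576)) (Nat.mul q1h q2l))
        (Nat.succ (Nat.div (Nat.mul (Nat.mul EAl EBh) (nat_lit 1048576)) (Nat.mul q1l q2h))))
      (Nat.add (nat_lit 100000000) (Nat.mul (nat_lit 3660) rl))
      (Nat.add (nat_lit 100000000) (Nat.mul (nat_lit 3660) rh))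
      (Nat.add (nat_lit 100000000) (Nat.mul (nat_lit 7321) rl))
      (Nat.add (nat_lit 100000000) (Nat.mul (nat_lit 7321) rh))
      (Nat.add D1 (Nat.mul rl n1)) (Nat.add D1 (Nat.mul rh n1))
      (Nat.add D2 (Nat.mul rl n2)) (Nat.add D2 (Nat.mul rh n2)))
    R.lo R.hi
    (Nat.land e m24) (fld e (nat_lit 24) m24) (fld e (nat_lit 48) m36) (fld e (nat_lit 84) m36)
    (fld e (nat_lit 120) m36) (fld e (nat_lit 156) m36)

/-- a refined interval: source orientation, image orientation, bounds of the word, range of the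
length of the source interval -/
structure LB where
  o : Bool
  q : Bool
  W : WB
  L : Rg

/-- plus part of the lower test -/
def lowP (B : LB) (tl k : Nat) : Nat :=
  sel B.o (Nat.add (Nat.mul (nat_lit 16) tl)
      (Nat.add (Nat.mul (Nat.sub (nat_lit 40) k) B.W.bl) (Nat.mul k B.W.al)))
    (Nat.mul (nat_lit 16) tl)
def lowN (B : LB) (k : Nat) : Nat :=
  sel B.o (nat_lit 41943040) (Nat.add (Nat.mul (Nat.sub (nat_lit 40) k) B.W.ah) (Nat.mul k B.W.bh))
def highP (B : LB) (k : Nat) : Nat :=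
  sel B.o (nat_lit 41943040) (Nat.add (Nat.mul (Nat.sub (nat_lit 40) k) B.W.al) (Nat.mul k B.W.bl))
def highN (B : LB) (th k : Nat) : Nat :=
  sel B.o (Nat.add (Nat.mul (nat_lit 16) th)
      (Nat.add (Nat.mul (Nat.sub (nat_lit 40) k) B.W.bh) (Nat.mul k B.W.ah)))
    (Nat.mul (nat_lit 16) th)

/-- `∑ (P_i - N_i) l_i > 0` for all `l_i` in the ranges -/
def tst (P0 N0 P1 N1 P2 N2 : Nat) (L0 L1 L2 : Rg) : Bool :=
  Nat.ble (Nat.succ
    (Nat.add (Nat.mul (Nat.sub N0 P0) L0.hi)
      (Nat.add (Nat.mul (Nat.sub N1 P1) L1.hi) (Nat.mul (Nat.sub N2 P2) L2.hi))))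
    (Nat.add (Nat.mul (Nat.sub P0 N0) L0.lo)
      (Nat.add (Nat.mul (Nat.sub P1 N1) L1.lo) (Nat.mul (Nat.sub P2 N2) L2.lo)))

def low (A B C : LB) (tl k : Nat) : Bool :=
  tst (lowP A tl k) (lowN A k) (lowP B tl k) (lowN B k) (lowP C tl k) (lowN C k) A.L B.L C.L
def high (A B C : LB) (th k : Nat) : Bool :=
  tst (highP A k) (highN A th k) (highP B k) (highN B th k) (highP C k) (highN C th k) A.L B.L C.L

/-- `G0/K ≤ a/b < G1/K` -/
def rat (G0 G1 : Nat) (a b : LB) : Bool :=
  an (Nat.ble (Nat.mul (Nat.mul G0 b.W.fh) b.L.hi) (Nat.mul (Nat.mul (nat_lit 1048576) a.W.fl) a.L.lo))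
    (Nat.ble (Nat.succ (Nat.mul (Nat.mul a.W.fh a.L.hi) (nat_lit 1048576)))
      (Nat.mul (Nat.mul G1 b.W.fl) b.L.lo))

/-- pattern with `nj` rows of `nk` ones -/
def pat (nj nk : Nat) : Nat :=
  Nat.mul (Nat.pred (Nat.pow (nat_lit 2) nk))
    (Nat.div (Nat.pred (Nat.pow (nat_lit 2) (Nat.mul (nat_lit 40) nj))) (nat_lit 1099511627775))

/-- all bits of `M` in the box are set -/
def allb (M p j k ni : Nat) : Nat → Bool :=
  Nat.rec (motive := fun _ => Nat → Bool) (fun _ => true)
    (fun _ ih i => an (Nat.beq (Nat.land (Nat.shiftRight M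
        (Nat.add (Nat.mul (nat_lit 40) (Nat.add (Nat.mul (nat_lit 38) i) j)) k)) p) p) (ih (Nat.succ i))) ni

/-- no bit of `M` in the (one row block) box is set -/
def noneb (M p i j k : Nat) : Bool :=
  Nat.beq (Nat.land (Nat.shiftRight M
        (Nat.add (Nat.mul (nat_lit 40) (Nat.add (Nat.mul (nat_lit 38) i) j)) k)) p) (nat_lit 0)

/-- element of a list -/
def nth (l : List Nat) : Nat → Nat :=
  List.rec (motive := fun _ => Nat → Nat) (fun _ => nat_lit 0)
    (fun x _ ih n => Nat.rec (motive := fun _ => Nat) x (fun m _ => ih m) n) l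

def nthl (l : List (List Nat)) : Nat → List Nat :=
  List.rec (motive := fun _ => Nat → List Nat) (fun _ => [])
    (fun x _ ih n => Nat.rec (motive := fun _ => List Nat) x (fun m _ => ih m) n) l

/-- data shared by all certificates -/
structure Dat where
  /-- word table, 200 bits per word code -/
  T : Nat
  /-- parities of the word codes -/
  PT : Nat
  /-- grid, 24 bits each -/
  G : Nat
  /-- masks: first index orientation, second index `21 - level` -/
  M : List (List Nat)

def gg (D : Dat) (j : Nat) : Nat := fld D.G (Nat.mul (nat_lit 24) j) m24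
def pr (D : Dat) (c : Nat) : Bool := Nat.beq (fld D.PT c (nat_lit 1)) (nat_lit 1)
def en (D : Dat) (c : Nat) : Nat :=
  fld D.T (Nat.mul (nat_lit 200) c) (nat_lit 1606938044258990275541962092341162602522202993782792835301375)

/-- index of a pair of relative orientations -/
def oi (o1 o2 : Bool) : Nat := sel o1 (sel o2 (nat_lit 3) (nat_lit 1)) (sel o2 (nat_lit 2) (nat_lit 0))

/-- test of the image normalised by the order `b, a, c` -/
def img (D : Dat) (lev i ni j nj k0 nk : Nat) (b a c : LB) : Bool :=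
  an (rat (gg D (Nat.add i (nat_lit 12))) (gg D (Nat.add (Nat.add i ni) (nat_lit 12))) a b)
    (an (rat (gg D j) (gg D (Nat.add j nj)) c b)
      (an (Nat.ble (Nat.add i ni) (nat_lit 26)) (an (Nat.ble (Nat.add j nj) (nat_lit 38))
        (an (Nat.ble (Nat.add k0 nk) (nat_lit 40))
        (allb (nth (nthl D.M (oi (xo b.q a.q) (xo b.q c.q))) (Nat.sub (nat_lit 21) lev)) (pat nj nk) j
          (sel b.q (Nat.sub (nat_lit 40) (Nat.add k0 nk)) k0) ni i)))))

/-- permutation of the arguments with code `p` -/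
def prm (p : Nat) (f : LB → LB → LB → Bool) (A B C : LB) : Bool :=
  Nat.rec (motive := fun _ => Bool) (f A B C)
    (fun p _ => Nat.rec (motive := fun _ => Bool) (f A C B)
      (fun p _ => Nat.rec (motive := fun _ => Bool) (f B A C)
        (fun p _ => Nat.rec (motive := fun _ => Bool) (f B C A)
          (fun p _ => Nat.rec (motive := fun _ => Bool) (f C A B)
            (fun _ _ => f C B A) p) p) p) p) p

def patl (D : Dat) (T : Rg) (lev p i ni j nj k0 nk : Nat) (A B C : LB) : Bool :=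
  an (low A B C T.lo k0) (an (high A B C T.hi (Nat.add k0 nk))
    (prm p (img D lev i ni j nj k0 nk) A B C))

/-- path test on stream data: fields `w0 w1 w2 (8 bits) p (3) i (5) ni (4) j (6) nj (4) k0 (6) nk (6)` -/
def pths (D : Dat) (o1 o2 : Bool) (X Y T R0 R1 R2 : Rg) (lev s : Nat) : Bool :=
  patl D T lev
    (fld s (nat_lit 24) (nat_lit 7)) (fld s (nat_lit 27) (nat_lit 31)) (fld s (nat_lit 32) (nat_lit 15))
    (fld s (nat_lit 36) (nat_lit 63)) (fld s (nat_lit 42) (nat_lit 15))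
    (fld s (nat_lit 46) (nat_lit 63)) (fld s (nat_lit 52) (nat_lit 63))
    ((fun w => LB.mk false (pr D w) (wb (en D w) R0) (Rg.mk (nat_lit 1048576) (nat_lit 1048576)))
      (Nat.land s (nat_lit 127)))
    ((fun w => LB.mk o1 (xo o1 (pr D w)) (wb (en D w) R1) X) (fld s (nat_lit 8) (nat_lit 127)))
    ((fun w => LB.mk o2 (xo o2 (pr D w)) (wb (en D w) R2) Y) (fld s (nat_lit 16) (nat_lit 127)))

/-- incomparable word codes -/
def inc : Nat → Nat → Nat → Bool :=
  Nat.rec (motive := fun _ => Nat → Nat → Bool) (fun _ _ => false)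
    (fun _ ih a b => sel (Nat.ble a (nat_lit 1)) false (sel (Nat.ble b (nat_lit 1)) false
      (sel (Nat.beq (Nat.land a (nat_lit 1)) (Nat.land b (nat_lit 1)))
        (ih (Nat.div a (nat_lit 2)) (Nat.div b (nat_lit 2))) true)))

/-- the word code consists of ones -/
def one (a : Nat) : Bool := Nat.beq (Nat.land a (Nat.pred a)) (nat_lit 0)

/-- source index range of `t` -/
def kl (tl : Nat) : Nat := Nat.shiftRight tl (nat_lit 16)
def kh (th : Nat) : Nat := Nat.shiftRight (Nat.add th (nat_lit 65535)) (nat_lit 16)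

/-- no cell of level `≤ lev` in the source box -/
def src (D : Dat) (o1 o2 : Bool) (i : Nat) (J T : Rg) (lev : Nat) : Bool :=
  noneb (nth (nthl D.M (oi o1 o2)) (Nat.sub (nat_lit 21) lev))
    (pat (Nat.sub J.hi J.lo) (Nat.sub (kh T.hi) (kl T.lo))) i J.lo (kl T.lo)

/-- the middle of an interval of ratios -/
def mid (a b : Nat) : Nat := Nat.div (Nat.add a b) (nat_lit 2)

/-- type of the traversal functions with continuation data `γ` -/
def TF (γ : Type) : Type := Rg → Rg → Rg → Rg → Rg → Rg → Rg → (γ → Bool) → Bool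

/-- splitting of the boxes, `f` continues on the left half, `g` on the right half. -/
def splT {γ : Type} (ih : γ → TF γ) (s : γ) : TF γ := fun X J Y T R0 R1 R2 k =>
  (fun m => ih s X J Y (Rg.mk T.lo m) R0 R1 R2 (fun s => ih s X J Y (Rg.mk m T.hi) R0 R1 R2 k))
    (sel (Nat.ble (Nat.add (kl T.lo) (nat_lit 2)) (kh T.hi))
      (Nat.shiftLeft (Nat.div (Nat.add (kl T.lo) (kh T.hi)) (nat_lit 2)) (nat_lit 16)) (mid T.lo T.hi))

def splX {γ : Type} (ih : γ → TF γ) (s : γ) : TF γ := fun X J Y T R0 R1 R2 k =>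
  (fun m => ih s (Rg.mk X.lo m) J Y T R0 R1 R2 (fun s => ih s (Rg.mk m X.hi) J Y T R0 R1 R2 k))
    (mid X.lo X.hi)

def splY {γ : Type} (D : Dat) (ih : γ → TF γ) (s : γ) : TF γ := fun X J Y T R0 R1 R2 k =>
  sel (Nat.ble (Nat.add J.lo (nat_lit 2)) J.hi)
    ((fun j => ih s X (Rg.mk J.lo j) (Rg.mk Y.lo (gg D j)) T R0 R1 R2
      (fun s => ih s X (Rg.mk j J.hi) (Rg.mk (gg D j) Y.hi) T R0 R1 R2 k)) (mid J.lo J.hi))
    ((fun m => ih s X J (Rg.mk Y.lo m) T R0 R1 R2
      (fun s => ih s X J (Rg.mk m Y.hi) T R0 R1 R2 k)) (mid Y.lo Y.hi))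

/-- left and right half of a range of ratios -/
def rL (R : Rg) : Rg := Rg.mk R.lo
  (sel (an (Nat.ble R.lo (nat_lit 4226)) (Nat.ble (nat_lit 5774) R.hi)) (nat_lit 4227) (mid R.lo R.hi))
def rR (R : Rg) : Rg := Rg.mk
  (sel (an (Nat.ble R.lo (nat_lit 4226)) (Nat.ble (nat_lit 5774) R.hi)) (nat_lit 5773) (mid R.lo R.hi)) R.hi

def splR0 {γ : Type} (ih : γ → TF γ) (s : γ) : TF γ := fun X J Y T R0 R1 R2 k =>
  ih s X J Y T (rL R0) R1 R2 (fun s => ih s X J Y T (rR R0) R1 R2 k)
def splR1 {γ : Type} (ih : γ → TF γ) (s : γ) : TF γ := fun X J Y T R0 R1 R2 k =>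
  ih s X J Y T R0 (rL R1) R2 (fun s => ih s X J Y T R0 (rR R1) R2 k)
def splR2 {γ : Type} (ih : γ → TF γ) (s : γ) : TF γ := fun X J Y T R0 R1 R2 k =>
  ih s X J Y T R0 R1 (rL R2) (fun s => ih s X J Y T R0 R1 (rR R2) k)

/-- leaf: no admissible state in the box -/
def lSkip (D : Dat) (o1 o2 : Bool) (i s : Nat) : TF Nat := fun _ J _ T _ _ _ k =>
  an (src D o1 o2 i J T (nat_lit 21)) (k (Nat.shiftRight s (nat_lit 4)))

/-- leaf: one path to a smaller level -/
def lSingle (D : Dat) (o1 o2 : Bool) (i s : Nat) : TF Nat := fun X J Y T R0 R1 R2 k =>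
  (fun lev => an (Nat.ble (nat_lit 1) lev) (an (src D o1 o2 i J T (Nat.pred lev))
    (an (pths D o1 o2 X Y T R0 R1 R2 (Nat.pred lev) (fld s (nat_lit 9) (nat_lit 288230376151711743)))
      (k (Nat.shiftRight s (nat_lit 67))))))
    (fld s (nat_lit 4) (nat_lit 31))

/-- leaf: one path whose words consist of ones, to the same level -/
def lOnes (D : Dat) (o1 o2 : Bool) (i s : Nat) : TF Nat := fun X J Y T R0 R1 R2 k =>
  (fun lev u v w => an (sel (Nat.beq lev (nat_lit 0)) true (src D o1 o2 i J T (Nat.pred lev)))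
    (an (an (one u) (an (one v) (an (one w) (Nat.ble (nat_lit 4) (Nat.add u (Nat.add v w))))))
    (an (pths D o1 o2 X Y T R0 R1 R2 lev (fld s (nat_lit 9) (nat_lit 288230376151711743)))
      (k (Nat.shiftRight s (nat_lit 67))))))
    (fld s (nat_lit 4) (nat_lit 31)) (fld s (nat_lit 9) (nat_lit 127)) (fld s (nat_lit 17) (nat_lit 127))
    (fld s (nat_lit 25) (nat_lit 127))

/-- leaf: two incomparable paths -/
def lDouble (D : Dat) (o1 o2 : Bool) (s : Nat) : TF Nat := fun X _ Y T R0 R1 R2 k =>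
  an (sel (inc (nat_lit 8) (fld s (nat_lit 4) (nat_lit 127)) (fld s (nat_lit 62) (nat_lit 127))) true
      (sel (inc (nat_lit 8) (fld s (nat_lit 12) (nat_lit 127)) (fld s (nat_lit 70) (nat_lit 127))) true
        (inc (nat_lit 8) (fld s (nat_lit 20) (nat_lit 127)) (fld s (nat_lit 78) (nat_lit 127)))))
    (an (pths D o1 o2 X Y T R0 R1 R2 (nat_lit 21) (fld s (nat_lit 4) (nat_lit 288230376151711743)))
    (an (pths D o1 o2 X Y T R0 R1 R2 (nat_lit 21) (fld s (nat_lit 62) (nat_lit 288230376151711743)))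
      (k (Nat.shiftRight s (nat_lit 120)))))

/-- choice of the leaf type, `c` in `0 .. 3` -/
def leaf (D : Dat) (o1 o2 : Bool) (i c s : Nat) : TF Nat :=
  sel (Nat.ble c (nat_lit 1))
    (sel (Nat.beq c (nat_lit 0)) (lSkip D o1 o2 i s) (lSingle D o1 o2 i s))
    (sel (Nat.beq c (nat_lit 2)) (lOnes D o1 o2 i s) (lDouble D o1 o2 s))

/-- choice of the splitting, `c` in `4 .. 9` -/
def spl {γ : Type} (D : Dat) (c : Nat) (ih : γ → TF γ) (s : γ) : TF γ :=
  sel (Nat.ble c (nat_lit 6))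
    (sel (Nat.beq c (nat_lit 4)) (splT ih s) (sel (Nat.beq c (nat_lit 5)) (splX ih s) (splY D ih s)))
    (sel (Nat.beq c (nat_lit 7)) (splR0 ih s) (sel (Nat.beq c (nat_lit 8)) (splR1 ih s) (splR2 ih s)))

/-- traversal of one chunk -/
def run (D : Dat) (o1 o2 : Bool) (i : Nat) : Nat → Nat → TF Nat :=
  Nat.rec (motive := fun _ => Nat → TF Nat) (fun _ _ _ _ _ _ _ _ _ => false)
    (fun _ ih s => (fun c => sel (Nat.ble c (nat_lit 3)) (leaf D o1 o2 i c s)
      (spl D c ih (Nat.shiftRight s (nat_lit 4)))) (Nat.land s (nat_lit 15)))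

/-- stream and list of chunks -/
structure SC where
  s : Nat
  c : List Nat

/-- traversal of a module: stream of splittings with chunks at the leaves (code 15) -/
def top (D : Dat) (o1 o2 : Bool) (i : Nat) : Nat → SC → TF SC :=
  Nat.rec (motive := fun _ => SC → TF SC) (fun _ _ _ _ _ _ _ _ _ => false)
    (fun _ ih z => (fun c => sel (Nat.beq c (nat_lit 15))
      (fun X J Y T R0 R1 R2 k => List.rec (motive := fun _ => Bool) false
          (fun hd tl _ => an (run D o1 o2 i (nat_lit 60) hd X J Y T R0 R1 R2 (fun _ => true))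
            (k (SC.mk (Nat.shiftRight z.s (nat_lit 4)) tl))) z.c)
      (spl D c ih (SC.mk (Nat.shiftRight z.s (nat_lit 4)) z.c))) (Nat.land z.s (nat_lit 15)))

/-- the test of a module -/
def modt (D : Dat) (o1 o2 : Bool) (i : Nat) (s : Nat) (c : List Nat) : Bool :=
  top D o1 o2 i (nat_lit 60) (SC.mk s c)
    (Rg.mk (gg D (Nat.add i (nat_lit 12))) (gg D (Nat.add i (nat_lit 13))))
    (Rg.mk (nat_lit 0) (nat_lit 38)) (Rg.mk (gg D (nat_lit 0)) (gg D (nat_lit 38)))
    (Rg.mk (nat_lit 0) (nat_lit 2621440)) (Rg.mk (nat_lit 3660) (nat_lit 7321))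
    (Rg.mk (nat_lit 3660) (nat_lit 7321)) (Rg.mk (nat_lit 3660) (nat_lit 7321)) (fun _ => true)

end Pool.Agent.Helper80.TS

end
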