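import Pool.Agent.Helper80.TS.St

/-!
# Facts on the data of the certificates (MP_ae7841_nt, module DOK)
-/

set_option autoImplicit false

namespace Pool.Agent.Helper80.TS

theorem DOK_tab : ∀ c : ℕ, c < 128 →
    Nat.land (en dat c) m24 = n1 (dig c) ∧ fld (en dat c) 24 m24 = n2 (dig c) ∧
    fld (en dat c) 48 m36 = 10000 * d1 (dig c) ∧ fld (en dat c) 84 m36 = 10000 * d2 (dig c) ∧
    fld (en dat c) 120 m36 + 3660 * TS.d1 (dig c) = 10000 * TS.n1 (dig c) ∧
    fld (en dat c) 156 m36 + 3660 * TS.d2 (dig c) = 10000 * TS.n2 (dig c) := by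
  decide +kernel

theorem DOK_par : ∀ c : ℕ, c < 128 → pr dat c = TS.par (dig c) := by
  decide +kernel

theorem DOK_grid : ∀ a : ℕ, a < 38 → gg dat a ≤ gg dat (a + 1) := by
  decide +kernel

theorem DOK_low : ∀ a : ℕ, a < 39 → 170000 ≤ gg dat a ∧ gg dat a ≤ 1170000 := by
  decide +kernel

theorem DOK_mask : ∀ l : ℕ, l < 21 → ∀ o1 o2 : Bool,
    Nat.beq (Nat.land (msk dat l o1 o2) (msk dat (l + 1) o1 o2)) (msk dat l o1 o2) = true := by
  decide +kernel

theorem hDOK : StDOK where
  tab := fun c hc => by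
    obtain ⟨h1, h2, h3, h4, h5, h6⟩ := DOK_tab c hc
    exact ⟨h1, h2, h3, h4, h5, h6⟩
  par := DOK_par
  grid := by
    intro a b hab
    induction b, hab using Nat.le_induction with
    | base => exact fun _ => le_rfl
    | succ b _ ih => exact fun hb => (ih (by omega)).trans (DOK_grid b (by omega))
  low := fun a ha => (DOK_low a (by omega)).1
  high := fun a ha => (DOK_low a (by omega)).2
  mono := by
    intro l o1 o2 n h
    rcases lt_or_ge l 21 with hl | hl
    · have h1 := Nat.eq_of_beq_eq_true (DOK_mask l hl o1 o2)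
      rw [← h1] at h
      have h2 : ((msk dat l o1 o2) &&& (msk dat (l + 1) o1 o2)).testBit n = true := h
      rw [Nat.testBit_and, Bool.and_eq_true] at h2
      exact h2.2
    · have h1 : msk dat (l + 1) o1 o2 = msk dat l o1 o2 := by
        unfold msk
        rw [Nat.sub_eq_zero_of_le hl, Nat.sub_eq_zero_of_le (by omega : 21 ≤ l + 1)]
      rw [h1]
      exact h

end Pool.Agent.Helper80.TS
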