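import Mathlib
import Pool.Agent.Helper80.TS.Data

/-!
# Definitions for the proof that the solution set of MP_ae7841_nt is uncountable
-/

set_option autoImplicit false

noncomputable section

namespace Pool.Agent.Helper80.TS

/-! ## finite continued fractions -/

/-- value of the finite continued fraction with digits `w` and tail `v` -/
def cf : List ℕ → ℝ → ℝ
  | [], v => v
  | a :: w, v => 1 / ((a : ℝ) + cf w v)

/-- entries of the Moebius map of a list of digits: `cf w v = (p + p' v) / (q + q' v)` with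
`mat w = (p, p', q, q')` -/
def mat : List ℕ → ℕ × ℕ × ℕ × ℕ
  | [] => (0, 1, 1, 0)
  | a :: w => ((mat w).2.2.1, (mat w).2.2.2, a * (mat w).2.2.1 + (mat w).1,
      a * (mat w).2.2.2 + (mat w).2.1)

/-- ends of the hull of the numbers with digits `1, 2` -/
def hA : ℝ := 3660 / 10000
def hB : ℝ := 7321 / 10000

/-- all digits positive -/
def Dg (w : List ℕ) : Prop := ∀ a ∈ w, 1 ≤ a
/-- all digits `1` or `2` -/
def W12 (w : List ℕ) : Prop := ∀ a ∈ w, a = 1 ∨ a = 2
/-- all digits `1` -/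
def Ones (w : List ℕ) : Prop := ∀ a ∈ w, a = 1
/-- incomparable lists -/
def Inc (u v : List ℕ) : Prop :=
  ∃ (p : List ℕ) (a b : ℕ) (u' v' : List ℕ), a ≠ b ∧ u = p ++ a :: u' ∧ v = p ++ b :: v'

/-- the set of ratios `q_{n-1}/q_n` -/
def RS (r : ℝ) : Prop := (3660 / 10000 ≤ r ∧ r ≤ 4227 / 10000) ∨ (5773 / 10000 ≤ r ∧ r ≤ 7321 / 10000)

/-- ratio after the word `w` -/
def rr : ℝ → List ℕ → ℝ
  | r, [] => r
  | r, e :: w => rr (1 / ((e : ℝ) + r)) w

/-! ## abstract cylinder intervals -/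

/-- a cylinder interval: left end `a`, length `L`, orientation `o` (`false`: increasing in the
tail), ratio `r` of the denominators -/
structure Iv where
  a : ℝ
  L : ℝ
  o : Bool
  r : ℝ

/-- relative position of the point with tail `u` in a cylinder with ratio `r` -/
def pos (r u : ℝ) : ℝ := (u - hA) * (1 + r * hB) / ((hB - hA) * (1 + r * u))

/-- lower and upper end of the tails in the word `w` -/
def lo (w : List ℕ) : ℝ := min (cf w hA) (cf w hB)
def hi (w : List ℕ) : ℝ := max (cf w hA) (cf w hB)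

/-- parity of the length of a word: `true` for odd length -/
def par (w : List ℕ) : Bool := decide (w.length % 2 = 1)

/-- refinement of a cylinder by a word -/
def Iv.ref (I : Iv) (w : List ℕ) : Iv where
  a := I.a + I.L * (if I.o = true then 1 - pos I.r (hi w) else pos I.r (lo w))
  L := I.L * (pos I.r (hi w) - pos I.r (lo w))
  o := xor I.o (par w)
  r := rr I.r w

/-- reflection at the origin -/
def Iv.neg (I : Iv) : Iv := ⟨-(I.a + I.L), I.L, !I.o, I.r⟩

/-- the cylinder interval of a list of digits -/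
def iv (w : List ℕ) : Iv where
  a := min (cf w hA) (cf w hB)
  L := |cf w hB - cf w hA|
  o := par w
  r := ((mat w).2.2.2 : ℝ) / ((mat w).2.2.1 : ℝ)

/-! ## cells -/

/-- the mask of level `lev` for the relative orientations `o1, o2` -/
def msk (D : Dat) (lev : ℕ) (o1 o2 : Bool) : ℕ := nth (nthl D.M (oi o1 o2)) (21 - lev)

/-- distance of the target `S` from the left end of the sum interval, seen in the orientation of
the first interval -/
def tau (b a c : Iv) (S : ℝ) : ℝ :=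
  if b.o = true then (b.a + b.L) + (a.a + a.L) + (c.a + c.L) - S else S - (b.a + a.a + c.a)

/-- the three intervals `b, a, c` with target `S` lie in the cell `(i, j, k)`:
`a.L / b.L ∈ [G_{i+12}, G_{i+13})/2^20`, `c.L / b.L ∈ [G_j, G_{j+1})/2^20`, and the relative
position of the target is in `[k, k+1)/40`. -/
structure CellAt (D : Dat) (i j k : ℕ) (b a c : Iv) (S : ℝ) : Prop where
  bL : 0 < b.L
  aL : 0 < a.L
  cL : 0 < c.L
  bi : i < 26
  bj : j < 38
  bk : k < 40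
  x1 : (gg D (i + 12) : ℝ) * b.L ≤ 1048576 * a.L
  x2 : 1048576 * a.L < (gg D (i + 13) : ℝ) * b.L
  y1 : (gg D j : ℝ) * b.L ≤ 1048576 * c.L
  y2 : 1048576 * c.L < (gg D (j + 1) : ℝ) * b.L
  t1 : (k : ℝ) * (b.L + a.L + c.L) ≤ 40 * tau b a c S
  t2 : 40 * tau b a c S < ((k : ℝ) + 1) * (b.L + a.L + c.L)

/-- the cell of the state is in the mask of level `lev` -/
def Cell (D : Dat) (lev : ℕ) (b a c : Iv) (S : ℝ) : Prop :=
  ∃ i j k : ℕ, CellAt D i j k b a c S ∧
    (msk D lev (xor b.o a.o) (xor b.o c.o)).testBit ((i * 38 + j) * 40 + k) = true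

/-- the same up to the order of the three intervals -/
def Im (D : Dat) (lev : ℕ) (A B C : Iv) (S : ℝ) : Prop :=
  Cell D lev A B C S ∨ Cell D lev A C B S ∨ Cell D lev B A C S ∨ Cell D lev B C A S ∨
    Cell D lev C A B S ∨ Cell D lev C B A S

/-- the conclusion of the certificates -/
def Out (D : Dat) (A B C : Iv) (S : ℝ) : Prop :=
  (∃ (lev : ℕ) (u v w : List ℕ), W12 u ∧ W12 v ∧ W12 w ∧ ¬ Cell D lev A B C S ∧
    Im D lev (A.ref u) (B.ref v) (C.ref w) S) ∨
  (∃ (lev : ℕ) (u v w : List ℕ), Ones u ∧ Ones v ∧ Ones w ∧ ¬ (u = [] ∧ v = [] ∧ w = []) ∧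
    (lev = 0 ∨ ¬ Cell D (lev - 1) A B C S) ∧ Im D lev (A.ref u) (B.ref v) (C.ref w) S) ∨
  (∃ u v w u' v' w' : List ℕ, W12 u ∧ W12 v ∧ W12 w ∧ W12 u' ∧ W12 v' ∧ W12 w' ∧
    (Inc u u' ∨ Inc v v' ∨ Inc w w') ∧ Im D 21 (A.ref u) (B.ref v) (C.ref w) S ∧
    Im D 21 (A.ref u') (B.ref v') (C.ref w') S)

/-! ## words and their codes -/

/-- digits of a word code, first digit at the lowest bit, sentinel bit on top, bit `0` is the digit
`1` and bit `1` the digit `2` -/
def digf : ℕ → ℕ → List ℕ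
  | 0, _ => []
  | n + 1, c => if c ≤ 1 then [] else (c % 2 + 1) :: digf n (c / 2)

def dig (c : ℕ) : List ℕ := digf 8 c

/-- numerators and denominators of the Moebius map at the ends of the hull, scaled by `10^4` -/
def nA (w : List ℕ) : ℕ := (mat w).1 * 10000 + (mat w).2.1 * 3660
def dA (w : List ℕ) : ℕ := (mat w).2.2.1 * 10000 + (mat w).2.2.2 * 3660
def nB (w : List ℕ) : ℕ := (mat w).1 * 10000 + (mat w).2.1 * 7321
def dB (w : List ℕ) : ℕ := (mat w).2.2.1 * 10000 + (mat w).2.2.2 * 7321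

/-- numerator and denominator of the lower end `lo w` and of the upper end `hi w` -/
def n1 (w : List ℕ) : ℕ := if par w = true then nB w else nA w
def d1 (w : List ℕ) : ℕ := if par w = true then dB w else dA w
def n2 (w : List ℕ) : ℕ := if par w = true then nA w else nB w
def d2 (w : List ℕ) : ℕ := if par w = true then dA w else dB w

/-- the table entry `e` belongs to the word `w` -/
structure TabOK (e : ℕ) (w : List ℕ) : Prop where
  n1 : Nat.land e m24 = n1 w
  n2 : fld e 24 m24 = n2 w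
  d1 : fld e 48 m36 = 10000 * d1 w
  d2 : fld e 84 m36 = 10000 * d2 w
  z1 : fld e 120 m36 + 3660 * TS.d1 w = 10000 * TS.n1 w
  z2 : fld e 156 m36 + 3660 * TS.d2 w = 10000 * TS.n2 w

/-- the facts about the data used by the soundness proof -/
structure DOK (D : Dat) : Prop where
  tab : ∀ c : ℕ, c < 128 → TabOK (en D c) (dig c)
  par : ∀ c : ℕ, c < 128 → pr D c = TS.par (dig c)
  grid : ∀ a b : ℕ, a ≤ b → b ≤ 38 → gg D a ≤ gg D b
  low : ∀ a : ℕ, a ≤ 38 → 170000 ≤ gg D a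
  high : ∀ a : ℕ, a ≤ 38 → gg D a ≤ 1170000
  mono : ∀ (l : ℕ) (o1 o2 : Bool) (n : ℕ), (msk D l o1 o2).testBit n = true →
    (msk D (l + 1) o1 o2).testBit n = true

/-! ## boxes -/

/-- `x` is in the range `R` with unit `1 / N` -/
def Rg.In (R : Rg) (x : ℝ) : Prop := (R.lo : ℝ) ≤ x ∧ x ≤ (R.hi : ℝ)

/-- the three intervals (first one increasing) with target `S` lie in a box of the traversal;
`j` is the index of the cell of `C.L / A.L` -/
structure InBox (X J Y T R0 R1 R2 : Rg) (j : ℕ) (A B C : Iv) (S : ℝ) : Prop where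
  aL : 0 < A.L
  bL : 0 < B.L
  cL : 0 < C.L
  x1 : (X.lo : ℝ) * A.L ≤ 1048576 * B.L
  x2 : 1048576 * B.L ≤ (X.hi : ℝ) * A.L
  y1 : (Y.lo : ℝ) * A.L ≤ 1048576 * C.L
  y2 : 1048576 * C.L ≤ (Y.hi : ℝ) * A.L
  j1 : J.lo ≤ j
  j2 : j < J.hi
  j3 : J.hi ≤ 38
  t1 : (T.lo : ℝ) * (A.L + B.L + C.L) ≤ 2621440 * (S - (A.a + B.a + C.a))
  t2 : 2621440 * (S - (A.a + B.a + C.a)) < (T.hi : ℝ) * (A.L + B.L + C.L)
  t3 : T.hi ≤ 2621440
  r0 : R0.In (10000 * A.r)
  r1 : R1.In (10000 * B.r)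
  r2 : R2.In (10000 * C.r)
  s0 : RS A.r
  s1 : RS B.r
  s2 : RS C.r

/-- all admissible states in the box satisfy the conclusion -/
def BoxOK (D : Dat) (o1 o2 : Bool) (i : ℕ) (X J Y T R0 R1 R2 : Rg) : Prop :=
  ∀ (A B C : Iv) (S : ℝ) (j k : ℕ), A.o = false → B.o = o1 → C.o = o2 →
    InBox X J Y T R0 R1 R2 j A B C S → CellAt D i j k A B C S →
    (msk D 21 o1 o2).testBit ((i * 38 + j) * 40 + k) = true → Out D A B C S

/-! ## configurations of digit lists -/

/-- admissible configuration of level `lev` -/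
structure InK (lev : ℕ) (A B C : List ℕ) : Prop where
  im : Im dat lev (iv A) (iv B) (iv C) 1
  dA : Dg A
  dB : Dg B
  dC : Dg C
  rA : RS (iv A).r
  rB : RS (iv B).r
  rC : RS (iv C).r

/-- the configuration has two incomparable admissible descendants -/
def HasTwo (A B C : List ℕ) : Prop :=
  ∃ u v w u' v' w' : List ℕ, W12 u ∧ W12 v ∧ W12 w ∧ W12 u' ∧ W12 v' ∧ W12 w' ∧
    (Inc u u' ∨ Inc v v' ∨ Inc w w') ∧ InK 21 (A ++ u) (B ++ v) (C ++ w) ∧
    InK 21 (A ++ u') (B ++ v') (C ++ w')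

/-! ## infinite continued fractions -/

/-- iterates of the Gauss map -/
def gs (x : ℝ) (k : ℕ) : ℝ := (fun y : ℝ => Int.fract (1 / y))^[k] x

/-- partial quotient `a_{k+1}(x)` -/
def pq (x : ℝ) (k : ℕ) : ℕ := ⌊1 / gs x k⌋₊

/-- the set `B_{2,j}` -/
def B2j (j : ℕ) : Set ℝ :=
  {x | Irrational x ∧ 0 < x ∧ x < 1 ∧ (∀ k, k < j → pq x k ≤ 3) ∧ (∀ k, j ≤ k → pq x k ≤ 2)}

/-- the set `B_2^*` -/
def B2s : Set ℝ := ⋃ j, B2j j

/-- unordered solutions -/
def SU : Set (ℝ × ℝ × ℝ) := {p | p.1 ∈ B2s ∧ p.2.1 ∈ B2s ∧ p.2.2 ∈ B2s ∧ p.1 + p.2.1 + p.2.2 = 1}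

/-- the solution set `S` -/
def SO : Set (ℝ × ℝ × ℝ) :=
  {p | p.1 ∈ B2s ∧ p.2.1 ∈ B2s ∧ p.2.2 ∈ B2s ∧ p.1 + p.2.1 + p.2.2 = 1 ∧ p.1 ≤ p.2.1 ∧
    p.2.1 ≤ p.2.2}

/-- the digits of `x` start with `w` -/
def Pre (w : List ℕ) (x : ℝ) : Prop := ∀ k, k < w.length → pq x k = w.getD k 0

end Pool.Agent.Helper80.TS

end
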