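import Pool.Agent.Helper80.TS.St

/-!
# Module Diag (helper95): diagonal argument
-/

set_option autoImplicit false

namespace Pool.Agent.Helper80.TS

private theorem getD_mid (L p u : List ℕ) (a : ℕ) :
    (L ++ (p ++ a :: u)).getD (L.length + p.length) 0 = a := by
  rw [← List.append_assoc, List.getD_append_right _ _ _ _ (by simp), List.length_append,
    Nat.sub_self, List.getD_cons_zero]

private theorem inc_absurd {u v L : List ℕ} {x : ℝ} (h : Inc u v) (h1 : Pre (L ++ u) x)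
    (h2 : Pre (L ++ v) x) : False := by
  obtain ⟨p, a, b, u', v', hab, rfl, rfl⟩ := h
  have e1 := h1 (L.length + p.length) (by simp)
  have e2 := h2 (L.length + p.length) (by simp)
  rw [getD_mid] at e1 e2
  exact hab (e1.symm.trans e2)

private theorem inc_len {u v : List ℕ} (h : Inc u v) : 1 ≤ u.length ∧ 1 ≤ v.length := by
  obtain ⟨p, a, b, u', v', hab, rfl, rfl⟩ := h
  simp
  omega

private theorem w12_append {u v : List ℕ} (hu : W12 u) (hv : W12 v) : W12 (u ++ v) := by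
  intro a ha
  rcases List.mem_append.1 ha with h | h
  · exact hu a h
  · exact hv a h

private theorem stepD (hTwo : StTwo) {A B C u v w : List ℕ} (hu : W12 u) (hv : W12 v) (hw : W12 w)
    (h : InK 21 (A ++ u) (B ++ v) (C ++ w)) (x y z : ℝ) :
    ∃ u' v' w' : List ℕ, W12 u' ∧ W12 v' ∧ W12 w' ∧ InK 21 (A ++ u') (B ++ v') (C ++ w') ∧
      u <+: u' ∧ v <+: v' ∧ w <+: w' ∧
      u.length + v.length + w.length + 1 ≤ u'.length + v'.length + w'.length ∧
      ¬ (Pre (A ++ u') x ∧ Pre (B ++ v') y ∧ Pre (C ++ w') z) := by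
  obtain ⟨u1, v1, w1, u2, v2, w2, hu1, hv1, hw1, hu2, hv2, hw2, hinc, hK1, hK2⟩ :=
    hTwo 21 _ _ _ le_rfl h
  rw [List.append_assoc, List.append_assoc, List.append_assoc] at hK1 hK2
  by_cases hP : Pre (A ++ (u ++ u1)) x ∧ Pre (B ++ (v ++ v1)) y ∧ Pre (C ++ (w ++ w1)) z
  · refine ⟨u ++ u2, v ++ v2, w ++ w2, w12_append hu hu2, w12_append hv hv2, w12_append hw hw2,
      hK2, List.prefix_append _ _, List.prefix_append _ _, List.prefix_append _ _, ?_, ?_⟩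
    · simp only [List.length_append]
      rcases hinc with h1 | h1 | h1 <;> have h2 := inc_len h1 <;> omega
    · rintro ⟨q1, q2, q3⟩
      obtain ⟨p1, p2, p3⟩ := hP
      rw [← List.append_assoc] at p1 p2 p3 q1 q2 q3
      rcases hinc with h1 | h1 | h1
      · exact inc_absurd h1 p1 q1
      · exact inc_absurd h1 p2 q2
      · exact inc_absurd h1 p3 q3
  · refine ⟨u ++ u1, v ++ v1, w ++ w1, w12_append hu hu1, w12_append hv hv1, w12_append hw hw1,
      hK1, List.prefix_append _ _, List.prefix_append _ _, List.prefix_append _ _, ?_, hP⟩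
    simp only [List.length_append]
    rcases hinc with h1 | h1 | h1 <;> have h2 := inc_len h1 <;> omega

theorem hDiag (hTwo : StTwo) (hGeo : StGeo) (hSeq : StSeq) (hLim : StLim) : StDiag := by
  intro A B C hA3 hB3 hC3 hK hcount
  obtain ⟨s, hs⟩ := Set.countable_iff_exists_subset_range.1 hcount
  -- configurations
  let Cf : Type := {t : List ℕ × List ℕ × List ℕ // W12 t.1 ∧ W12 t.2.1 ∧ W12 t.2.2 ∧
    InK 21 (A ++ t.1) (B ++ t.2.1) (C ++ t.2.2)}
  have hstep : ∀ (t : Cf) (p : ℝ × ℝ × ℝ), ∃ t' : Cf, t.1.1 <+: t'.1.1 ∧ t.1.2.1 <+: t'.1.2.1 ∧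
      t.1.2.2 <+: t'.1.2.2 ∧
      t.1.1.length + t.1.2.1.length + t.1.2.2.length + 1 ≤
        t'.1.1.length + t'.1.2.1.length + t'.1.2.2.length ∧
      ¬ (Pre (A ++ t'.1.1) p.1 ∧ Pre (B ++ t'.1.2.1) p.2.1 ∧ Pre (C ++ t'.1.2.2) p.2.2) := by
    rintro ⟨⟨u, v, w⟩, hu, hv, hw, hK⟩ ⟨x, y, z⟩
    obtain ⟨u', v', w', h1, h2, h3, h4, h5, h6, h7, h8, h9⟩ := stepD hTwo hu hv hw hK x y z
    exact ⟨⟨(u', v', w'), h1, h2, h3, h4⟩, h5, h6, h7, h8, h9⟩
  choose nx hnx1 hnx2 hnx3 hnx4 hnx5 using hstep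
  have hnil : W12 [] := fun a ha => absurd ha (List.not_mem_nil)
  let c0 : Cf := ⟨([], [], []), hnil, hnil, hnil, by
    simp only [List.append_nil]
    exact hK⟩
  let c : ℕ → Cf := fun n => Nat.rec c0 (fun n t => nx t (s n)) n
  have hc : ∀ n, c (n + 1) = nx (c n) (s n) := fun n => rfl
  have hlen : ∀ n, n ≤ (c n).1.1.length + (c n).1.2.1.length + (c n).1.2.2.length := by
    intro n
    induction n with
    | zero => exact Nat.zero_le _
    | succ n ih =>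
      have h1 := hnx4 (c n) (s n)
      rw [← hc n] at h1
      omega
  have hp1 : ∀ n, (c n).1.1 <+: (c (n + 1)).1.1 := fun n => hnx1 (c n) (s n)
  have hp2 : ∀ n, (c n).1.2.1 <+: (c (n + 1)).1.2.1 := fun n => hnx2 (c n) (s n)
  have hp3 : ∀ n, (c n).1.2.2 <+: (c (n + 1)).1.2.2 := fun n => hnx3 (c n) (s n)
  obtain ⟨l1, l2, l3, hL⟩ := hSeq A B C (fun n => (c n).1.1) (fun n => (c n).1.2.1)
    (fun n => (c n).1.2.2) (fun n => ⟨(c n).2.1, (c n).2.2.1, (c n).2.2.2.1⟩)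
    (fun n => ⟨hp1 n, hp2 n, hp3 n⟩) hlen (fun n => (c n).2.2.2.2)
  obtain ⟨x, hx, hx'⟩ := hLim A (fun n => (c n).1.1) hK.dA hA3 (fun n => (c n).2.1) hp1 l1
  obtain ⟨y, hy, hy'⟩ := hLim B (fun n => (c n).1.2.1) hK.dB hB3 (fun n => (c n).2.2.1) hp2 l2
  obtain ⟨z, hz, hz'⟩ := hLim C (fun n => (c n).1.2.2) hK.dC hC3 (fun n => (c n).2.2.2.1) hp3 l3
  have hsum : x + y + z = 1 := by
    by_contra hne
    have hpos : 0 < |x + y + z - 1| := abs_pos.2 (sub_ne_zero.2 hne)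
    obtain ⟨n, hn⟩ := hL _ hpos
    obtain ⟨-, v1, a1, b1, e1⟩ := hx' n
    obtain ⟨-, v2, a2, b2, e2⟩ := hy' n
    obtain ⟨-, v3, a3, b3, e3⟩ := hz' n
    have h1 := (hGeo 21 _ _ _ (c n).2.2.2.2).2.2.2.2.2.2 v1 v2 v3 a1 b1 a2 b2 a3 b3
    rw [← e1, ← e2, ← e3] at h1
    exact absurd hn (not_lt.2 h1)
  obtain ⟨n, hn⟩ := hs (show (x, y, z) ∈ SU from ⟨hx, hy, hz, hsum⟩)
  have h1 := hnx5 (c n) (s n)
  rw [← hc n, hn] at h1
  exact h1 ⟨(hx' (n + 1)).1, (hy' (n + 1)).1, (hz' (n + 1)).1⟩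

end Pool.Agent.Helper80.TS
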