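import Pool.Agent.Helper80.TS.St

/-! Module Fac: the length factor (MP_ae7841_nt). -/

set_option autoImplicit false

namespace Pool.Agent.Helper80.TS

theorem Fac_cf_pos (w : List ℕ) (v : ℝ) (hv : 0 < v) : 0 < cf w v := by
  induction w with
  | nil => exact hv
  | cons a w ih =>
    show 0 < 1 / ((a : ℝ) + cf w v)
    positivity

theorem Fac_diff (r x y : ℝ) (hr : 0 ≤ r) (hx : 0 < x) (hy : 0 < y) :
    pos r x - pos r y = (x - y) * ((1 + r * hA) * (1 + r * hB)) /
      ((hB - hA) * ((1 + r * x) * (1 + r * y))) := by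
  have h1 : (1 + r * x) ≠ 0 := by positivity
  have h2 : (1 + r * y) ≠ 0 := by positivity
  have h3 : hB - hA ≠ 0 := by unfold hA hB; norm_num
  unfold pos
  field_simp
  ring

theorem Fac_mono (r x y : ℝ) (hr : 0 ≤ r) (hx : 0 < x) (hy : 0 < y) (h : x ≤ y) :
    pos r x ≤ pos r y := by
  have h1 := Fac_diff r y x hr hy hx
  have h2 : 0 < hB - hA := by unfold hA hB; norm_num
  have h3 : 0 < hA := by unfold hA; norm_num
  have h4 : 0 < hB := by unfold hB; norm_num
  have h5 : 0 ≤ pos r y - pos r x := by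
    rw [h1]
    have : 0 ≤ y - x := by linarith
    positivity
  linarith

theorem Fac_abs (w : List ℕ) (r : ℝ) (hr : 0 ≤ r) :
    pos r (hi w) - pos r (lo w) = |pos r (cf w hB) - pos r (cf w hA)| := by
  have h3 : 0 < hA := by unfold hA; norm_num
  have h4 : 0 < hB := by unfold hB; norm_num
  have hx := Fac_cf_pos w hA h3
  have hy := Fac_cf_pos w hB h4
  unfold hi lo
  rcases le_total (cf w hA) (cf w hB) with h | h
  · rw [max_eq_right h, min_eq_left h, abs_of_nonneg]
    linarith [Fac_mono r _ _ hr hx hy h]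
  · rw [max_eq_left h, min_eq_right h, abs_of_nonpos]
    · ring
    · linarith [Fac_mono r _ _ hr hy hx h]

theorem Fac_step (e r x y : ℝ) (he : 1 ≤ e) (hr : 0 ≤ r) (hx : 0 < x) (hy : 0 < y) :
    pos r (1 / (e + x)) - pos r (1 / (e + y)) =
      ((1 + r * hA) * (1 + r * hB) / ((e + hA + r) * (e + hB + r))) *
        (pos (1 / (e + r)) y - pos (1 / (e + r)) x) := by
  have h3 : 0 < hA := by unfold hA; norm_num
  have h4 : 0 < hB := by unfold hB; norm_num
  have h5 : 0 < e + x := by linarith
  have h6 : 0 < e + y := by linarith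
  have h7 : 0 < e + r := by linarith
  rw [Fac_diff r _ _ hr (by positivity) (by positivity),
    Fac_diff (1 / (e + r)) y x (by positivity) hy hx]
  have h8 : hB - hA ≠ 0 := by unfold hA hB; norm_num
  have h9 : e + hA + r ≠ 0 := by linarith
  have h10 : e + hB + r ≠ 0 := by linarith
  have e1 : (1 / (e + x) - 1 / (e + y)) = (y - x) / ((e + x) * (e + y)) := by
    field_simp
    ring
  have e2 : 1 + r * (1 / (e + x)) = (e + x + r) / (e + x) := by field_simp
  have e3 : 1 + r * (1 / (e + y)) = (e + y + r) / (e + y) := by field_simp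
  have e4 : ∀ z, 1 + 1 / (e + r) * z = (e + z + r) / (e + r) := by
    intro z
    field_simp
    ring
  have h11 : e + x + r ≠ 0 := by linarith
  have h12 : e + y + r ≠ 0 := by linarith
  rw [e1, e2, e3, e4, e4, e4, e4]
  field_simp

theorem Fac_m (e r : ℝ) (he : 1 ≤ e) (hr : 0 ≤ r) :
    0 < (1 + r * hA) * (1 + r * hB) / ((e + hA + r) * (e + hB + r)) ∧
      (1 + r * hA) * (1 + r * hB) / ((e + hA + r) * (e + hB + r)) ≤ 1 / 2 := by
  have h3 : hA = 3660 / 10000 := rfl
  have h4 : hB = 7321 / 10000 := rfl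
  constructor
  · rw [h3, h4]
    positivity
  · rw [h3, h4, div_le_iff₀ (by positivity)]
    have h5 : (1 + 3660 / 10000 + r) * (1 + 7321 / 10000 + r) ≤
        (e + 3660 / 10000 + r) * (e + 7321 / 10000 + r) := by
      apply mul_le_mul (by linarith) (by linarith) (by positivity) (by positivity)
    nlinarith [mul_nonneg hr hr]

theorem Fac_ind (w : List ℕ) : W12 w → ∀ r : ℝ, 0 ≤ r → r ≤ 1 →
    0 < |pos r (cf w hB) - pos r (cf w hA)| ∧
      |pos r (cf w hB) - pos r (cf w hA)| ≤ (1 / 2) ^ w.length := by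
  have h3 : 0 < hA := by unfold hA; norm_num
  have h4 : 0 < hB := by unfold hB; norm_num
  have h8 : hB - hA ≠ 0 := by unfold hA hB; norm_num
  induction w with
  | nil =>
    intro _ r hr _
    have h1 : pos r (cf [] hB) = 1 := by
      show pos r hB = 1
      unfold pos
      have : 1 + r * hB ≠ 0 := by positivity
      field_simp
    have h2 : pos r (cf [] hA) = 0 := by
      show pos r hA = 0
      unfold pos
      simp
    rw [h1, h2]
    norm_num
  | cons e u ih =>
    intro hw r hr hr1
    have he : (1 : ℝ) ≤ (e : ℝ) := by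
      rcases hw e (by simp) with h | h <;> rw [h] <;> norm_num
    have hu : W12 u := fun a ha => hw a (by simp [ha])
    have hr0' : 0 ≤ 1 / ((e : ℝ) + r) := by positivity
    have hr1' : 1 / ((e : ℝ) + r) ≤ 1 := by
      rw [div_le_one (by linarith)]
      linarith
    obtain ⟨i1, i2⟩ := ih hu _ hr0' hr1'
    have hx := Fac_cf_pos u hA h3
    have hy := Fac_cf_pos u hB h4
    obtain ⟨m0, m1⟩ := Fac_m (e : ℝ) r he hr
    have hs : pos r (cf (e :: u) hB) - pos r (cf (e :: u) hA) = _ :=
      Fac_step (e : ℝ) r (cf u hB) (cf u hA) he hr hy hx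
    rw [hs, abs_mul, abs_of_pos m0, abs_sub_comm, List.length_cons, pow_succ']
    exact ⟨mul_pos m0 i1, mul_le_mul m1 i2 (abs_nonneg _) (by norm_num)⟩

theorem hFac (hMat : StMat) (hHull : StHull) : StFac := by
  intro w r hw hr hr1
  rw [Fac_abs w r hr]
  exact Fac_ind w hw r hr hr1

end Pool.Agent.Helper80.TS
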