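import Pool.Agent.Helper80.TS.St

/-!
# MODULE Geo: geometry of admissible configurations
-/

set_option autoImplicit false

namespace Pool.Agent.Helper80.TS

theorem geo_cf_pos : ∀ (w : List ℕ), Dg w → ∀ v : ℝ, 0 < v → 0 < cf w v := by
  intro w
  induction w with
  | nil => intro _ v hv; simpa [cf] using hv
  | cons a w ih =>
    intro hw v hv
    have ha : 1 ≤ a := hw a (by simp)
    have hw' : Dg w := fun b hb => hw b (by simp [hb])
    have h := ih hw' v hv
    have ha' : (1 : ℝ) ≤ (a : ℝ) := by exact_mod_cast ha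
    show 0 < 1 / ((a : ℝ) + cf w v)
    positivity

/-- `cf w` is monotone or antitone on positive numbers -/
theorem geo_cf_mono : ∀ (w : List ℕ), Dg w →
    (∀ x y : ℝ, 0 < x → x ≤ y → cf w x ≤ cf w y) ∨ (∀ x y : ℝ, 0 < x → x ≤ y → cf w y ≤ cf w x) := by
  intro w
  induction w with
  | nil => intro _; left; intro x y _ h; simpa [cf] using h
  | cons a w ih =>
    intro hw
    have ha : 1 ≤ a := hw a (by simp)
    have hw' : Dg w := fun b hb => hw b (by simp [hb])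
    have ha' : (1 : ℝ) ≤ (a : ℝ) := by exact_mod_cast ha
    rcases ih hw' with h | h
    · right
      intro x y hx hxy
      have h1 := h x y hx hxy
      have h2 := geo_cf_pos w hw' x hx
      show 1 / ((a : ℝ) + cf w y) ≤ 1 / ((a : ℝ) + cf w x)
      exact one_div_le_one_div_of_le (by linarith) (by linarith)
    · left
      intro x y hx hxy
      have h1 := h x y hx hxy
      have h2 := geo_cf_pos w hw' y (lt_of_lt_of_le hx hxy)
      show 1 / ((a : ℝ) + cf w x) ≤ 1 / ((a : ℝ) + cf w y)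
      exact one_div_le_one_div_of_le (by linarith) (by linarith)

theorem geo_iv (w : List ℕ) (hw : Dg w) (x : ℝ) (h1 : hA ≤ x) (h2 : x ≤ hB) :
    (iv w).a ≤ cf w x ∧ cf w x ≤ (iv w).a + (iv w).L := by
  have hA0 : (0 : ℝ) < hA := by unfold hA; norm_num
  have hx : 0 < x := lt_of_lt_of_le hA0 h1
  show min (cf w hA) (cf w hB) ≤ cf w x ∧ cf w x ≤ min (cf w hA) (cf w hB) + |cf w hB - cf w hA|
  rcases geo_cf_mono w hw with h | h
  · have e1 := h hA x hA0 h1
    have e2 := h x hB hx h2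
    rw [min_eq_left (le_trans e1 e2), abs_of_nonneg (by linarith)]
    constructor <;> linarith
  · have e1 := h hA x hA0 h1
    have e2 := h x hB hx h2
    rw [min_eq_right (le_trans e2 e1), abs_of_nonpos (by linarith)]
    constructor <;> linarith

/-- the data of a cell -/
theorem geo_cell (hDOK : StDOK) (lev : ℕ) (b a c : Iv) (S : ℝ) (h : Cell dat lev b a c S) :
    (0 < b.L ∧ 0 < a.L ∧ 0 < c.L) ∧
    (b.L + a.L + c.L ≤ 30 * b.L ∧ b.L + a.L + c.L ≤ 30 * a.L ∧ b.L + a.L + c.L ≤ 30 * c.L) ∧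
    (b.a + a.a + c.a ≤ S ∧ S ≤ (b.a + b.L) + (a.a + a.L) + (c.a + c.L)) := by
  obtain ⟨i, j, k, hc, -⟩ := h
  have hD : DOK dat := hDOK
  have g1 : (170000 : ℝ) ≤ (gg dat (i + 12) : ℝ) := by
    exact_mod_cast hD.low (i + 12) (by have := hc.bi; omega)
  have g2 : (gg dat (i + 13) : ℝ) ≤ 1170000 := by
    exact_mod_cast hD.high (i + 13) (by have := hc.bi; omega)
  have g3 : (170000 : ℝ) ≤ (gg dat j : ℝ) := by
    exact_mod_cast hD.low j (by have := hc.bj; omega)
  have g4 : (gg dat (j + 1) : ℝ) ≤ 1170000 := by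
    exact_mod_cast hD.high (j + 1) (by have := hc.bj; omega)
  have hb := hc.bL
  have ha := hc.aL
  have hcc := hc.cL
  have x1 : (170000 : ℝ) * b.L ≤ 1048576 * a.L :=
    le_trans (mul_le_mul_of_nonneg_right g1 hb.le) hc.x1
  have x2 : 1048576 * a.L ≤ 1170000 * b.L :=
    le_trans hc.x2.le (mul_le_mul_of_nonneg_right g2 hb.le)
  have y1 : (170000 : ℝ) * b.L ≤ 1048576 * c.L :=
    le_trans (mul_le_mul_of_nonneg_right g3 hb.le) hc.y1
  have y2 : 1048576 * c.L ≤ 1170000 * b.L :=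
    le_trans hc.y2.le (mul_le_mul_of_nonneg_right g4 hb.le)
  have hs : 0 < b.L + a.L + c.L := by linarith
  have t1 : 0 ≤ tau b a c S := by
    have := hc.t1
    have hk : (0 : ℝ) ≤ (k : ℝ) * (b.L + a.L + c.L) := by positivity
    linarith
  have t2 : tau b a c S ≤ b.L + a.L + c.L := by
    have := hc.t2
    have hk : (k : ℝ) + 1 ≤ 40 := by
      have := hc.bk
      have h' : k + 1 ≤ 40 := by omega
      exact_mod_cast h'
    have hm : ((k : ℝ) + 1) * (b.L + a.L + c.L) ≤ 40 * (b.L + a.L + c.L) :=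
      mul_le_mul_of_nonneg_right hk hs.le
    linarith
  refine ⟨⟨hb, ha, hcc⟩, ⟨by linarith, by linarith, by linarith⟩, ?_⟩
  unfold tau at t1 t2
  split_ifs at t1 t2 with ho
  · constructor <;> linarith
  · constructor <;> linarith

theorem hGeo (_hMat : StMat) (hDOK : StDOK) : StGeo := by
  intro l A B C h
  have key : (0 < (iv A).L ∧ 0 < (iv B).L ∧ 0 < (iv C).L) ∧
      ((iv A).L + (iv B).L + (iv C).L ≤ 30 * (iv A).L ∧
        (iv A).L + (iv B).L + (iv C).L ≤ 30 * (iv B).L ∧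
        (iv A).L + (iv B).L + (iv C).L ≤ 30 * (iv C).L) ∧
      ((iv A).a + (iv B).a + (iv C).a ≤ 1 ∧
        1 ≤ ((iv A).a + (iv A).L) + ((iv B).a + (iv B).L) + ((iv C).a + (iv C).L)) := by
    rcases h.im with h | h | h | h | h | h <;>
    · obtain ⟨⟨p1, p2, p3⟩, ⟨q1, q2, q3⟩, r1, r2⟩ := geo_cell hDOK _ _ _ _ _ h
      refine ⟨⟨?_, ?_, ?_⟩, ⟨?_, ?_, ?_⟩, ?_, ?_⟩ <;> linarith
  obtain ⟨⟨p1, p2, p3⟩, ⟨q1, q2, q3⟩, r1, r2⟩ := key
  refine ⟨p1, p2, p3, q1, q2, q3, ?_⟩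
  intro x y z hx1 hx2 hy1 hy2 hz1 hz2
  obtain ⟨a1, a2⟩ := geo_iv A h.dA x hx1 hx2
  obtain ⟨b1, b2⟩ := geo_iv B h.dB y hy1 hy2
  obtain ⟨c1, c2⟩ := geo_iv C h.dC z hz1 hz2
  rw [abs_le]
  constructor <;> linarith

end Pool.Agent.Helper80.TS
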