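import Pool.Agent.Helper80.TS.St

/-!
# Module Gold: parity lemma for golden tails
-/

set_option autoImplicit false

namespace Pool.Agent.Helper80.TS

namespace Gold

theorem phi_sq : ((Real.sqrt 5 - 1) / 2) ^ 2 = 1 - (Real.sqrt 5 - 1) / 2 := by
  have h : Real.sqrt 5 ^ 2 = 5 := Real.sq_sqrt (by norm_num)
  linear_combination h / 4

theorem phi_pos : 0 < (Real.sqrt 5 - 1) / 2 := by
  have h : Real.sqrt 5 ^ 2 = 5 := Real.sq_sqrt (by norm_num)
  have h0 : 0 ≤ Real.sqrt 5 := Real.sqrt_nonneg 5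
  nlinarith

theorem irr {K M : ℤ} (hK : Odd K) (h : (K : ℝ) * ((Real.sqrt 5 - 1) / 2) = M) : False := by
  have hK0 : (K : ℝ) ≠ 0 := by
    have : K ≠ 0 := by rintro rfl; simp at hK
    exact_mod_cast this
  have h5 : Irrational (Real.sqrt 5) := by
    have := Nat.Prime.irrational_sqrt (p := 5) (by norm_num)
    exact_mod_cast this
  apply h5
  refine ⟨((2 * M + K : ℤ) : ℚ) / (K : ℚ), ?_⟩
  push_cast
  rw [div_eq_iff hK0]
  linarith

theorem golden (hMat : StMat) {w : List ℕ} (hw : Dg w) :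
    ∃ a d N : ℤ, Odd d ∧ Odd N ∧
      (N : ℝ) * cf w ((Real.sqrt 5 - 1) / 2) = a + d * ((Real.sqrt 5 - 1) / 2) := by
  obtain ⟨h1, h2, h3, h4⟩ := hMat w hw
  set p := (mat w).1
  set p' := (mat w).2.1
  set q := (mat w).2.2.1
  set q' := (mat w).2.2.2
  set φ := (Real.sqrt 5 - 1) / 2 with hφ
  have hφ2 : φ ^ 2 = 1 - φ := phi_sq
  have hφ0 : 0 < φ := phi_pos
  have hd : Odd ((p' : ℤ) * q - p * q') := by
    rw [h4]; split_ifs
    · exact ⟨-1, by norm_num⟩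
    · exact ⟨0, by norm_num⟩
  refine ⟨(p : ℤ) * q - p * q' - p' * q', (p' : ℤ) * q - p * q', (q : ℤ) ^ 2 - q * q' - q' ^ 2,
    hd, ?_, ?_⟩
  · rcases Int.even_or_odd (q : ℤ) with hq | hq <;> rcases Int.even_or_odd (q' : ℤ) with hq' | hq'
    · exfalso
      have : Even ((p' : ℤ) * q - p * q') := (hq.mul_left _).sub (hq'.mul_left _)
      exact (Int.not_even_iff_odd.mpr hd) this
    · have e1 : Even ((q : ℤ) ^ 2 - q * q') := (hq.pow_of_ne_zero two_ne_zero).sub (hq.mul_right _)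
      exact e1.sub_odd (hq'.pow)
    · have e1 : Odd ((q : ℤ) ^ 2 - q * q') := hq.pow.sub_even (hq'.mul_left _)
      exact e1.sub_even (hq'.pow_of_ne_zero two_ne_zero)
    · have e1 : Even ((q : ℤ) ^ 2 - q * q') := hq.pow.sub_odd (hq.mul hq')
      exact e1.sub_odd hq'.pow
  · have h5 := h1 φ hφ0
    have hq1 : (1 : ℝ) ≤ q := by exact_mod_cast h2
    have hq2 : (0 : ℝ) ≤ q' := Nat.cast_nonneg _
    have hden : (q : ℝ) + q' * φ ≠ 0 := by
      have := mul_nonneg hq2 hφ0.le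
      linarith
    rw [eq_div_iff hden] at h5
    push_cast
    linear_combination ((q : ℝ) - q' - q' * φ) * h5 +
      (cf w φ * q' ^ 2 - p' * q') * hφ2

end Gold

open Gold in
theorem hGold (hMat : StMat) : StGold := by
  intro A B C hA hB hC h
  obtain ⟨a1, d1, N1, o1, n1, e1⟩ := golden hMat hA
  obtain ⟨a2, d2, N2, o2, n2, e2⟩ := golden hMat hB
  obtain ⟨a3, d3, N3, o3, n3, e3⟩ := golden hMat hC
  have hodd : Odd (d1 * (N2 * N3) + d2 * (N1 * N3) + d3 * (N1 * N2)) :=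
    ((o1.mul (n2.mul n3)).add_odd (o2.mul (n1.mul n3))).add_odd (o3.mul (n1.mul n2))
  apply irr (K := d1 * (N2 * N3) + d2 * (N1 * N3) + d3 * (N1 * N2))
    (M := N1 * N2 * N3 - a1 * (N2 * N3) - a2 * (N1 * N3) - a3 * (N1 * N2)) hodd
  push_cast
  linear_combination (N1 : ℝ) * N2 * N3 * h - (N2 : ℝ) * N3 * e1 - (N1 : ℝ) * N3 * e2
    - (N1 : ℝ) * N2 * e3

end Pool.Agent.Helper80.TS
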