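import Pool.Agent.Helper80.TS.Low

/-! # Module High (MP_ae7841_nt) -/

set_option autoImplicit false

namespace Pool.Agent.Helper80.TS

theorem high_one (B : LB) (I : Iv) (w : List ℕ) (U : ℝ) (th k : ℕ) (hk : k ≤ 40)
    (h : LBok B I w U) :
    (16 * (th : ℝ) + ((highP B k : ℝ) - (highN B th k : ℝ))) * I.L ≤
    1048576 * (40 * ((I.ref w).a - I.a) + (k : ℝ) * (I.ref w).L) := by
  have hk' : ((40 - k : ℕ) : ℝ) = 40 - (k : ℝ) := by
    rw [Nat.cast_sub hk]; norm_num
  have hk0 : (0 : ℝ) ≤ k := Nat.cast_nonneg k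
  have hk1 : (0 : ℝ) ≤ 40 - (k : ℝ) := by
    have : (k : ℝ) ≤ 40 := by exact_mod_cast hk
    linarith
  have hI := h.IL
  cases ho : I.o with
  | false =>
    have hB : B.o = false := by rw [h.o, ho]
    have e1 : highP B k = (40 - k) * B.W.al + k * B.W.bl := by
      unfold highP; rw [hB]; rfl
    have e2 : highN B th k = 16 * th := by
      unfold highN; rw [hB]; rfl
    have e3 : (I.ref w).a = I.a + I.L * pos I.r (lo w) := by
      simp [Iv.ref, ho]
    have e4 : (I.ref w).L = I.L * (pos I.r (hi w) - pos I.r (lo w)) := rfl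
    rw [e1, e2, e3, e4]
    push_cast
    rw [hk']
    have f1 := mul_le_mul_of_nonneg_left h.al hk1
    have f2 := mul_le_mul_of_nonneg_left h.bl hk0
    have f3 : (0 : ℝ) ≤ (((40 - (k : ℝ)) * (1048576 * pos I.r (lo w)) +
        (k : ℝ) * (1048576 * pos I.r (hi w))) -
        ((40 - (k : ℝ)) * (B.W.al : ℝ) + (k : ℝ) * (B.W.bl : ℝ))) * I.L := by
      apply mul_nonneg _ hI.le
      linarith
    nlinarith [f3]
  | true =>
    have hB : B.o = true := by rw [h.o, ho]
    have e1 : highP B k = 41943040 := by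
      unfold highP; rw [hB]; rfl
    have e2 : highN B th k = 16 * th + ((40 - k) * B.W.bh + k * B.W.ah) := by
      unfold highN; rw [hB]; rfl
    have e3 : (I.ref w).a = I.a + I.L * (1 - pos I.r (hi w)) := by
      simp [Iv.ref, ho]
    have e4 : (I.ref w).L = I.L * (pos I.r (hi w) - pos I.r (lo w)) := rfl
    rw [e1, e2, e3, e4]
    push_cast
    rw [hk']
    have f1 := mul_le_mul_of_nonneg_left h.bh hk1
    have f2 := mul_le_mul_of_nonneg_left h.ah hk0
    have f3 : (0 : ℝ) ≤ (((40 - (k : ℝ)) * (B.W.bh : ℝ) + (k : ℝ) * (B.W.ah : ℝ)) -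
        ((40 - (k : ℝ)) * (1048576 * pos I.r (hi w)) +
        (k : ℝ) * (1048576 * pos I.r (lo w)))) * I.L := by
      apply mul_nonneg _ hI.le
      linarith
    nlinarith [f3]

theorem hHigh : StHigh := by
  intro A B C I J K u v w U S th k hU hA hB hC hk hS ht
  have g0 := high_one A I u U th k hk hA
  have g1 := high_one B J v U th k hk hB
  have g2 := high_one C K w U th k hk hC
  have gt := tst_pos _ _ _ _ _ _ _ _ _ I.L J.L K.L U hU ht hA.L1 hA.L2 hB.L1 hB.L2 hC.L1 hC.L2
  nlinarith [g0, g1, g2, gt, hS]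

end Pool.Agent.Helper80.TS
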