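import Pool.Agent.Helper80.TS.St

/-!
# Module Hull: the hull is invariant
-/

set_option autoImplicit false

namespace Pool.Agent.Helper80.TS

namespace Hull

theorem hA_lt_hB : hA < hB := by unfold hA hB; norm_num

theorem mem_hull {w : List ℕ} (hw : W12 w) {v : ℝ} (h1 : hA ≤ v) (h2 : v ≤ hB) :
    hA ≤ cf w v ∧ cf w v ≤ hB := by
  induction w with
  | nil => exact ⟨h1, h2⟩
  | cons a w ih =>
    have hw' : W12 w := fun b hb => hw b (List.mem_cons_of_mem a hb)
    obtain ⟨i1, i2⟩ := ih hw'
    have ha := hw a List.mem_cons_self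
    have e : cf (a :: w) v = 1 / ((a : ℝ) + cf w v) := rfl
    rw [e]
    unfold hA hB at *
    have ha1 : (1 : ℝ) ≤ a := by rcases ha with h | h <;> rw [h] <;> norm_num
    have ha2 : (a : ℝ) ≤ 2 := by rcases ha with h | h <;> rw [h] <;> norm_num
    have hpos : (0 : ℝ) < a + cf w v := by linarith
    constructor
    · rw [le_div_iff₀ hpos]; nlinarith
    · rw [div_le_iff₀ hpos]; nlinarith

theorem cf_mono {w : List ℕ} (hw : W12 w) {x y : ℝ} (h1 : hA ≤ x) (hxy : x < y) (h2 : y ≤ hB) :
    (w.length % 2 = 0 → cf w x < cf w y) ∧ (w.length % 2 = 1 → cf w y < cf w x) := by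
  induction w with
  | nil => exact ⟨fun _ => hxy, fun h => by simp at h⟩
  | cons a w ih =>
    have hw' : W12 w := fun b hb => hw b (List.mem_cons_of_mem a hb)
    obtain ⟨i1, i2⟩ := ih hw'
    have ha := hw a List.mem_cons_self
    have ha1 : (1 : ℝ) ≤ a := by rcases ha with h | h <;> rw [h] <;> norm_num
    have hx := mem_hull hw' h1 (hxy.le.trans h2)
    have hy := mem_hull hw' (h1.trans hxy.le) h2
    have hA0 : (0 : ℝ) < hA := by unfold hA; norm_num
    have ex : cf (a :: w) x = 1 / ((a : ℝ) + cf w x) := rfl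
    have ey : cf (a :: w) y = 1 / ((a : ℝ) + cf w y) := rfl
    rw [ex, ey]
    have hl : (a :: w).length = w.length + 1 := rfl
    rw [hl]
    constructor
    · intro h
      have := i2 (by omega)
      exact one_div_lt_one_div_of_lt (by linarith) (by linarith)
    · intro h
      have := i1 (by omega)
      exact one_div_lt_one_div_of_lt (by linarith) (by linarith)

end Hull

open Hull in
theorem hHull (hMat : StMat) : StHull := by
  have _ := hMat
  intro w hw
  have hAB := hA_lt_hB
  have hm := cf_mono hw le_rfl hAB le_rfl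
  have mA := mem_hull hw (le_refl hA) hAB.le
  have mB := mem_hull hw hAB.le (le_refl hB)
  have hne : cf w hA < cf w hB ∨ cf w hB < cf w hA := by
    rcases Nat.mod_two_eq_zero_or_one w.length with h | h
    · exact Or.inl (hm.1 h)
    · exact Or.inr (hm.2 h)
  refine ⟨le_min mA.1 mB.1, ?_, max_le mA.2 mB.2, ?_⟩
  · unfold lo hi
    rcases hne with h | h
    · rw [min_eq_left h.le, max_eq_right h.le]; exact h
    · rw [min_eq_right h.le, max_eq_left h.le]; exact h
  · intro v hv1 hv2
    unfold lo hi
    rcases hv1.eq_or_lt with rfl | hv1'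
    · exact ⟨min_le_left _ _, le_max_left _ _⟩
    rcases hv2.eq_or_lt with rfl | hv2'
    · exact ⟨min_le_right _ _, le_max_right _ _⟩
    have c1 := cf_mono hw le_rfl hv1' hv2
    have c2 := cf_mono hw hv1 hv2' le_rfl
    rcases Nat.mod_two_eq_zero_or_one w.length with h | h
    · exact ⟨min_le_of_left_le (c1.1 h).le, le_max_of_le_right (c2.1 h).le⟩
    · exact ⟨min_le_of_right_le (c2.2 h).le, le_max_of_le_left (c1.2 h).le⟩

end Pool.Agent.Helper80.TS
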