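import Pool.Agent.Helper80.TS.St

/-! # MODULE Img (MP_ae7841_nt): the image is in a cell of the mask -/

set_option autoImplicit false

namespace Pool.Agent.Helper80.TS

theorem img_an {a b : Bool} (h : an a b = true) : a = true ∧ b = true := by
  revert h
  cases a <;> cases b <;> decide

theorem img_xo (a b : Bool) : xo a b = xor a b := by
  cases a <;> cases b <;> rfl

/-- discrete intermediate value -/
theorem img_ivt (g : ℕ → ℝ) (x : ℝ) (i : ℕ) : ∀ n : ℕ, g i ≤ x → x < g (i + n) →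
    ∃ i' : ℕ, i ≤ i' ∧ i' < i + n ∧ g i' ≤ x ∧ x < g (i' + 1) := by
  intro n
  induction n with
  | zero => intro h1 h2; exact absurd h2 (not_lt.2 h1)
  | succ n ih =>
    intro h1 h2
    rcases lt_or_ge x (g (i + n)) with h | h
    · obtain ⟨i', a1, a2, a3, a4⟩ := ih h1 h
      exact ⟨i', a1, by omega, a3, a4⟩
    · exact ⟨i + n, by omega, by omega, h, h2⟩

theorem hImg (hRat : StRat) (hBits : StBits) : StImg := by
  intro D lev i ni j nj k0 nk b a c J I K v u w U S hU hb ha hc hlo hhi h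
  obtain ⟨e1, h⟩ := img_an h
  obtain ⟨e2, h⟩ := img_an h
  obtain ⟨e3, h⟩ := img_an h
  obtain ⟨e4, h⟩ := img_an h
  obtain ⟨e5, e6⟩ := img_an h
  have n3 : i + ni ≤ 26 := Nat.le_of_ble_eq_true e3
  have n4 : j + nj ≤ 38 := Nat.le_of_ble_eq_true e4
  have n5 : k0 + nk ≤ 40 := Nat.le_of_ble_eq_true e5
  have pJ : 0 < (J.ref v).L := mul_pos hb.IL hb.fp
  have pI : 0 < (I.ref u).L := mul_pos ha.IL ha.fp
  have pK : 0 < (K.ref w).L := mul_pos hc.IL hc.fp
  have qJ : (J.ref v).o = b.q := hb.q.symm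
  have qI : (I.ref u).o = a.q := ha.q.symm
  have qK : (K.ref w).o = c.q := hc.q.symm
  obtain ⟨r1, r2⟩ := hRat a b I J u v U _ _ hU ha hb e1
  obtain ⟨r3, r4⟩ := hRat c b K J w v U _ _ hU hc hb e2
  obtain ⟨i', a1, a2, a3, a4⟩ := img_ivt (fun t => (gg D (t + 12) : ℝ) * (J.ref v).L)
    (1048576 * (I.ref u).L) i ni r1 r2
  obtain ⟨j', b1, b2, b3, b4⟩ := img_ivt (fun t => (gg D t : ℝ) * (J.ref v).L)
    (1048576 * (K.ref w).L) j nj r3 r4
  have hmsk : msk D lev (xor (J.ref v).o (I.ref u).o) (xor (J.ref v).o (K.ref w).o) =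
      nth (nthl D.M (oi (xo b.q a.q) (xo b.q c.q))) (Nat.sub 21 lev) := by
    rw [qJ, qI, qK, img_xo, img_xo]; rfl
  have key : ∀ kk : ℕ, kk + nk ≤ 40 →
      allb (nth (nthl D.M (oi (xo b.q a.q) (xo b.q c.q))) (Nat.sub 21 lev)) (pat nj nk) j kk ni i
        = true →
      (kk : ℝ) * ((J.ref v).L + (I.ref u).L + (K.ref w).L) ≤
        40 * tau (J.ref v) (I.ref u) (K.ref w) S →
      40 * tau (J.ref v) (I.ref u) (K.ref w) S <
        ((kk + nk : ℕ) : ℝ) * ((J.ref v).L + (I.ref u).L + (K.ref w).L) →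
      Cell D lev (J.ref v) (I.ref u) (K.ref w) S := by
    intro kk hkk hall t1 t2
    obtain ⟨k', c1, c2, c3, c4⟩ := img_ivt
      (fun t => (t : ℝ) * ((J.ref v).L + (I.ref u).L + (K.ref w).L))
      (40 * tau (J.ref v) (I.ref u) (K.ref w) S) kk nk t1 t2
    refine ⟨i', j', k', ⟨pJ, pI, pK, by omega, by omega, by omega, a3, a4, b3, b4, c3, ?_⟩, ?_⟩
    · have c4' : 40 * tau (J.ref v) (I.ref u) (K.ref w) S <
        ((k' + 1 : ℕ) : ℝ) * ((J.ref v).L + (I.ref u).L + (K.ref w).L) := c4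
      rwa [Nat.cast_succ] at c4'
    · rw [hmsk]
      exact hBits.1 _ nj nk j kk ni i (by omega) hall i' j' k' a1 a2 b1 b2 c1 c2
  cases hq : b.q with
  | false =>
    have ht : tau (J.ref v) (I.ref u) (K.ref w) S =
        S - ((J.ref v).a + (I.ref u).a + (K.ref w).a) := by
      unfold tau
      rw [qJ, hq]; simp
    rw [hq] at e6 key
    refine key k0 n5 e6 ?_ ?_
    · rw [ht]; exact hlo.le
    · rw [ht]; exact hhi
  | true =>
    have ht : tau (J.ref v) (I.ref u) (K.ref w) S =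
        (J.ref v).a + (J.ref v).L + ((I.ref u).a + (I.ref u).L) + ((K.ref w).a + (K.ref w).L) - S := by
      unfold tau
      rw [qJ, hq]; simp
    rw [hq] at e6 key
    have hk1 : ((40 - (k0 + nk) : ℕ) : ℝ) = 40 - ((k0 + nk : ℕ) : ℝ) := by
      rw [Nat.cast_sub n5]; norm_num
    have hk2 : ((40 - (k0 + nk) + nk : ℕ) : ℝ) = 40 - (k0 : ℝ) := by
      rw [Nat.cast_add, hk1]; push_cast; ring
    refine key (40 - (k0 + nk)) (by omega) e6 ?_ ?_
    · rw [ht, hk1]; nlinarith [hhi]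
    · rw [ht, hk2]; nlinarith [hlo]

end Pool.Agent.Helper80.TS
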