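import Pool.Agent.Helper80.TS.St

/-! Module Irr: irrationality of infinite continued fractions (MP_ae7841_nt). -/

set_option autoImplicit false

namespace Pool.Agent.Helper80.TS

theorem Irr_cf_pos (w : List ℕ) (v : ℝ) (hv : 0 < v) : 0 < cf w v := by
  induction w with
  | nil => exact hv
  | cons a w ih =>
    show 0 < 1 / ((a : ℝ) + cf w v)
    positivity

theorem Irr_len (w : List ℕ) (v : ℝ) (hv : 0 < v) : Dg w → ∀ p q : ℤ, 0 < q →
    cf w v = (p : ℝ) / (q : ℝ) → (w.length : ℤ) ≤ q := by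
  induction w with
  | nil =>
    intro _ p q hq _
    simpa using hq.le
  | cons a u ih =>
    intro hw p q hq h
    have ha : (1 : ℝ) ≤ (a : ℝ) := by exact_mod_cast hw a (by simp)
    have hu : Dg u := fun b hb => hw b (by simp [hb])
    have hc := Irr_cf_pos u v hv
    have hqr : (0 : ℝ) < (q : ℝ) := by exact_mod_cast hq
    have h1 : 1 / ((a : ℝ) + cf u v) = (p : ℝ) / (q : ℝ) := h
    have h0 : 0 < (a : ℝ) + cf u v := by linarith
    have hp : (0 : ℝ) < (p : ℝ) := by
      have h2 : 0 < (p : ℝ) / (q : ℝ) := by rw [← h1]; positivity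
      by_contra hcon
      have h3 : (p : ℝ) / (q : ℝ) ≤ 0 := div_nonpos_of_nonpos_of_nonneg (not_lt.mp hcon) hqr.le
      linarith
    have hp' : 0 < p := by exact_mod_cast hp
    rw [div_eq_div_iff h0.ne' hqr.ne', one_mul] at h1
    have h2 : cf u v = ((q - a * p : ℤ) : ℝ) / (p : ℝ) := by
      rw [eq_div_iff hp.ne']
      push_cast
      linarith
    have h3 := ih hu _ _ hp' h2
    have h4 : (p : ℝ) < (q : ℝ) := by nlinarith
    have h5 : p < q := by exact_mod_cast h4
    rw [List.length_cons]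
    push_cast
    omega

theorem hIrr : StIrr := by
  intro x hx
  rintro ⟨r, hr⟩
  obtain ⟨w, v, hw, hN, hv0, hv1, hxw⟩ := hx (r.den + 1)
  have h1 : cf w v = ((r.num : ℤ) : ℝ) / ((r.den : ℤ) : ℝ) := by
    rw [← hxw, ← hr, Rat.cast_def]
    push_cast
    rfl
  have h2 := Irr_len w v hv0 hw r.num (r.den : ℤ) (by exact_mod_cast r.den_pos) h1
  omega

end Pool.Agent.Helper80.TS
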