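import Pool.Agent.Helper80.TS.St

/-!
# Limit point of a growing chain of cylinders
-/

set_option autoImplicit false

namespace Pool.Agent.Helper80.TS

theorem lim_cf_append (w v : List ℕ) (x : ℝ) : cf (w ++ v) x = cf w (cf v x) := by
  induction w with
  | nil => rfl
  | cons a w ih => simp only [List.cons_append, cf, ih]

theorem lim_dg_append {w v : List ℕ} (hw : Dg w) (hv : W12 v) : Dg (w ++ v) := by
  intro a ha
  rcases List.mem_append.1 ha with h | h
  · exact hw a h
  · rcases hv a h with h1 | h1 <;> omega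

theorem lim_continuous (hMat : StMat) {w : List ℕ} (hw : Dg w) :
    ContinuousOn (cf w) (Set.Icc hA hB) := by
  obtain ⟨h1, h2, -, -⟩ := hMat w hw
  have hpos : ∀ v ∈ Set.Icc hA hB, 0 < v := by
    intro v hv
    have := hv.1
    unfold hA at this
    linarith
  have h3 : ContinuousOn (fun v : ℝ => (((mat w).1 : ℝ) + ((mat w).2.1 : ℝ) * v) /
      (((mat w).2.2.1 : ℝ) + ((mat w).2.2.2 : ℝ) * v)) (Set.Icc hA hB) := by
    refine ContinuousOn.div (by fun_prop) (by fun_prop) ?_
    intro v hv
    have h4 := hpos v hv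
    have h5 : (1 : ℝ) ≤ ((mat w).2.2.1 : ℝ) := by exact_mod_cast h2
    have h6 : (0 : ℝ) ≤ ((mat w).2.2.2 : ℝ) * v := by positivity
    exact (by linarith : (0 : ℝ) < ((mat w).2.2.1 : ℝ) + ((mat w).2.2.2 : ℝ) * v).ne'
  exact h3.congr fun v hv => h1 v (hpos v hv)

theorem hLim (hHull : StHull) (hPre : StPre) (hIrr : StIrr) (hMat : StMat) : StLim := by
  intro A U hDA hA3 hU hpre hlen
  have hD : ∀ n, Dg (A ++ U n) := fun n => lim_dg_append hDA (hU n)
  have hAB : hA ≤ hB := by unfold hA hB; norm_num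
  have hA0 : 0 < hA := by unfold hA; norm_num
  have hB1 : hB < 1 := by unfold hB; norm_num
  -- nested compact sets
  have hne : (⋂ n, cf (A ++ U n) '' Set.Icc hA hB).Nonempty := by
    refine IsCompact.nonempty_iInter_of_sequence_nonempty_isCompact_isClosed _ ?_ ?_ ?_ ?_
    · intro n
      rintro _ ⟨v, hv, rfl⟩
      obtain ⟨t, ht⟩ := hpre n
      have ht12 : W12 t := by
        intro a ha
        exact hU (n + 1) a (by rw [← ht]; exact List.mem_append_right _ ha)
      obtain ⟨h1, -, h2, h3⟩ := hHull t ht12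
      obtain ⟨h4, h5⟩ := h3 v hv.1 hv.2
      refine ⟨cf t v, ⟨h1.trans h4, h5.trans h2⟩, ?_⟩
      rw [← lim_cf_append, List.append_assoc, ht]
    · intro n
      exact ⟨_, Set.mem_image_of_mem _ (Set.left_mem_Icc.2 hAB)⟩
    · exact isCompact_Icc.image_of_continuousOn (lim_continuous hMat (hD 0))
    · intro n
      exact (isCompact_Icc.image_of_continuousOn (lim_continuous hMat (hD n))).isClosed
  obtain ⟨x, hx⟩ := hne
  rw [Set.mem_iInter] at hx
  have hv : ∀ n, ∃ v, hA ≤ v ∧ v ≤ hB ∧ x = cf (A ++ U n) v := by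
    intro n
    obtain ⟨v, hv, h⟩ := hx n
    exact ⟨v, hv.1, hv.2, h.symm⟩
  have hP : ∀ n, Pre (A ++ U n) x := by
    intro n
    obtain ⟨v, h1, h2, h3⟩ := hv n
    rw [h3]
    exact (hPre _ v (hD n) (by linarith) (by linarith)).1
  refine ⟨x, ?_, fun n => ⟨hP n, hv n⟩⟩
  unfold B2s
  rw [Set.mem_iUnion]
  refine ⟨A.length, ?_, ?_, ?_, ?_, ?_⟩
  · refine hIrr x fun N => ?_
    obtain ⟨n, hn⟩ := hlen N
    obtain ⟨v, h1, h2, h3⟩ := hv n
    refine ⟨A ++ U n, v, hD n, ?_, by linarith, by linarith, h3⟩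
    rw [List.length_append]; omega
  · obtain ⟨v, h1, h2, h3⟩ := hv 0
    rw [h3]
    exact (hPre _ v (hD 0) (by linarith) (by linarith)).2.1
  · obtain ⟨n, hn⟩ := hlen 1
    obtain ⟨v, h1, h2, h3⟩ := hv n
    rw [h3]
    refine (hPre _ v (hD n) (by linarith) (by linarith)).2.2 ?_
    intro h
    have := congrArg List.length h
    rw [List.length_append, List.length_nil] at this
    omega
  · intro k hk
    have h := hP 0 k (by rw [List.length_append]; omega)
    rw [h, List.getD_append _ _ _ _ hk, List.getD_eq_getElem _ _ hk]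
    exact hA3 _ (List.getElem_mem hk)
  · intro k hk
    obtain ⟨n, hn⟩ := hlen (k - A.length + 1)
    have hk' : k - A.length < (U n).length := by omega
    have h := hP n k (by rw [List.length_append]; omega)
    rw [h, List.getD_append_right _ _ _ _ hk, List.getD_eq_getElem _ _ hk']
    rcases hU n _ (List.getElem_mem hk') with h1 | h1 <;> omega

end Pool.Agent.Helper80.TS
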