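import Pool.Agent.Helper80.TS.St

/-! # Module Low (MP_ae7841_nt) -/

set_option autoImplicit false

namespace Pool.Agent.Helper80.TS

theorem low_one (B : LB) (I : Iv) (w : List ℕ) (U : ℝ) (tl k : ℕ) (hk : k ≤ 40)
    (h : LBok B I w U) :
    1048576 * (40 * ((I.ref w).a - I.a) + (k : ℝ) * (I.ref w).L) ≤
      (16 * (tl : ℝ) - ((lowP B tl k : ℝ) - (lowN B k : ℝ))) * I.L := by
  have hk' : ((40 - k : ℕ) : ℝ) = 40 - (k : ℝ) := by
    rw [Nat.cast_sub hk]; norm_num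
  have hk0 : (0 : ℝ) ≤ k := Nat.cast_nonneg k
  have hk1 : (0 : ℝ) ≤ 40 - (k : ℝ) := by
    have : (k : ℝ) ≤ 40 := by exact_mod_cast hk
    linarith
  have hI := h.IL
  cases ho : I.o with
  | false =>
    have hB : B.o = false := by rw [h.o, ho]
    have e1 : lowP B tl k = 16 * tl := by
      unfold lowP; rw [hB]; rfl
    have e2 : lowN B k = (40 - k) * B.W.ah + k * B.W.bh := by
      unfold lowN; rw [hB]; rfl
    have e3 : (I.ref w).a = I.a + I.L * pos I.r (lo w) := by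
      simp [Iv.ref, ho]
    have e4 : (I.ref w).L = I.L * (pos I.r (hi w) - pos I.r (lo w)) := rfl
    rw [e1, e2, e3, e4]
    push_cast
    rw [hk']
    have f1 := mul_le_mul_of_nonneg_left h.ah hk1
    have f2 := mul_le_mul_of_nonneg_left h.bh hk0
    have f3 : (0 : ℝ) ≤ (((40 - (k : ℝ)) * (B.W.ah : ℝ) + (k : ℝ) * (B.W.bh : ℝ)) -
        ((40 - (k : ℝ)) * (1048576 * pos I.r (lo w)) + (k : ℝ) * (1048576 * pos I.r (hi w)))) *
          I.L := by
      apply mul_nonneg _ hI.le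
      linarith
    nlinarith [f3]
  | true =>
    have hB : B.o = true := by rw [h.o, ho]
    have e1 : lowP B tl k = 16 * tl + ((40 - k) * B.W.bl + k * B.W.al) := by
      unfold lowP; rw [hB]; rfl
    have e2 : lowN B k = 41943040 := by
      unfold lowN; rw [hB]; rfl
    have e3 : (I.ref w).a = I.a + I.L * (1 - pos I.r (hi w)) := by
      simp [Iv.ref, ho]
    have e4 : (I.ref w).L = I.L * (pos I.r (hi w) - pos I.r (lo w)) := rfl
    rw [e1, e2, e3, e4]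
    push_cast
    rw [hk']
    have f1 := mul_le_mul_of_nonneg_left h.bl hk1
    have f2 := mul_le_mul_of_nonneg_left h.al hk0
    have f3 : (0 : ℝ) ≤ (((40 - (k : ℝ)) * (1048576 * pos I.r (hi w)) +
        (k : ℝ) * (1048576 * pos I.r (lo w))) -
        ((40 - (k : ℝ)) * (B.W.bl : ℝ) + (k : ℝ) * (B.W.al : ℝ))) *
          I.L := by
      apply mul_nonneg _ hI.le
      linarith
    nlinarith [f3]

/-- one term of the test -/
theorem tst_one (P N lo' hi' : ℕ) (x U : ℝ) (h1 : (lo' : ℝ) * U ≤ 1048576 * x)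
    (h2 : 1048576 * x ≤ (hi' : ℝ) * U) :
    (((P - N : ℕ) * lo' : ℕ) - ((N - P : ℕ) * hi' : ℕ) : ℝ) * U ≤
      1048576 * (((P : ℝ) - (N : ℝ)) * x) := by
  rcases le_total P N with h | h
  · have e : P - N = 0 := Nat.sub_eq_zero_of_le h
    rw [e]
    push_cast [Nat.cast_sub h]
    have f : (0 : ℝ) ≤ (N : ℝ) - P := by
      have : (P : ℝ) ≤ N := by exact_mod_cast h
      linarith
    have := mul_le_mul_of_nonneg_left h2 f
    nlinarith [this]
  · have e : N - P = 0 := Nat.sub_eq_zero_of_le h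
    rw [e]
    push_cast [Nat.cast_sub h]
    have f : (0 : ℝ) ≤ (P : ℝ) - N := by
      have : (N : ℝ) ≤ P := by exact_mod_cast h
      linarith
    have := mul_le_mul_of_nonneg_left h1 f
    nlinarith [this]

theorem tst_pos (P0 N0 P1 N1 P2 N2 : ℕ) (L0 L1 L2 : Rg) (x y z U : ℝ) (hU : 0 < U)
    (ht : tst P0 N0 P1 N1 P2 N2 L0 L1 L2 = true)
    (x1 : (L0.lo : ℝ) * U ≤ 1048576 * x) (x2 : 1048576 * x ≤ (L0.hi : ℝ) * U)
    (y1 : (L1.lo : ℝ) * U ≤ 1048576 * y) (y2 : 1048576 * y ≤ (L1.hi : ℝ) * U)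
    (z1 : (L2.lo : ℝ) * U ≤ 1048576 * z) (z2 : 1048576 * z ≤ (L2.hi : ℝ) * U) :
    0 < ((P0 : ℝ) - N0) * x + ((P1 : ℝ) - N1) * y + ((P2 : ℝ) - N2) * z := by
  have h : (N0 - P0) * L0.hi + ((N1 - P1) * L1.hi + (N2 - P2) * L2.hi) + 1 ≤
      (P0 - N0) * L0.lo + ((P1 - N1) * L1.lo + (P2 - N2) * L2.lo) := by
    unfold tst at ht
    exact Nat.le_of_ble_eq_true ht
  have h' : (((N0 - P0) * L0.hi : ℕ) : ℝ) + ((((N1 - P1) * L1.hi : ℕ) : ℝ) +
      (((N2 - P2) * L2.hi : ℕ) : ℝ)) + 1 ≤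
      (((P0 - N0) * L0.lo : ℕ) : ℝ) + ((((P1 - N1) * L1.lo : ℕ) : ℝ) +
      (((P2 - N2) * L2.lo : ℕ) : ℝ)) := by
    exact_mod_cast h
  have g0 := tst_one P0 N0 L0.lo L0.hi x U x1 x2
  have g1 := tst_one P1 N1 L1.lo L1.hi y U y1 y2
  have g2 := tst_one P2 N2 L2.lo L2.hi z U z1 z2
  have h3 := mul_le_mul_of_nonneg_right h' hU.le
  nlinarith [h3, g0, g1, g2]

theorem hLow : StLow := by
  intro A B C I J K u v w U S tl k hU hA hB hC hk hS ht
  have g0 := low_one A I u U tl k hk hA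
  have g1 := low_one B J v U tl k hk hB
  have g2 := low_one C K w U tl k hk hC
  have gt := tst_pos _ _ _ _ _ _ _ _ _ I.L J.L K.L U hU ht hA.L1 hA.L2 hB.L1 hB.L2 hC.L1 hC.L2
  nlinarith [g0, g1, g2, gt, hS]

end Pool.Agent.Helper80.TS
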