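import Pool.Agent.Helper80.TS.St

/-!
# Module Neg (helper95): reflection
-/

set_option autoImplicit false

namespace Pool.Agent.Helper80.TS

private theorem neg_ref (I : Iv) (w : List ℕ) : I.neg.ref w = (I.ref w).neg := by
  obtain ⟨a, L, o, r⟩ := I
  cases o
  · simp only [Iv.neg, Iv.ref, Iv.mk.injEq]
    refine ⟨?_, trivial, ?_, trivial⟩
    · simp
      ring
    · simp
  · simp only [Iv.neg, Iv.ref, Iv.mk.injEq]
    refine ⟨?_, trivial, ?_, trivial⟩
    · simp
      ring
    · simp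

private theorem tau_neg (b a c : Iv) (S : ℝ) : tau b.neg a.neg c.neg (-S) = tau b a c S := by
  obtain ⟨ba, bL, bo, br⟩ := b
  cases bo
  · simp [tau, Iv.neg]
    ring
  · simp [tau, Iv.neg]
    ring

private theorem cellAt_neg {D : Dat} {i j k : ℕ} {b a c : Iv} {S : ℝ} :
    CellAt D i j k b.neg a.neg c.neg (-S) ↔ CellAt D i j k b a c S := by
  constructor
  · intro h
    have t1 := h.t1
    have t2 := h.t2
    rw [tau_neg] at t1 t2
    exact ⟨h.bL, h.aL, h.cL, h.bi, h.bj, h.bk, h.x1, h.x2, h.y1, h.y2, t1, t2⟩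
  · intro h
    refine ⟨h.bL, h.aL, h.cL, h.bi, h.bj, h.bk, h.x1, h.x2, h.y1, h.y2, ?_, ?_⟩
    · rw [tau_neg]
      exact h.t1
    · rw [tau_neg]
      exact h.t2

private theorem cell_neg {D : Dat} {lev : ℕ} {b a c : Iv} {S : ℝ} :
    Cell D lev b.neg a.neg c.neg (-S) ↔ Cell D lev b a c S := by
  unfold Cell
  have h1 : (xor b.neg.o a.neg.o) = (xor b.o a.o) := by simp [Iv.neg]
  have h2 : (xor b.neg.o c.neg.o) = (xor b.o c.o) := by simp [Iv.neg]
  simp only [cellAt_neg, h1, h2]

private theorem im_neg {D : Dat} {lev : ℕ} {b a c : Iv} {S : ℝ} :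
    Im D lev b.neg a.neg c.neg (-S) ↔ Im D lev b a c S := by
  unfold Im
  simp only [cell_neg]

theorem hNeg (hAll : StAll) : StNeg := by
  intro A B C S rA rB rC hcell
  cases ho : A.o with
  | false => exact hAll A B C S ho rA rB rC hcell
  | true =>
    have h := hAll A.neg B.neg C.neg (-S) (by simp [Iv.neg, ho]) rA rB rC (cell_neg.2 hcell)
    unfold Out at h ⊢
    simp only [neg_ref, cell_neg, im_neg] at h
    exact h

end Pool.Agent.Helper80.TS
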