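import Pool.Agent.Helper80.TS.St

/-!
# MODULE Pre: the digits of `cf w v`
-/

set_option autoImplicit false

namespace Pool.Agent.Helper80.TS

theorem cf_mem_Pre (w : List ℕ) (v : ℝ) (hw : Dg w) (h0 : 0 < v) (h1 : v < 1) :
    0 < cf w v ∧ cf w v < 1 := by
  induction w with
  | nil => exact ⟨h0, h1⟩
  | cons a w ih =>
    have ha : (1 : ℝ) ≤ a := by
      have : 1 ≤ a := hw a (by simp)
      exact_mod_cast this
    obtain ⟨h2, h3⟩ := ih (fun b hb => hw b (by simp [hb]))
    have h4 : cf (a :: w) v = 1 / ((a : ℝ) + cf w v) := rfl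
    rw [h4]
    refine ⟨by positivity, ?_⟩
    rw [div_lt_one (by positivity)]
    linarith

theorem pq_zero_Pre (a : ℕ) (t : ℝ) (h0 : 0 < t) (h1 : t < 1) :
    pq (1 / ((a : ℝ) + t)) 0 = a := by
  have h2 : gs (1 / ((a : ℝ) + t)) 0 = 1 / ((a : ℝ) + t) := rfl
  unfold pq
  rw [h2, one_div_one_div, Nat.floor_eq_iff (by positivity)]
  constructor <;> linarith

theorem gs_succ_Pre (a : ℕ) (t : ℝ) (h0 : 0 < t) (h1 : t < 1) (k : ℕ) :
    gs (1 / ((a : ℝ) + t)) (k + 1) = gs t k := by
  unfold gs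
  rw [Function.iterate_succ_apply]
  congr 1
  rw [one_div_one_div]
  have h2 : Int.fract ((a : ℝ) + t) = Int.fract t := Int.fract_natCast_add a t
  rw [h2, Int.fract_eq_self]
  exact ⟨h0.le, h1⟩

theorem hPre : StPre := by
  intro w v hw h0 h1
  refine ⟨?_, (cf_mem_Pre w v hw h0 h1).1, fun _ => (cf_mem_Pre w v hw h0 h1).2⟩
  induction w with
  | nil =>
    intro k hk
    simp at hk
  | cons a w ih =>
    have hw' : Dg w := fun b hb => hw b (by simp [hb])
    obtain ⟨h2, h3⟩ := cf_mem_Pre w v hw' h0 h1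
    have h4 : cf (a :: w) v = 1 / ((a : ℝ) + cf w v) := rfl
    intro k hk
    rw [h4]
    cases k with
    | zero => simpa using pq_zero_Pre a _ h2 h3
    | succ k =>
      have h5 : pq (1 / ((a : ℝ) + cf w v)) (k + 1) = pq (cf w v) k := by
        unfold pq
        rw [gs_succ_Pre a _ h2 h3]
      rw [h5, List.getD_cons_succ]
      exact ih hw' k (by simpa using hk)

end Pool.Agent.Helper80.TS
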