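import Pool.Agent.Helper80.TS.St

/-!
# Module Pth: soundness of the path test (MP_ae7841_nt)
-/

set_option autoImplicit false

namespace Pool.Agent.Helper80.TS

theorem an_Pth {a b : Bool} (h : an a b = true) : a = true ∧ b = true := by
  cases a
  · exact absurd h (by simp [an])
  · exact ⟨rfl, h⟩

theorem xo_Pth (a b : Bool) : xo a b = xor a b := by
  cases a <;> cases b <;> rfl

theorem prm_Pth (p : ℕ) (f : LB → LB → LB → Bool) (A B C : LB) (h : prm p f A B C = true) :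
    f A B C = true ∨ f A C B = true ∨ f B A C = true ∨ f B C A = true ∨ f C A B = true ∨
      f C B A = true := by
  rcases p with _ | _ | _ | _ | _ | p
  · exact Or.inl h
  · exact Or.inr (Or.inl h)
  · exact Or.inr (Or.inr (Or.inl h))
  · exact Or.inr (Or.inr (Or.inr (Or.inl h)))
  · exact Or.inr (Or.inr (Or.inr (Or.inr (Or.inl h))))
  · exact Or.inr (Or.inr (Or.inr (Or.inr (Or.inr h))))

theorem img_k_Pth {D : Dat} {lev i ni j nj k0 nk : ℕ} {b a c : LB}
    (h : img D lev i ni j nj k0 nk b a c = true) : k0 + nk ≤ 40 := by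
  unfold img at h
  have h1 := (an_Pth (an_Pth (an_Pth (an_Pth (an_Pth h).2).2).2).2).1
  exact Nat.le_of_ble_eq_true h1

theorem rs_Pth {r : ℝ} (h : RS r) : 0 ≤ r ∧ r ≤ 1 := by
  rcases h with ⟨h1, h2⟩ | ⟨h1, h2⟩
  · constructor <;> linarith
  · constructor <;> linarith

theorem lb_Pth (hWb : StWb) (hFac : StFac) (hWord : StWord) {D : Dat} (hD : DOK D) (c : ℕ)
    (hc : c < 128) (R X : Rg) (I : Iv) (U : ℝ) (o q : Bool) (ho : o = I.o)
    (hq : q = xor I.o (pr D c)) (hI : 0 < I.L) (hR : R.In (10000 * I.r)) (hr : RS I.r)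
    (h1 : (X.lo : ℝ) * U ≤ 1048576 * I.L) (h2 : 1048576 * I.L ≤ (X.hi : ℝ) * U) :
    LBok (LB.mk o q (wb (en D c) R) X) I (dig c) U := by
  have hw := hWb (en D c) (dig c) R I.r (hD.tab c hc) (hWord.1 c) hR
  have hf := hFac (dig c) I.r (hWord.1 c) (rs_Pth hr).1 (rs_Pth hr).2
  obtain ⟨w1, w2, w3, w4, w5, w6⟩ := hw
  exact ⟨ho, by rw [hq, hD.par c hc], hI, w1, w2, w3, w4, w5, w6, h1, h2, hf.1⟩

theorem land127_Pth (s : ℕ) : Nat.land s 127 < 128 := by
  have : Nat.land s 127 ≤ 127 := Nat.and_le_right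
  omega

theorem hPth (hWb : StWb) (hLow : StLow) (hHigh : StHigh) (hImg : StImg) (hFac : StFac)
    (hWord : StWord) : StPth := by
  intro D hD o1 o2 X J Y T R0 R1 R2 lev s j A B C S hA hB hC hbox h
  have hAL := hbox.aL
  have c0 : Nat.land s 127 < 128 := land127_Pth s
  have c1 : fld s 8 127 < 128 := land127_Pth _
  have c2 : fld s 16 127 < 128 := land127_Pth _
  have b0 : LBok (LB.mk false (pr D (Nat.land s 127)) (wb (en D (Nat.land s 127)) R0)
      (Rg.mk 1048576 1048576)) A (dig (Nat.land s 127)) A.L :=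
    lb_Pth hWb hFac hWord hD _ c0 R0 _ A A.L _ _ hA.symm (by rw [hA]; simp) hAL hbox.r0 hbox.s0
      (by norm_num) (by norm_num)
  have b1 : LBok (LB.mk o1 (xo o1 (pr D (fld s 8 127))) (wb (en D (fld s 8 127)) R1) X) B
      (dig (fld s 8 127)) A.L :=
    lb_Pth hWb hFac hWord hD _ c1 R1 _ B A.L _ _ hB.symm (by rw [hB, xo_Pth]) hbox.bL
      hbox.r1 hbox.s1 hbox.x1 hbox.x2
  have b2 : LBok (LB.mk o2 (xo o2 (pr D (fld s 16 127))) (wb (en D (fld s 16 127)) R2) Y) C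
      (dig (fld s 16 127)) A.L :=
    lb_Pth hWb hFac hWord hD _ c2 R2 _ C A.L _ _ hC.symm (by rw [hC, xo_Pth]) hbox.cL
      hbox.r2 hbox.s2 hbox.y1 hbox.y2
  unfold pths patl at h
  simp only at h
  obtain ⟨hl, h⟩ := an_Pth h
  obtain ⟨hh, h⟩ := an_Pth h
  set LA : LB := LB.mk false (pr D (Nat.land s 127)) (wb (en D (Nat.land s 127)) R0)
      (Rg.mk 1048576 1048576) with hLA
  set LBb : LB := LB.mk o1 (xo o1 (pr D (fld s 8 127))) (wb (en D (fld s 8 127)) R1) X with hLB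
  set LC : LB := LB.mk o2 (xo o2 (pr D (fld s 16 127))) (wb (en D (fld s 16 127)) R2) Y with hLC
  have hp := prm_Pth _ _ _ _ _ h
  set k0 : ℕ := fld s 46 63 with hk0
  set nk : ℕ := fld s 52 63 with hnk
  have hk : k0 + nk ≤ 40 := by
    rcases hp with h | h | h | h | h | h <;> exact img_k_Pth h
  have lo := hLow LA LBb LC A B C _ _ _ A.L S T.lo k0 hAL b0 b1 b2 (by omega) hbox.t1 hl
  have hi := hHigh LA LBb LC A B C _ _ _ A.L S T.hi (k0 + nk) hAL b0 b1 b2 hk hbox.t2.le hh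
  rcases hp with h | h | h | h | h | h
  · exact Or.inl (hImg D lev _ _ _ _ k0 nk LA LBb LC A B C _ _ _ A.L S hAL b0 b1 b2 lo hi h)
  · refine Or.inr (Or.inl (hImg D lev _ _ _ _ k0 nk LA LC LBb A C B _ _ _ A.L S hAL b0 b2 b1
      ?_ ?_ h))
    · convert! lo using 2 <;> ring
    · convert! hi using 2 <;> ring
  · refine Or.inr (Or.inr (Or.inl (hImg D lev _ _ _ _ k0 nk LBb LA LC B A C _ _ _ A.L S hAL
      b1 b0 b2 ?_ ?_ h)))
    · convert! lo using 2 <;> ring
    · convert! hi using 2 <;> ring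
  · refine Or.inr (Or.inr (Or.inr (Or.inl (hImg D lev _ _ _ _ k0 nk LBb LC LA B C A _ _ _ A.L S
      hAL b1 b2 b0 ?_ ?_ h))))
    · convert! lo using 2 <;> ring
    · convert! hi using 2 <;> ring
  · refine Or.inr (Or.inr (Or.inr (Or.inr (Or.inl (hImg D lev _ _ _ _ k0 nk LC LA LBb C A B
      _ _ _ A.L S hAL b2 b0 b1 ?_ ?_ h)))))
    · convert! lo using 2 <;> ring
    · convert! hi using 2 <;> ring
  · refine Or.inr (Or.inr (Or.inr (Or.inr (Or.inr (hImg D lev _ _ _ _ k0 nk LC LBb LA C B A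
      _ _ _ A.L S hAL b2 b1 b0 ?_ ?_ h)))))
    · convert! lo using 2 <;> ring
    · convert! hi using 2 <;> ring

end Pool.Agent.Helper80.TS
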