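import Pool.Agent.Helper80.TS.St

/-!
# The set of ratios is invariant (MP_ae7841_nt, module RR)
-/

set_option autoImplicit false

namespace Pool.Agent.Helper80.TS

theorem RR_step (e : ℕ) (he : e = 1 ∨ e = 2) (r : ℝ) (h : RS r) : RS (1 / ((e : ℝ) + r)) := by
  rcases he with rfl | rfl
  · rcases h with ⟨h1, h2⟩ | ⟨h1, h2⟩
    · right
      have h3 : (0 : ℝ) < ((1 : ℕ) : ℝ) + r := by push_cast; linarith
      rw [le_div_iff₀ h3, div_le_iff₀ h3]
      push_cast
      constructor <;> linarith
    · right
      have h3 : (0 : ℝ) < ((1 : ℕ) : ℝ) + r := by push_cast; linarith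
      rw [le_div_iff₀ h3, div_le_iff₀ h3]
      push_cast
      constructor <;> linarith
  · rcases h with ⟨h1, h2⟩ | ⟨h1, h2⟩
    · left
      have h3 : (0 : ℝ) < ((2 : ℕ) : ℝ) + r := by push_cast; linarith
      rw [le_div_iff₀ h3, div_le_iff₀ h3]
      push_cast
      constructor <;> linarith
    · left
      have h3 : (0 : ℝ) < ((2 : ℕ) : ℝ) + r := by push_cast; linarith
      rw [le_div_iff₀ h3, div_le_iff₀ h3]
      push_cast
      constructor <;> linarith

theorem hRR : StRR := by
  intro w
  induction w with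
  | nil => exact fun r _ h => h
  | cons e w ih =>
    intro r hw h
    exact ih _ (fun a ha => hw a (List.mem_cons_of_mem _ ha))
      (RR_step e (hw e List.mem_cons_self) r h)

end Pool.Agent.Helper80.TS
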