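import Pool.Agent.Helper80.TS.St

/-! # MODULE Rat (MP_ae7841_nt): soundness of the ratio test -/

set_option autoImplicit false

namespace Pool.Agent.Helper80.TS

theorem rat_an {a b : Bool} (h : an a b = true) : a = true ∧ b = true := by
  revert h
  cases a <;> cases b <;> decide

theorem rat_aux1 {f x g y U fl lx fh ly G : ℝ} (hU : 0 < U) (hg : 0 ≤ g) (hx : 0 ≤ x)
    (hfl : 0 ≤ fl) (hly : 0 ≤ ly) (hG : 0 ≤ G)
    (h1 : fl ≤ 1048576 * f) (h2 : lx * U ≤ 1048576 * x) (h3 : 1048576 * g ≤ fh)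
    (h4 : 1048576 * y ≤ ly * U) (h5 : G * fh * ly ≤ 1048576 * fl * lx) :
    G * (y * g) ≤ 1048576 * (x * f) := by
  have e1 : (1048576 * y) * (1048576 * g) ≤ (ly * U) * fh :=
    mul_le_mul h4 h3 (by positivity) (by positivity)
  have e2 : (lx * U) * fl ≤ (1048576 * x) * (1048576 * f) :=
    mul_le_mul h2 h1 hfl (by positivity)
  have e3 := mul_le_mul_of_nonneg_left e1 hG
  have e4 := mul_le_mul_of_nonneg_left h5 hU.le
  nlinarith [e2, e3, e4]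

theorem rat_aux2 {f x g y U fh hx fl ly G : ℝ} (hU : 0 < U) (hf : 0 ≤ f) (hhx : 0 ≤ hx)
    (hfl : 0 ≤ fl) (hy : 0 ≤ y) (hG : 0 ≤ G)
    (h1 : 1048576 * f ≤ fh) (h2 : 1048576 * x ≤ hx * U) (h3 : fl ≤ 1048576 * g)
    (h4 : ly * U ≤ 1048576 * y) (h5 : fh * hx * 1048576 + 1 ≤ G * fl * ly) :
    1048576 * (x * f) < G * (y * g) := by
  have e1 : (1048576 * x) * (1048576 * f) ≤ (hx * U) * fh :=
    mul_le_mul h2 h1 (by positivity) (by positivity)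
  have e2 : (ly * U) * fl ≤ (1048576 * y) * (1048576 * g) :=
    mul_le_mul h4 h3 hfl (by positivity)
  have e3 := mul_le_mul_of_nonneg_left e2 hG
  have e4 := mul_le_mul_of_nonneg_left h5 hU.le
  nlinarith [e1, e3, e4]

theorem hRat : StRat := by
  intro a b I J u v U G0 G1 hU ha hb h
  obtain ⟨h1, h2⟩ := rat_an h
  have h1' : G0 * b.W.fh * b.L.hi ≤ 1048576 * a.W.fl * a.L.lo := Nat.le_of_ble_eq_true h1
  have h2' : a.W.fh * a.L.hi * 1048576 + 1 ≤ G1 * b.W.fl * b.L.lo := Nat.le_of_ble_eq_true h2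
  have h1r : (G0 : ℝ) * (b.W.fh : ℝ) * (b.L.hi : ℝ) ≤ 1048576 * (a.W.fl : ℝ) * (a.L.lo : ℝ) := by
    exact_mod_cast h1'
  have h2r : (a.W.fh : ℝ) * (a.L.hi : ℝ) * 1048576 + 1 ≤ (G1 : ℝ) * (b.W.fl : ℝ) * (b.L.lo : ℝ) := by
    exact_mod_cast h2'
  constructor
  · show (G0 : ℝ) * (J.L * (pos J.r (hi v) - pos J.r (lo v))) ≤
      1048576 * (I.L * (pos I.r (hi u) - pos I.r (lo u)))
    exact rat_aux1 hU hb.fp.le ha.IL.le (Nat.cast_nonneg _) (Nat.cast_nonneg _) (Nat.cast_nonneg _)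
      ha.fl ha.L1 hb.fh hb.L2 h1r
  · show 1048576 * (I.L * (pos I.r (hi u) - pos I.r (lo u))) <
      (G1 : ℝ) * (J.L * (pos J.r (hi v) - pos J.r (lo v)))
    exact rat_aux2 hU ha.fp.le (Nat.cast_nonneg _) (Nat.cast_nonneg _) hb.IL.le (Nat.cast_nonneg _)
      ha.fh ha.L2 hb.fl hb.L1 h2r

end Pool.Agent.Helper80.TS
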