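import Pool.Agent.Helper80.TS.St

/-! Traversal of a whole module (MP_ae7841_nt). -/

set_option autoImplicit false

namespace Pool.Agent.Helper80.TS

theorem an_true {a b : Bool} (h : an a b = true) : a = true ∧ b = true := by
  cases a <;> cases b <;> simp_all [an]

theorem run_ok (hLeaf : StLeaf) (hSpl : StSpl) (D : Dat) (hD : DOK D) (o1 o2 : Bool) (i : ℕ) :
    ∀ (n s : ℕ) (X J Y T R0 R1 R2 : Rg) (k : ℕ → Bool),
      run D o1 o2 i n s X J Y T R0 R1 R2 k = true →
      BoxOK D o1 o2 i X J Y T R0 R1 R2 ∧ ∃ s', k s' = true := by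
  intro n
  induction n with
  | zero =>
    intro s X J Y T R0 R1 R2 k h
    exact absurd h (by simp [run])
  | succ n ih =>
    intro s X J Y T R0 R1 R2 k h
    have h' : (sel (Nat.ble (Nat.land s 15) 3) (leaf D o1 o2 i (Nat.land s 15) s)
      (spl D (Nat.land s 15) (run D o1 o2 i n) (Nat.shiftRight s 4))) X J Y T R0 R1 R2 k = true := h
    rcases hb : Nat.ble (Nat.land s 15) 3 with _ | _
    · rw [hb] at h'
      exact hSpl D hD ℕ o1 o2 i (Nat.land s 15) (run D o1 o2 i n) ih _ X J Y T R0 R1 R2 k h'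
    · rw [hb] at h'
      exact hLeaf D hD o1 o2 i (Nat.land s 15) s X J Y T R0 R1 R2 k h'

theorem top_ok (hLeaf : StLeaf) (hSpl : StSpl) (D : Dat) (hD : DOK D) (o1 o2 : Bool) (i : ℕ) :
    ∀ (n : ℕ) (z : SC) (X J Y T R0 R1 R2 : Rg) (k : SC → Bool),
      top D o1 o2 i n z X J Y T R0 R1 R2 k = true →
      BoxOK D o1 o2 i X J Y T R0 R1 R2 ∧ ∃ s', k s' = true := by
  intro n
  induction n with
  | zero =>
    intro z X J Y T R0 R1 R2 k h
    exact absurd h (by simp [top])
  | succ n ih =>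
    intro z X J Y T R0 R1 R2 k h
    have h' : (sel (Nat.beq (Nat.land z.s 15) 15)
      (fun X J Y T R0 R1 R2 k => List.rec (motive := fun _ => Bool) false
          (fun hd tl _ => an (run D o1 o2 i 60 hd X J Y T R0 R1 R2 (fun _ => true))
            (k (SC.mk (Nat.shiftRight z.s 4) tl))) z.c : TF SC)
      (spl D (Nat.land z.s 15) (top D o1 o2 i n) (SC.mk (Nat.shiftRight z.s 4) z.c)))
        X J Y T R0 R1 R2 k = true := h
    rcases hb : Nat.beq (Nat.land z.s 15) 15 with _ | _
    · rw [hb] at h'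
      exact hSpl D hD SC o1 o2 i (Nat.land z.s 15) (top D o1 o2 i n) ih _ X J Y T R0 R1 R2 k h'
    · rw [hb] at h'
      obtain ⟨zs, zc⟩ := z
      cases zc with
      | nil => exact absurd h' (by simp [sel])
      | cons hd tl =>
        have h2 : an (run D o1 o2 i 60 hd X J Y T R0 R1 R2 (fun _ => true))
            (k (SC.mk (Nat.shiftRight zs 4) tl)) = true := h'
        obtain ⟨h3, h4⟩ := an_true h2
        exact ⟨(run_ok hLeaf hSpl D hD o1 o2 i 60 hd X J Y T R0 R1 R2 _ h3).1, _, h4⟩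

theorem hRun (hLeaf : StLeaf) (hSpl : StSpl) : StRun := by
  intro D hD o1 o2 i s c hm A B C S j k hAo hBo hCo hA hB hC hcell htest
  have hbox := (top_ok hLeaf hSpl D hD o1 o2 i _ _ _ _ _ _ _ _ _ _ hm).1
  refine hbox A B C S j k hAo hBo hCo ?_ hcell htest
  have htau : tau A B C S = S - (A.a + B.a + C.a) := by
    unfold tau
    rw [hAo]
    simp
  have hAL := hcell.bL
  have hBL := hcell.aL
  have hCL := hcell.cL
  have hsum : 0 < A.L + B.L + C.L := by linarith
  have hRS : ∀ r : ℝ, RS r → (⟨3660, 7321⟩ : Rg).In (10000 * r) := by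
    intro r hr
    unfold Rg.In
    simp only
    rcases hr with ⟨h1, h2⟩ | ⟨h1, h2⟩
    · constructor
      · push_cast; linarith
      · push_cast; linarith
    · constructor
      · push_cast; linarith
      · push_cast; linarith
  refine
    { aL := hAL
      bL := hBL
      cL := hCL
      x1 := hcell.x1
      x2 := hcell.x2.le
      y1 := ?_
      y2 := ?_
      j1 := Nat.zero_le j
      j2 := hcell.bj
      j3 := le_rfl
      t1 := ?_
      t2 := ?_
      t3 := le_rfl
      r0 := hRS _ hA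
      r1 := hRS _ hB
      r2 := hRS _ hC
      s0 := hA
      s1 := hB
      s2 := hC }
  · have h1 : (gg D 0 : ℝ) ≤ (gg D j : ℝ) := by
      exact_mod_cast hD.grid 0 j (Nat.zero_le j) hcell.bj.le
    have h2 := hcell.y1
    have h3 : (gg D 0 : ℝ) * A.L ≤ (gg D j : ℝ) * A.L := mul_le_mul_of_nonneg_right h1 hAL.le
    exact le_trans h3 h2
  · have h1 : (gg D (j + 1) : ℝ) ≤ (gg D 38 : ℝ) := by
      exact_mod_cast hD.grid (j + 1) 38 hcell.bj le_rfl
    have h2 := hcell.y2
    have h3 : (gg D (j + 1) : ℝ) * A.L ≤ (gg D 38 : ℝ) * A.L := mul_le_mul_of_nonneg_right h1 hAL.le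
    exact le_trans h2.le h3
  · have h2 := hcell.t1
    rw [htau] at h2
    have h3 : (0 : ℝ) ≤ (k : ℝ) * (A.L + B.L + C.L) := mul_nonneg (Nat.cast_nonneg k) hsum.le
    show ((0 : ℕ) : ℝ) * _ ≤ _
    push_cast
    linarith
  · have h2 := hcell.t2
    rw [htau] at h2
    have hk : ((k : ℝ) + 1) ≤ 40 := by exact_mod_cast hcell.bk
    have h3 : ((k : ℝ) + 1) * (A.L + B.L + C.L) ≤ 40 * (A.L + B.L + C.L) :=
      mul_le_mul_of_nonneg_right hk hsum.le
    show _ < ((2621440 : ℕ) : ℝ) * _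
    push_cast
    linarith

end Pool.Agent.Helper80.TS
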