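import Pool.Agent.Helper80.TS.St

/-!
# MODULE Seq: growing chains of configurations (MP_ae7841_nt)
-/

set_option autoImplicit false

namespace Pool.Agent.Helper80.TS

theorem Seq_chain (U : ℕ → List ℕ) (h : ∀ n, U n <+: U (n + 1)) {m n : ℕ} (hmn : m ≤ n) :
    U m <+: U n := by
  induction hmn with
  | refl => exact List.prefix_rfl
  | step _ ih => exact ih.trans (h _)

theorem Seq_unb (A : List ℕ) (U : ℕ → List ℕ) (h : ∀ n, U n <+: U (n + 1))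
    (hpos : ∀ n, 0 < (iv (A ++ U n)).L)
    (hs : ∀ (ε : ℝ) (n₀ : ℕ), 0 < ε → ∃ n, n₀ ≤ n ∧ (iv (A ++ U n)).L < ε) (N : ℕ) :
    ∃ n, N ≤ (U n).length := by
  by_contra hcon
  push Not at hcon
  have hb : BddAbove (Set.range fun n => (U n).length) :=
    ⟨N, by rintro _ ⟨n, rfl⟩; exact (hcon n).le⟩
  obtain ⟨n₀, hn₀⟩ := Nat.sSup_mem (Set.range_nonempty _) hb
  obtain ⟨n, hn, hlt⟩ := hs _ n₀ (hpos n₀)
  have h1 : (U n).length ≤ (U n₀).length := by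
    have h3 := le_csSup hb (Set.mem_range_self n)
    rw [← hn₀] at h3
    exact h3
  have h2 : U n₀ = U n := (Seq_chain U h hn).eq_of_length_le h1
  rw [h2] at hlt
  exact lt_irrefl _ hlt

theorem Seq_len (hApp : StApp) (hFac : StFac) (hMat : StMat) (A U : List ℕ) (hA : Dg A)
    (hU : W12 U) : (iv (A ++ U)).L ≤ (iv A).L * (1 / 2) ^ U.length := by
  have hDU : Dg U := fun a ha => by
    rcases hU a ha with h | h <;> omega
  obtain ⟨_, h1, h2, _⟩ := hMat A hA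
  have h3 : (1 : ℝ) ≤ ((mat A).2.2.1 : ℝ) := by exact_mod_cast h1
  have h4 : ((mat A).2.2.2 : ℝ) ≤ ((mat A).2.2.1 : ℝ) := by exact_mod_cast h2
  have h5 : 0 ≤ (iv A).r := div_nonneg (Nat.cast_nonneg _) (Nat.cast_nonneg _)
  have h6 : (iv A).r ≤ 1 := div_le_one_of_le₀ h4 (Nat.cast_nonneg _)
  obtain ⟨_, h7⟩ := hFac U (iv A).r hU h5 h6
  rw [hApp A U hA hDU]
  exact mul_le_mul_of_nonneg_left h7 (abs_nonneg _)

theorem Seq_small {M ε : ℝ} (hM : 0 ≤ M) (hε : 0 < ε) (n₀ : ℕ) :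
    ∃ m : ℕ, n₀ ≤ m ∧ 30 * (M * (1 / 2) ^ m) < ε := by
  obtain ⟨k, hk⟩ := exists_pow_lt_of_lt_one (show (0 : ℝ) < ε / (30 * M + 1) by positivity)
    (show (1 / 2 : ℝ) < 1 by norm_num)
  refine ⟨max k n₀, le_max_right _ _, ?_⟩
  have h1 : (1 / 2 : ℝ) ^ max k n₀ ≤ (1 / 2) ^ k :=
    pow_le_pow_of_le_one (by norm_num) (by norm_num) (le_max_left _ _)
  have h2 : (1 / 2 : ℝ) ^ max k n₀ < ε / (30 * M + 1) := h1.trans_lt hk
  rw [lt_div_iff₀ (by positivity)] at h2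
  have h3 : 0 < (1 / 2 : ℝ) ^ max k n₀ := by positivity
  nlinarith

theorem hSeq (hApp : StApp) (hFac : StFac) (hMat : StMat) (hGeo : StGeo) : StSeq := by
  intro A B C U V W h12 hpre hlen hK
  have hA : Dg A := fun a ha => (hK 0).dA a (List.mem_append_left _ ha)
  have hB : Dg B := fun a ha => (hK 0).dB a (List.mem_append_left _ ha)
  have hC : Dg C := fun a ha => (hK 0).dC a (List.mem_append_left _ ha)
  have hU : ∀ n, 0 < (iv (A ++ U n)).L := fun n => (hGeo 21 _ _ _ (hK n)).1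
  have hV : ∀ n, 0 < (iv (B ++ V n)).L := fun n => (hGeo 21 _ _ _ (hK n)).2.1
  have hW : ∀ n, 0 < (iv (C ++ W n)).L := fun n => (hGeo 21 _ _ _ (hK n)).2.2.1
  have a0 : 0 ≤ (iv A).L := abs_nonneg _
  have b0 : 0 ≤ (iv B).L := abs_nonneg _
  have c0 : 0 ≤ (iv C).L := abs_nonneg _
  have key : ∀ m : ℕ, (iv (A ++ U (3 * m))).L + (iv (B ++ V (3 * m))).L + (iv (C ++ W (3 * m))).L ≤
      30 * (((iv A).L + (iv B).L + (iv C).L) * (1 / 2) ^ m) := by
    intro m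
    obtain ⟨_, _, _, g1, g2, g3, _⟩ := hGeo 21 _ _ _ (hK (3 * m))
    obtain ⟨w1, w2, w3⟩ := h12 (3 * m)
    have hl := hlen (3 * m)
    have hp : ∀ k : ℕ, m ≤ k → (1 / 2 : ℝ) ^ k ≤ (1 / 2) ^ m := fun k hk =>
      pow_le_pow_of_le_one (by norm_num) (by norm_num) hk
    have hm : (0 : ℝ) < (1 / 2) ^ m := by positivity
    have hcase : m ≤ (U (3 * m)).length ∨ m ≤ (V (3 * m)).length ∨ m ≤ (W (3 * m)).length := by
      omega
    rcases hcase with h | h | h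
    · have h1 := Seq_len hApp hFac hMat A (U (3 * m)) hA w1
      have h2 := mul_le_mul_of_nonneg_left (hp _ h) a0
      nlinarith [mul_nonneg b0 hm.le, mul_nonneg c0 hm.le]
    · have h1 := Seq_len hApp hFac hMat B (V (3 * m)) hB w2
      have h2 := mul_le_mul_of_nonneg_left (hp _ h) b0
      nlinarith [mul_nonneg a0 hm.le, mul_nonneg c0 hm.le]
    · have h1 := Seq_len hApp hFac hMat C (W (3 * m)) hC w3
      have h2 := mul_le_mul_of_nonneg_left (hp _ h) c0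
      nlinarith [mul_nonneg b0 hm.le, mul_nonneg a0 hm.le]
  have hs : ∀ (ε : ℝ) (n₀ : ℕ), 0 < ε → ∃ n, n₀ ≤ n ∧
      (iv (A ++ U n)).L + (iv (B ++ V n)).L + (iv (C ++ W n)).L < ε := by
    intro ε n₀ hε
    obtain ⟨m, hm, hlt⟩ := Seq_small (M := (iv A).L + (iv B).L + (iv C).L) (by positivity) hε n₀
    exact ⟨3 * m, by omega, (key m).trans_lt hlt⟩
  refine ⟨fun N => Seq_unb A U (fun n => (hpre n).1) hU (fun ε n₀ hε => ?_) N,
    fun N => Seq_unb B V (fun n => (hpre n).2.1) hV (fun ε n₀ hε => ?_) N,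
    fun N => Seq_unb C W (fun n => (hpre n).2.2) hW (fun ε n₀ hε => ?_) N, fun ε hε => ?_⟩
  · obtain ⟨n, h1, h2⟩ := hs ε n₀ hε
    exact ⟨n, h1, by linarith [hV n, hW n]⟩
  · obtain ⟨n, h1, h2⟩ := hs ε n₀ hε
    exact ⟨n, h1, by linarith [hU n, hW n]⟩
  · obtain ⟨n, h1, h2⟩ := hs ε n₀ hε
    exact ⟨n, h1, by linarith [hU n, hV n]⟩
  · obtain ⟨n, _, h2⟩ := hs ε 0 hε
    exact ⟨n, h2⟩

end Pool.Agent.Helper80.TS
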