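import Pool.Agent.Helper80.TS.St

/-! Ordered and unordered solutions (MP_ae7841_nt). -/

set_option autoImplicit false

namespace Pool.Agent.Helper80.TS

theorem hSort : StSort := by
  intro h
  have h1 : SU ⊆ (fun p : ℝ × ℝ × ℝ => (p.1, p.2.1, p.2.2)) '' SO ∪
      ((fun p : ℝ × ℝ × ℝ => (p.1, p.2.2, p.2.1)) '' SO ∪
      ((fun p : ℝ × ℝ × ℝ => (p.2.1, p.1, p.2.2)) '' SO ∪
      ((fun p : ℝ × ℝ × ℝ => (p.2.2, p.1, p.2.1)) '' SO ∪
      ((fun p : ℝ × ℝ × ℝ => (p.2.1, p.2.2, p.1)) '' SO ∪
      (fun p : ℝ × ℝ × ℝ => (p.2.2, p.2.1, p.1)) '' SO)))) := by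
    rintro ⟨x, y, z⟩ ⟨hx, hy, hz, hs⟩
    simp only at hx hy hz hs
    rcases le_total x y with hxy | hxy
    · rcases le_total y z with hyz | hyz
      · -- x ≤ y ≤ z
        left
        exact ⟨(x, y, z), ⟨hx, hy, hz, hs, hxy, hyz⟩, rfl⟩
      · rcases le_total x z with hxz | hxz
        · -- x ≤ z ≤ y
          right; left
          exact ⟨(x, z, y), ⟨hx, hz, hy, by simp only; linarith, hxz, hyz⟩, rfl⟩
        · -- z ≤ x ≤ y
          right; right; right; right; left
          exact ⟨(z, x, y), ⟨hz, hx, hy, by simp only; linarith, hxz, hxy⟩, rfl⟩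
    · rcases le_total x z with hxz | hxz
      · -- y ≤ x ≤ z
        right; right; left
        exact ⟨(y, x, z), ⟨hy, hx, hz, by simp only; linarith, hxy, hxz⟩, rfl⟩
      · rcases le_total y z with hyz | hyz
        · -- y ≤ z ≤ x
          right; right; right; left
          exact ⟨(y, z, x), ⟨hy, hz, hx, by simp only; linarith, hyz, hxz⟩, rfl⟩
        · -- z ≤ y ≤ x
          right; right; right; right; right
          exact ⟨(z, y, x), ⟨hz, hy, hx, by simp only; linarith, hyz, hxy⟩, rfl⟩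
  exact Set.Countable.mono h1 ((h.image _).union ((h.image _).union ((h.image _).union
    ((h.image _).union ((h.image _).union (h.image _))))))

end Pool.Agent.Helper80.TS
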