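import Pool.Agent.Helper80.TS.St

/-!
# Module Spl (helper95): splitting of boxes
-/

set_option autoImplicit false

namespace Pool.Agent.Helper80.TS

private def SOK (D : Dat) {γ : Type} (o1 o2 : Bool) (i : ℕ) (f : TF γ) : Prop :=
  ∀ (X J Y T R0 R1 R2 : Rg) (k : γ → Bool), f X J Y T R0 R1 R2 k = true →
    BoxOK D o1 o2 i X J Y T R0 R1 R2 ∧ ∃ s', k s' = true

section

variable {D : Dat} {γ : Type} {o1 o2 : Bool} {i : ℕ} {ih : γ → TF γ}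

private theorem sok_sel {c : Bool} {t f : TF γ} (ht : SOK D o1 o2 i t) (hf : SOK D o1 o2 i f) :
    SOK D o1 o2 i (sel c t f) := by
  cases c
  · exact hf
  · exact ht

private theorem sok_T (hih : ∀ s, SOK D o1 o2 i (ih s)) (s : γ) :
    SOK D o1 o2 i (splT ih s) := by
  intro X J Y T R0 R1 R2 k h
  obtain ⟨m, hm⟩ : ∃ m, m = (sel (Nat.ble (Nat.add (kl T.lo) (nat_lit 2)) (kh T.hi))
      (Nat.shiftLeft (Nat.div (Nat.add (kl T.lo) (kh T.hi)) (nat_lit 2)) (nat_lit 16))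
      (mid T.lo T.hi)) := ⟨_, rfl⟩
  have h0 : ih s X J Y (Rg.mk T.lo m) R0 R1 R2
      (fun s => ih s X J Y (Rg.mk m T.hi) R0 R1 R2 k) = true := by rw [hm]; exact h
  obtain ⟨h1, s', h2⟩ := hih s _ _ _ _ _ _ _ _ h0
  obtain ⟨h3, s'', h4⟩ := hih s' _ _ _ _ _ _ _ _ h2
  refine ⟨?_, s'', h4⟩
  intro A B C S j k hA hB hC hbox hcell hbit
  have hL : 0 < A.L + B.L + C.L := by
    have e1 := hbox.aL
    have e2 := hbox.bL
    have e3 := hbox.cL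
    linarith
  have hT : T.lo < T.hi := by
    have e3 : (T.lo : ℝ) * (A.L + B.L + C.L) < (T.hi : ℝ) * (A.L + B.L + C.L) :=
      hbox.t1.trans_lt hbox.t2
    exact_mod_cast lt_of_mul_lt_mul_right e3 hL.le
  have hmT : m ≤ T.hi := by
    rw [hm]
    cases hc : Nat.ble (Nat.add (kl T.lo) (nat_lit 2)) (kh T.hi) with
    | false =>
      show (T.lo + T.hi) / 2 ≤ T.hi
      omega
    | true =>
      have hc' : kl T.lo + 2 ≤ kh T.hi := Nat.le_of_ble_eq_true hc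
      have hkh : kh T.hi = (T.hi + 65535) / 65536 := by
        show (T.hi + 65535) >>> 16 = _
        rw [Nat.shiftRight_eq_div_pow]
      show ((kl T.lo + kh T.hi) / 2) <<< 16 ≤ T.hi
      rw [Nat.shiftLeft_eq]
      norm_num
      omega
  by_cases hlt : 2621440 * (S - (A.a + B.a + C.a)) < (m : ℝ) * (A.L + B.L + C.L)
  · exact h1 A B C S j k hA hB hC ⟨hbox.aL, hbox.bL, hbox.cL, hbox.x1, hbox.x2, hbox.y1, hbox.y2,
      hbox.j1, hbox.j2, hbox.j3, hbox.t1, hlt, hmT.trans hbox.t3, hbox.r0, hbox.r1, hbox.r2,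
      hbox.s0, hbox.s1, hbox.s2⟩ hcell hbit
  · exact h3 A B C S j k hA hB hC ⟨hbox.aL, hbox.bL, hbox.cL, hbox.x1, hbox.x2, hbox.y1, hbox.y2,
      hbox.j1, hbox.j2, hbox.j3, not_lt.1 hlt, hbox.t2, hbox.t3, hbox.r0, hbox.r1, hbox.r2,
      hbox.s0, hbox.s1, hbox.s2⟩ hcell hbit

private theorem sok_X (hih : ∀ s, SOK D o1 o2 i (ih s)) (s : γ) :
    SOK D o1 o2 i (splX ih s) := by
  intro X J Y T R0 R1 R2 k h
  obtain ⟨h1, s', h2⟩ := hih s _ _ _ _ _ _ _ _ h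
  obtain ⟨h3, s'', h4⟩ := hih s' _ _ _ _ _ _ _ _ h2
  refine ⟨?_, s'', h4⟩
  intro A B C S j k hA hB hC hbox hcell hbit
  rcases le_total (1048576 * B.L) ((mid X.lo X.hi : ℝ) * A.L) with hle | hle
  · exact h1 A B C S j k hA hB hC ⟨hbox.aL, hbox.bL, hbox.cL, hbox.x1, hle, hbox.y1, hbox.y2,
      hbox.j1, hbox.j2, hbox.j3, hbox.t1, hbox.t2, hbox.t3, hbox.r0, hbox.r1, hbox.r2,
      hbox.s0, hbox.s1, hbox.s2⟩ hcell hbit
  · exact h3 A B C S j k hA hB hC ⟨hbox.aL, hbox.bL, hbox.cL, hle, hbox.x2, hbox.y1, hbox.y2,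
      hbox.j1, hbox.j2, hbox.j3, hbox.t1, hbox.t2, hbox.t3, hbox.r0, hbox.r1, hbox.r2,
      hbox.s0, hbox.s1, hbox.s2⟩ hcell hbit

private theorem sok_Y (hD : DOK D) (hih : ∀ s, SOK D o1 o2 i (ih s)) (s : γ) :
    SOK D o1 o2 i (splY D ih s) := by
  intro X J Y T R0 R1 R2 k h
  unfold splY at h
  cases hc : Nat.ble (Nat.add J.lo (nat_lit 2)) J.hi with
  | true =>
    rw [hc] at h
    have hc' : J.lo + 2 ≤ J.hi := Nat.le_of_ble_eq_true hc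
    obtain ⟨h1, s', h2⟩ := hih s _ _ _ _ _ _ _ _ h
    obtain ⟨h3, s'', h4⟩ := hih s' _ _ _ _ _ _ _ _ h2
    refine ⟨?_, s'', h4⟩
    intro A B C S j k hA hB hC hbox hcell hbit
    have hmid : mid J.lo J.hi = (J.lo + J.hi) / 2 := rfl
    have hj3 := hbox.j3
    rcases lt_or_ge j (mid J.lo J.hi) with hlt | hge
    · refine h1 A B C S j k hA hB hC ⟨hbox.aL, hbox.bL, hbox.cL, hbox.x1, hbox.x2, hbox.y1, ?_,
        hbox.j1, hlt, ?_, hbox.t1, hbox.t2, hbox.t3, hbox.r0, hbox.r1, hbox.r2,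
        hbox.s0, hbox.s1, hbox.s2⟩ hcell hbit
      · have e1 := hcell.y2
        have e2 : gg D (j + 1) ≤ gg D (mid J.lo J.hi) :=
          hD.grid _ _ hlt (by rw [hmid]; omega)
        have e3 : (gg D (j + 1) : ℝ) ≤ (gg D (mid J.lo J.hi) : ℝ) := by exact_mod_cast e2
        exact e1.le.trans (mul_le_mul_of_nonneg_right e3 hbox.aL.le)
      · show mid J.lo J.hi ≤ 38
        rw [hmid]
        omega
    · refine h3 A B C S j k hA hB hC ⟨hbox.aL, hbox.bL, hbox.cL, hbox.x1, hbox.x2, ?_, hbox.y2,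
        hge, hbox.j2, hbox.j3, hbox.t1, hbox.t2, hbox.t3, hbox.r0, hbox.r1, hbox.r2,
        hbox.s0, hbox.s1, hbox.s2⟩ hcell hbit
      have e1 := hcell.y1
      have e2 : gg D (mid J.lo J.hi) ≤ gg D j := hD.grid _ _ hge hcell.bj.le
      have e3 : (gg D (mid J.lo J.hi) : ℝ) ≤ (gg D j : ℝ) := by exact_mod_cast e2
      exact (mul_le_mul_of_nonneg_right e3 hbox.aL.le).trans e1
  | false =>
    rw [hc] at h
    obtain ⟨h1, s', h2⟩ := hih s _ _ _ _ _ _ _ _ h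
    obtain ⟨h3, s'', h4⟩ := hih s' _ _ _ _ _ _ _ _ h2
    refine ⟨?_, s'', h4⟩
    intro A B C S j k hA hB hC hbox hcell hbit
    rcases le_total (1048576 * C.L) ((mid Y.lo Y.hi : ℝ) * A.L) with hle | hle
    · exact h1 A B C S j k hA hB hC ⟨hbox.aL, hbox.bL, hbox.cL, hbox.x1, hbox.x2, hbox.y1, hle,
        hbox.j1, hbox.j2, hbox.j3, hbox.t1, hbox.t2, hbox.t3, hbox.r0, hbox.r1, hbox.r2,
        hbox.s0, hbox.s1, hbox.s2⟩ hcell hbit
    · exact h3 A B C S j k hA hB hC ⟨hbox.aL, hbox.bL, hbox.cL, hbox.x1, hbox.x2, hle, hbox.y2,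
        hbox.j1, hbox.j2, hbox.j3, hbox.t1, hbox.t2, hbox.t3, hbox.r0, hbox.r1, hbox.r2,
        hbox.s0, hbox.s1, hbox.s2⟩ hcell hbit

/-- a ratio in the range `R` is in one of the halves -/
private theorem rLR {R : Rg} {r : ℝ} (hR : R.In (10000 * r)) (hr : RS r) :
    (rL R).In (10000 * r) ∨ (rR R).In (10000 * r) := by
  unfold rL rR
  cases hc : an (Nat.ble R.lo (nat_lit 4226)) (Nat.ble (nat_lit 5774) R.hi) with
  | true =>
    rcases hr with ⟨h1, h2⟩ | ⟨h1, h2⟩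
    · left
      refine ⟨hR.1, ?_⟩
      show 10000 * r ≤ ((4227 : ℕ) : ℝ)
      push_cast
      linarith
    · right
      refine ⟨?_, hR.2⟩
      show ((5773 : ℕ) : ℝ) ≤ 10000 * r
      push_cast
      linarith
  | false =>
    rcases le_total (10000 * r) ((mid R.lo R.hi : ℝ)) with hle | hle
    · exact Or.inl ⟨hR.1, hle⟩
    · exact Or.inr ⟨hle, hR.2⟩

private theorem sok_R0 (hih : ∀ s, SOK D o1 o2 i (ih s)) (s : γ) :
    SOK D o1 o2 i (splR0 ih s) := by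
  intro X J Y T R0 R1 R2 k h
  obtain ⟨h1, s', h2⟩ := hih s _ _ _ _ _ _ _ _ h
  obtain ⟨h3, s'', h4⟩ := hih s' _ _ _ _ _ _ _ _ h2
  refine ⟨?_, s'', h4⟩
  intro A B C S j k hA hB hC hbox hcell hbit
  rcases rLR hbox.r0 hbox.s0 with hle | hle
  · exact h1 A B C S j k hA hB hC ⟨hbox.aL, hbox.bL, hbox.cL, hbox.x1, hbox.x2, hbox.y1, hbox.y2,
      hbox.j1, hbox.j2, hbox.j3, hbox.t1, hbox.t2, hbox.t3, hle, hbox.r1, hbox.r2,
      hbox.s0, hbox.s1, hbox.s2⟩ hcell hbit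
  · exact h3 A B C S j k hA hB hC ⟨hbox.aL, hbox.bL, hbox.cL, hbox.x1, hbox.x2, hbox.y1, hbox.y2,
      hbox.j1, hbox.j2, hbox.j3, hbox.t1, hbox.t2, hbox.t3, hle, hbox.r1, hbox.r2,
      hbox.s0, hbox.s1, hbox.s2⟩ hcell hbit

private theorem sok_R1 (hih : ∀ s, SOK D o1 o2 i (ih s)) (s : γ) :
    SOK D o1 o2 i (splR1 ih s) := by
  intro X J Y T R0 R1 R2 k h
  obtain ⟨h1, s', h2⟩ := hih s _ _ _ _ _ _ _ _ h
  obtain ⟨h3, s'', h4⟩ := hih s' _ _ _ _ _ _ _ _ h2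
  refine ⟨?_, s'', h4⟩
  intro A B C S j k hA hB hC hbox hcell hbit
  rcases rLR hbox.r1 hbox.s1 with hle | hle
  · exact h1 A B C S j k hA hB hC ⟨hbox.aL, hbox.bL, hbox.cL, hbox.x1, hbox.x2, hbox.y1, hbox.y2,
      hbox.j1, hbox.j2, hbox.j3, hbox.t1, hbox.t2, hbox.t3, hbox.r0, hle, hbox.r2,
      hbox.s0, hbox.s1, hbox.s2⟩ hcell hbit
  · exact h3 A B C S j k hA hB hC ⟨hbox.aL, hbox.bL, hbox.cL, hbox.x1, hbox.x2, hbox.y1, hbox.y2,
      hbox.j1, hbox.j2, hbox.j3, hbox.t1, hbox.t2, hbox.t3, hbox.r0, hle, hbox.r2,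
      hbox.s0, hbox.s1, hbox.s2⟩ hcell hbit

private theorem sok_R2 (hih : ∀ s, SOK D o1 o2 i (ih s)) (s : γ) :
    SOK D o1 o2 i (splR2 ih s) := by
  intro X J Y T R0 R1 R2 k h
  obtain ⟨h1, s', h2⟩ := hih s _ _ _ _ _ _ _ _ h
  obtain ⟨h3, s'', h4⟩ := hih s' _ _ _ _ _ _ _ _ h2
  refine ⟨?_, s'', h4⟩
  intro A B C S j k hA hB hC hbox hcell hbit
  rcases rLR hbox.r2 hbox.s2 with hle | hle
  · exact h1 A B C S j k hA hB hC ⟨hbox.aL, hbox.bL, hbox.cL, hbox.x1, hbox.x2, hbox.y1, hbox.y2,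
      hbox.j1, hbox.j2, hbox.j3, hbox.t1, hbox.t2, hbox.t3, hbox.r0, hbox.r1, hle,
      hbox.s0, hbox.s1, hbox.s2⟩ hcell hbit
  · exact h3 A B C S j k hA hB hC ⟨hbox.aL, hbox.bL, hbox.cL, hbox.x1, hbox.x2, hbox.y1, hbox.y2,
      hbox.j1, hbox.j2, hbox.j3, hbox.t1, hbox.t2, hbox.t3, hbox.r0, hbox.r1, hle,
      hbox.s0, hbox.s1, hbox.s2⟩ hcell hbit

end

theorem hSpl : StSpl := by
  intro D hD γ o1 o2 i c ih hih s
  have hih' : ∀ s, SOK D o1 o2 i (ih s) := hih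
  exact sok_sel (sok_sel (sok_T hih' s) (sok_sel (sok_X hih' s) (sok_Y hD hih' s)))
    (sok_sel (sok_R0 hih' s) (sok_sel (sok_R1 hih' s) (sok_R2 hih' s)))

end Pool.Agent.Helper80.TS
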