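import Pool.Agent.Helper80.TS.St

/-!
# Module Src (helper95): source test
-/

set_option autoImplicit false

namespace Pool.Agent.Helper80.TS

theorem hSrc (hUniq : StUniq) (hBits : StBits) : StSrc := by
  intro D hD o1 o2 i X J Y T R0 R1 R2 lev j k A B C S hA0 hB0 hC0 hbox hcell hsrc hC
  obtain ⟨i', j', k', hcell', hbit⟩ := hC
  obtain ⟨rfl, rfl, rfl⟩ := hUniq D hD i j k i' j' k' A B C S hcell hcell'
  have hL : 0 < A.L + B.L + C.L := by
    have h1 := hbox.aL
    have h2 := hbox.bL
    have h3 := hbox.cL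
    linarith
  have htau : tau A B C S = S - (A.a + B.a + C.a) := by
    unfold tau
    rw [hA0]
    simp
  have h1 : (T.lo : ℝ) < 65536 * ((k : ℝ) + 1) := by
    have e1 := hbox.t1
    have e2 := hcell.t2
    rw [htau] at e2
    have e3 : (T.lo : ℝ) * (A.L + B.L + C.L) < 65536 * ((k : ℝ) + 1) * (A.L + B.L + C.L) := by
      linarith
    exact lt_of_mul_lt_mul_right e3 hL.le
  have h2 : 65536 * (k : ℝ) < (T.hi : ℝ) := by
    have e1 := hbox.t2
    have e2 := hcell.t1
    rw [htau] at e2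
    have e3 : 65536 * (k : ℝ) * (A.L + B.L + C.L) < (T.hi : ℝ) * (A.L + B.L + C.L) := by
      linarith
    exact lt_of_mul_lt_mul_right e3 hL.le
  have h1' : T.lo < 65536 * (k + 1) := by exact_mod_cast h1
  have h2' : 65536 * k < T.hi := by exact_mod_cast h2
  have hkl : kl T.lo = T.lo / 65536 := by
    show T.lo >>> 16 = _
    rw [Nat.shiftRight_eq_div_pow]
  have hkh : kh T.hi = (T.hi + 65535) / 65536 := by
    show (T.hi + 65535) >>> 16 = _
    rw [Nat.shiftRight_eq_div_pow]
  have h3 : T.hi ≤ 2621440 := hbox.t3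
  have hfalse := hBits.2 (msk D lev o1 o2) (J.hi - J.lo) (kh T.hi - kl T.lo) i J.lo (kl T.lo)
    (by rw [hkh]; omega) hsrc j k hbox.j1 (by have := hbox.j1; have := hbox.j2; omega)
    (by rw [hkl]; omega) (by rw [hkl, hkh]; omega)
  have hx : msk D lev (xor A.o B.o) (xor A.o C.o) = msk D lev o1 o2 := by
    rw [hA0, hB0, hC0]
    simp
  rw [hx, hfalse] at hbit
  exact Bool.false_ne_true hbit

end Pool.Agent.Helper80.TS
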