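import Pool.Agent.Helper80.TS.Defs

/-!
# Statements of the modules (MP_ae7841_nt, uncountably many solutions)

Overview.  A configuration is a triple `A, B, C` of digit lists; `iv A` is the cylinder interval
`cf A [hA, hB]`.  The certificates (files `Cert/C<o>_<i>.lean`, all accepted by the kernel) say that
every admissible state can be refined to a smaller level, or by ones on the same level, or in two
incomparable ways (`Out`).  Refining by ones cannot go on for ever, since three numbers with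
golden tails never have sum `1` (parity).  So every admissible configuration has two incomparable
admissible descendants, and a diagonal argument shows that there are uncountably many solutions.
-/

set_option autoImplicit false

namespace Pool.Agent.Helper80.TS

/-! ## Part A: continued fractions -/

/-- MODULE Mat.  Moebius form, positivity and determinant.  Induction on `w`:
`a + (p + p' v)/(q + q' v) = ((a q + p) + (a q' + p') v)/(q + q' v)`. -/
def StMat : Prop := ∀ w : List ℕ, Dg w →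
  (∀ v : ℝ, 0 < v → cf w v = (((mat w).1 : ℝ) + ((mat w).2.1 : ℝ) * v) /
    (((mat w).2.2.1 : ℝ) + ((mat w).2.2.2 : ℝ) * v)) ∧
  (1 ≤ (mat w).2.2.1) ∧ ((mat w).2.2.2 ≤ (mat w).2.2.1) ∧
  (((mat w).2.1 : ℤ) * ((mat w).2.2.1 : ℤ) - ((mat w).1 : ℤ) * ((mat w).2.2.2 : ℤ) =
    if par w = true then -1 else 1)

/-- MODULE App.  Refinement of cylinders.  Write `cf (w ++ v) x = cf w (cf v x)`.  With
`mat w = (p, p', q, q')`: `cf w y - cf w x = s (y - x)/((q + q' x)(q + q' y))`, `s = 1` for even and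
`-1` for odd length.  So `(cf w x - cf w hA)/(cf w hB - cf w hA) = pos (q'/q) x`; if `s = -1` the
left end is `cf w hB` and the relative position is `1 - pos`.  Ratio:
`mat (w ++ [e])` has `q_new = e q + q'`, `q'_new = q`, so `q'_new/q_new = 1/(e + q'/q)`. -/
def StApp : Prop := ∀ w v : List ℕ, Dg w → Dg v → iv (w ++ v) = (iv w).ref v

/-- MODULE Hull.  The hull is invariant: `1/(1 + hA) ≤ hB`, `hA ≤ 1/(2 + hB)`, and `cf w` is
strictly monotone or antitone on positive numbers. -/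
def StHull : Prop := ∀ w : List ℕ, W12 w → hA ≤ lo w ∧ lo w < hi w ∧ hi w ≤ hB ∧
  (∀ v : ℝ, hA ≤ v → v ≤ hB → lo w ≤ cf w v ∧ cf w v ≤ hi w)

/-- MODULE Fac.  Length factor.  `pos r hB - pos r hA = 1`.  For `w = e :: u` and `r' = 1/(e + r)`:
`pos r (1/(e + x)) - pos r (1/(e + y)) = m (pos r' y - pos r' x)` with
`m = (1 + r hA)(1 + r hB)/((e + hA + r)(e + hB + r))`, `0 < m ≤ 1/2` for `0 ≤ r ≤ 1`, and
`0 ≤ r' ≤ 1`.  Induction on `w`. -/
def StFac : Prop := ∀ (w : List ℕ) (r : ℝ), W12 w → 0 ≤ r → r ≤ 1 →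
  0 < pos r (hi w) - pos r (lo w) ∧ pos r (hi w) - pos r (lo w) ≤ (1 / 2) ^ w.length

/-- MODULE Rat1.  The set of ratios is invariant. -/
def StRR : Prop := ∀ (w : List ℕ) (r : ℝ), W12 w → RS r → RS (rr r w)

/-! ## Part B: soundness of the integer tests -/

/-- MODULE Wb.  Bounds of a word.  `lo w = n1/d1`, `hi w = n2/d2`,
`hi w - lo w = (hB - hA) 10^8/(d1 d2)` (determinant).  With `ρ = 10000 r`, `H = 10000`, `K = 2^20`:
`pos r (lo w) = z1 (H^2 + 7321 ρ)/(H * 3661 * (H d1 + ρ n1))`, `z1 = H n1 - 3660 d1`, increasing in `ρ`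
(numerator of the derivative: `7321 d1 - H n1 ≥ 0`, i.e. `lo w ≤ hB`); the same with `2`.
`pos r (hi w) - pos r (lo w) = (H^2 + 3660 ρ)(H^2 + 7321 ρ)/((H d1 + ρ n1)(H d2 + ρ n2))`, where
`(H^2 + 3660 ρ)/(H d1 + ρ n1)` is decreasing and `(H^2 + 7321 ρ)/(H d2 + ρ n2)` is increasing in `ρ`.
Floor and floor plus one of the values at `R.lo`, `R.hi` (here `36610000 = 3661 H`). -/
def StWb : Prop := ∀ (e : ℕ) (w : List ℕ) (R : Rg) (r : ℝ), TabOK e w → W12 w → R.In (10000 * r) →
  ((wb e R).al : ℝ) ≤ 1048576 * pos r (lo w) ∧ 1048576 * pos r (lo w) ≤ ((wb e R).ah : ℝ) ∧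
  ((wb e R).bl : ℝ) ≤ 1048576 * pos r (hi w) ∧ 1048576 * pos r (hi w) ≤ ((wb e R).bh : ℝ) ∧
  ((wb e R).fl : ℝ) ≤ 1048576 * (pos r (hi w) - pos r (lo w)) ∧
  1048576 * (pos r (hi w) - pos r (lo w)) ≤ ((wb e R).fh : ℝ)

/-- the record `B` bounds the interval `I` refined by `w`; `U` is the unit of length -/
structure LBok (B : LB) (I : Iv) (w : List ℕ) (U : ℝ) : Prop where
  o : B.o = I.o
  q : B.q = xor I.o (par w)
  IL : 0 < I.L
  al : (B.W.al : ℝ) ≤ 1048576 * pos I.r (lo w)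
  ah : 1048576 * pos I.r (lo w) ≤ (B.W.ah : ℝ)
  bl : (B.W.bl : ℝ) ≤ 1048576 * pos I.r (hi w)
  bh : 1048576 * pos I.r (hi w) ≤ (B.W.bh : ℝ)
  fl : (B.W.fl : ℝ) ≤ 1048576 * (pos I.r (hi w) - pos I.r (lo w))
  fh : 1048576 * (pos I.r (hi w) - pos I.r (lo w)) ≤ (B.W.fh : ℝ)
  L1 : (B.L.lo : ℝ) * U ≤ 1048576 * I.L
  L2 : 1048576 * I.L ≤ (B.L.hi : ℝ) * U
  fp : 0 < pos I.r (hi w) - pos I.r (lo w)

/-- MODULE Low.  For each interval let `σ = (I.ref w).a - I.a`, `ε = σ + (I.ref w).L`, so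
`σ = I.L pos(lo)`, `ε = I.L pos(hi)` for `o = false`, `σ = I.L (1 - pos(hi))`, `ε = I.L (1 - pos(lo))` for
`o = true`.  Claim equivalent to `∑ (40 - k) σ + k ε < 40 (S - ∑ a)`.  With
`16 tl ∑ L ≤ 40 * 2^20 (S - ∑ a)` it is enough that `∑ (lowP - lowN) I.L > 0`, because
`2^20 ((40 - k) σ + k ε) ≤ (16 tl - (lowP - lowN)) I.L` in both orientations.  And `tst` says
`∑ (lowN - lowP)^+ L.hi < ∑ (lowP - lowN)^+ L.lo`, multiply by `U`. -/
def StLow : Prop := ∀ (A B C : LB) (I J K : Iv) (u v w : List ℕ) (U S : ℝ) (tl k : ℕ),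
  0 < U → LBok A I u U → LBok B J v U → LBok C K w U → k ≤ 40 →
  (tl : ℝ) * (I.L + J.L + K.L) ≤ 2621440 * (S - (I.a + J.a + K.a)) → low A B C tl k = true →
  (k : ℝ) * ((I.ref u).L + (J.ref v).L + (K.ref w).L) <
    40 * (S - ((I.ref u).a + (J.ref v).a + (K.ref w).a))

/-- MODULE High.  The same for the upper test: `40 (S - ∑ a) < ∑ (40 - k) σ + k ε`, with
`2^20 ((40 - k) σ + k ε) ≥ (16 th + (highP - highN)) I.L`. -/
def StHigh : Prop := ∀ (A B C : LB) (I J K : Iv) (u v w : List ℕ) (U S : ℝ) (th k : ℕ),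
  0 < U → LBok A I u U → LBok B J v U → LBok C K w U → k ≤ 40 →
  2621440 * (S - (I.a + J.a + K.a)) ≤ (th : ℝ) * (I.L + J.L + K.L) → high A B C th k = true →
  40 * (S - ((I.ref u).a + (J.ref v).a + (K.ref w).a)) <
    (k : ℝ) * ((I.ref u).L + (J.ref v).L + (K.ref w).L)

/-- MODULE Rat.  Products of the bounds. -/
def StRat : Prop := ∀ (a b : LB) (I J : Iv) (u v : List ℕ) (U : ℝ) (G0 G1 : ℕ),
  0 < U → LBok a I u U → LBok b J v U → rat G0 G1 a b = true →
  (G0 : ℝ) * (J.ref v).L ≤ 1048576 * (I.ref u).L ∧ 1048576 * (I.ref u).L < (G1 : ℝ) * (J.ref v).L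

/-- MODULE Bits.  `(pat nj nk).testBit (40 a + b) = (a < nj and b < nk)` for `b < 40`, `nk ≤ 40`:
`pat nj nk = (2^nk - 1) ∑_{a < nj} 2^(40 a)`.  `Nat.land (M >>> s) p = p` gives all bits of `p` in
`M >>> s`, `testBit_shiftRight`. -/
def StBits : Prop :=
  (∀ (M nj nk j k ni i : ℕ), nk ≤ 40 → allb M (pat nj nk) j k ni i = true →
    ∀ i' j' k' : ℕ, i ≤ i' → i' < i + ni → j ≤ j' → j' < j + nj → k ≤ k' → k' < k + nk →
      M.testBit ((i' * 38 + j') * 40 + k') = true) ∧
  (∀ (M nj nk i j k : ℕ), nk ≤ 40 → noneb M (pat nj nk) i j k = true →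
    ∀ j' k' : ℕ, j ≤ j' → j' < j + nj → k ≤ k' → k' < k + nk →
      M.testBit ((i * 38 + j') * 40 + k') = false)

/-- MODULE Img.  From `StRat`, `StBits`: the image is in a cell of the mask.  There is `i'` with
`i ≤ i' < i + ni` and `G_{i'+12} b.L ≤ 2^20 a.L < G_{i'+13} b.L` (discrete intermediate value from the
two inequalities of `StRat`), the same for `j'`, and `k'` (if `b.q` is true use the reflected position:
`40 tau = 40 ∑ L' - 40 (S - ∑ a')` is strictly between `(40 - k0 - nk) ∑ L'` and `(40 - k0) ∑ L'`). -/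
def StImg : Prop := ∀ (D : Dat) (lev i ni j nj k0 nk : ℕ) (b a c : LB) (J I K : Iv)
  (v u w : List ℕ) (U S : ℝ), 0 < U → LBok b J v U → LBok a I u U → LBok c K w U →
  (k0 : ℝ) * ((J.ref v).L + (I.ref u).L + (K.ref w).L) <
    40 * (S - ((J.ref v).a + (I.ref u).a + (K.ref w).a)) →
  40 * (S - ((J.ref v).a + (I.ref u).a + (K.ref w).a)) <
    ((k0 + nk : ℕ) : ℝ) * ((J.ref v).L + (I.ref u).L + (K.ref w).L) →
  img D lev i ni j nj k0 nk b a c = true → Cell D lev (J.ref v) (I.ref u) (K.ref w) S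

/-- MODULE Pth.  Soundness of the path test, from `StWb`, `StLow`, `StHigh`, `StImg`, `StFac`,
`StWord`.  The three records of `pths` satisfy `LBok` with `U = A.L`; six cases of the permutation
code. -/
def StPth : Prop := ∀ (D : Dat), DOK D → ∀ (o1 o2 : Bool) (X J Y T R0 R1 R2 : Rg) (lev s j : ℕ)
  (A B C : Iv) (S : ℝ), A.o = false → B.o = o1 → C.o = o2 → InBox X J Y T R0 R1 R2 j A B C S →
  pths D o1 o2 X Y T R0 R1 R2 lev s = true →
  Im D lev (A.ref (dig (Nat.land s 127))) (B.ref (dig (fld s 8 127)))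
    (C.ref (dig (fld s 16 127))) S

/-- MODULE Word.  Facts on word codes (`dig`, `one`, `inc`); `inc` by induction on the fuel. -/
def StWord : Prop :=
  (∀ c : ℕ, W12 (dig c)) ∧ (∀ c : ℕ, c < 128 → one c = true → Ones (dig c)) ∧
  (∀ a b : ℕ, a < 128 → b < 128 → inc 8 a b = true → Inc (dig a) (dig b)) ∧
  (∀ c : ℕ, dig c = [] → c ≤ 1)

/-! ## Part C: soundness of the traversal -/

/-- MODULE Uniq.  The cell of a state is unique (half open cells, monotone grid). -/
def StUniq : Prop := ∀ (D : Dat), DOK D → ∀ (i j k i' j' k' : ℕ) (A B C : Iv) (S : ℝ),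
  CellAt D i j k A B C S → CellAt D i' j' k' A B C S → i = i' ∧ j = j' ∧ k = k'

/-- MODULE Src.  From `StUniq`, `StBits`: if no cell of the source box is in the mask of level `lev`,
then the state has no cell of level `lev`.  `kl T.lo ≤ k < kh T.hi ≤ 40` from `t1, t2, t3` of
`InBox` and `CellAt`. -/
def StSrc : Prop := ∀ (D : Dat), DOK D → ∀ (o1 o2 : Bool) (i : ℕ) (X J Y T R0 R1 R2 : Rg)
  (lev j k : ℕ) (A B C : Iv) (S : ℝ), A.o = false → B.o = o1 → C.o = o2 →
  InBox X J Y T R0 R1 R2 j A B C S → CellAt D i j k A B C S → src D o1 o2 i J T lev = true →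
  ¬ Cell D lev A B C S

/-- MODULE Leaf.  From `StPth`, `StSrc`, `StWord`: the four kinds of leaves. -/
def StLeaf : Prop := ∀ (D : Dat), DOK D → ∀ (o1 o2 : Bool) (i c s : ℕ) (X J Y T R0 R1 R2 : Rg)
  (k : ℕ → Bool), leaf D o1 o2 i c s X J Y T R0 R1 R2 k = true →
  BoxOK D o1 o2 i X J Y T R0 R1 R2 ∧ ∃ s', k s' = true

/-- MODULE Spl.  Splitting of boxes. `splT`: half open ranges of `t`, new end `≤ T.hi`.  `splY` at a grid
index `m` with `J.lo < m < J.hi`: if `j < m` then `2^20 C.L < G_{j+1} A.L ≤ G_m A.L`, else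
`G_m A.L ≤ G_j A.L ≤ 2^20 C.L`.  `splR`: use `RS`. -/
def StSpl : Prop := ∀ (D : Dat), DOK D → ∀ (γ : Type) (o1 o2 : Bool) (i c : ℕ) (ih : γ → TF γ),
  (∀ (s : γ) (X J Y T R0 R1 R2 : Rg) (k : γ → Bool), ih s X J Y T R0 R1 R2 k = true →
    BoxOK D o1 o2 i X J Y T R0 R1 R2 ∧ ∃ s', k s' = true) →
  ∀ (s : γ) (X J Y T R0 R1 R2 : Rg) (k : γ → Bool), spl D c ih s X J Y T R0 R1 R2 k = true →
    BoxOK D o1 o2 i X J Y T R0 R1 R2 ∧ ∃ s', k s' = true

/-- MODULE Run.  From `StLeaf`, `StSpl`: induction on the fuel for `run` and `top`; the initial box of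
`modt` contains every state of the cell column `i`. -/
def StRun : Prop := ∀ (D : Dat), DOK D → ∀ (o1 o2 : Bool) (i s : ℕ) (c : List ℕ),
  modt D o1 o2 i s c = true → ∀ (A B C : Iv) (S : ℝ) (j k : ℕ), A.o = false → B.o = o1 →
  C.o = o2 → RS A.r → RS B.r → RS C.r → CellAt D i j k A B C S →
  (msk D 21 o1 o2).testBit ((i * 38 + j) * 40 + k) = true → Out D A B C S

/-- MODULE DOK.  The data of the certificates. -/
def StDOK : Prop := DOK dat

/-- MODULE All (helper80).  From `StRun`, `StDOK` and the 104 certificates. -/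
def StAll : Prop := ∀ (A B C : Iv) (S : ℝ), A.o = false → RS A.r → RS B.r → RS C.r →
  Cell dat 21 A B C S → Out dat A B C S

/-- MODULE Neg.  From `StAll`: remove the orientation.  `Cell D lev A.neg B.neg C.neg (-S)` is
equivalent to `Cell D lev A B C S` (because `tau` does not change), and `A.neg.ref w = (A.ref w).neg`. -/
def StNeg : Prop := ∀ (A B C : Iv) (S : ℝ), RS A.r → RS B.r → RS C.r →
  Cell dat 21 A B C S → Out dat A B C S

/-! ## Part E: configurations of lists -/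

/-- MODULE Step.  From `StNeg`, `StApp`, `StRR`, `StDOK`.  Given a configuration of level `l` take the
order of the three lists in which it is a `Cell` (six cases; the conclusion is invariant under
permutations).  By `mono`, `Cell l` and `¬ Cell lev` give `lev < l`, and `Im` is monotone in the
level. -/
def StStep : Prop := ∀ (l : ℕ) (A B C : List ℕ), l ≤ 21 → InK l A B C →
  (∃ (l' : ℕ) (u v w : List ℕ), l' < l ∧ W12 u ∧ W12 v ∧ W12 w ∧
    InK l' (A ++ u) (B ++ v) (C ++ w)) ∨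
  (∃ (u v w : List ℕ), Ones u ∧ Ones v ∧ Ones w ∧ ¬ (u = [] ∧ v = [] ∧ w = []) ∧
    InK l (A ++ u) (B ++ v) (C ++ w)) ∨ HasTwo A B C

/-- MODULE Geo.  Geometry of admissible configurations: a cell has `0 ≤ tau ≤ ∑ L` and ratios of
lengths between `170000/2^20` and `1170000/2^20`, so the sum of the three lengths is at most `30`
times each of them (all six orders). -/
def StGeo : Prop := ∀ (l : ℕ) (A B C : List ℕ), InK l A B C →
  0 < (iv A).L ∧ 0 < (iv B).L ∧ 0 < (iv C).L ∧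
  (iv A).L + (iv B).L + (iv C).L ≤ 30 * (iv A).L ∧ (iv A).L + (iv B).L + (iv C).L ≤ 30 * (iv B).L ∧
  (iv A).L + (iv B).L + (iv C).L ≤ 30 * (iv C).L ∧
  ∀ x y z : ℝ, hA ≤ x → x ≤ hB → hA ≤ y → y ≤ hB → hA ≤ z → z ≤ hB →
    |cf A x + cf B y + cf C z - 1| ≤ (iv A).L + (iv B).L + (iv C).L

/-- MODULE Gold.  Parity lemma: `φ = (√5 - 1)/2`, `cf A φ = (p + p' φ)/(q + q' φ)`; multiplying by the
conjugate, `cf A φ = (a ± φ)/N`, `a = p q - p' q' - p q'`, `N = q^2 - q q' - q'^2`, odd because `q, q'`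
are not both even (determinant).  If the sum is `1` then `± 1/N1 ± 1/N2 ± 1/N3 = 0` (irrationality),
so `± N2 N3 ± N1 N3 ± N1 N2 = 0`, a sum of three odd numbers. -/
def StGold : Prop := ∀ A B C : List ℕ, Dg A → Dg B → Dg C →
  cf A ((Real.sqrt 5 - 1) / 2) + cf B ((Real.sqrt 5 - 1) / 2) + cf C ((Real.sqrt 5 - 1) / 2) ≠ 1

/-- MODULE Two.  From `StStep`, `StGeo`, `StGold`, `StApp`, `StFac`, `StMat`.  Strong induction on `l`.
Suppose `¬ HasTwo A B C`.  Then for all `n` there are lists of ones `u, v, w` of total length `≥ n`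
with `InK l (A ++ u) (B ++ v) (C ++ w)` (step: the other two cases of `StStep` give `HasTwo` of the
descendant, hence of `A, B, C`).  `cf (A ++ u) φ = cf A φ`, and the golden number is in the hull, so
`|cf A φ + cf B φ + cf C φ - 1| ≤ ∑ L ≤ 30 (1/2)^(n/3) max L` for all `n` (one of the three lists of
ones has length `≥ n/3`, `StFac`), contradiction to `StGold`. -/
def StTwo : Prop := ∀ (l : ℕ) (A B C : List ℕ), l ≤ 21 → InK l A B C → HasTwo A B C

/-! ## Part F: points -/

/-- MODULE Pre.  Digits of `cf w v`. -/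
def StPre : Prop := ∀ (w : List ℕ) (v : ℝ), Dg w → 0 < v → v < 1 → Pre w (cf w v) ∧
  0 < cf w v ∧ (w ≠ [] → cf w v < 1)

/-- MODULE Irr.  If `x = cf w v` with arbitrarily long `w` then `x` is irrational: if `x = p/q` with
`0 < q` then `|w| ≤ q` by induction on `w` (denominators decrease). -/
def StIrr : Prop := ∀ x : ℝ, (∀ N : ℕ, ∃ (w : List ℕ) (v : ℝ), Dg w ∧ N ≤ w.length ∧ 0 < v ∧
  v < 1 ∧ x = cf w v) → Irrational x

/-- MODULE Seq.  From `StApp`, `StFac`, `StMat`, `StGeo`.  A chain of admissible configurations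
`(A0 ++ U n, B0 ++ V n, C0 ++ W n)` with growing lists: all three lengths tend to infinity and the
lengths of the intervals tend to zero.  (`L_i ≤ (1/2)^(length of the word) L_i(0)`, the total length is
at least `n`, so `∑ L ≤ 30 (1/2)^(n/3) max L(0)`; if one of the lists had bounded length it would be
eventually constant, with constant positive length of its interval.) -/
def StSeq : Prop := ∀ (A B C : List ℕ) (U V W : ℕ → List ℕ),
  (∀ n, W12 (U n) ∧ W12 (V n) ∧ W12 (W n)) →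
  (∀ n, U n <+: U (n + 1) ∧ V n <+: V (n + 1) ∧ W n <+: W (n + 1)) →
  (∀ n, n ≤ (U n).length + (V n).length + (W n).length) →
  (∀ n, InK 21 (A ++ U n) (B ++ V n) (C ++ W n)) →
  (∀ N, ∃ n, N ≤ (U n).length) ∧ (∀ N, ∃ n, N ≤ (V n).length) ∧ (∀ N, ∃ n, N ≤ (W n).length) ∧
  (∀ ε : ℝ, 0 < ε → ∃ n, (iv (A ++ U n)).L + (iv (B ++ V n)).L + (iv (C ++ W n)).L < ε)

/-- MODULE Lim.  From `StHull`, `StPre`, `StIrr`, `StMat`.  Limit point of a growing chain of cylinders:
the sets `cf (A ++ U n) [hA, hB]` are compact, nested and not empty. -/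
def StLim : Prop := ∀ (A : List ℕ) (U : ℕ → List ℕ), Dg A → (∀ a ∈ A, a ≤ 3) →
  (∀ n, W12 (U n)) → (∀ n, U n <+: U (n + 1)) → (∀ N, ∃ n, N ≤ (U n).length) →
  ∃ x : ℝ, x ∈ B2s ∧ ∀ n, Pre (A ++ U n) x ∧ ∃ v, hA ≤ v ∧ v ≤ hB ∧ x = cf (A ++ U n) v

/-- MODULE Diag.  From `StTwo`, `StGeo`, `StSeq`, `StLim`.  Let `s : ℕ → ℝ × ℝ × ℝ` be a sequence.
Recursively choose configurations `c n`: `c (n + 1)` is one of the two incomparable descendants of
`c n` such that `s n` does not have the prefixes of `c (n + 1)` in all three coordinates (it cannot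
have both sets of prefixes, because incomparable lists differ at some digit).  The limit point is in
`SU` and different from all `s n`. -/
def StDiag : Prop := ∀ (A B C : List ℕ), (∀ a ∈ A, a ≤ 3) → (∀ a ∈ B, a ≤ 3) →
  (∀ a ∈ C, a ≤ 3) → InK 21 A B C → ¬ SU.Countable

/-- MODULE Sort.  `SU` is contained in the union of the six images of `SO` under permutations of the
coordinates. -/
def StSort : Prop := SO.Countable → SU.Countable

/-- MODULE Base (helper80).  Numerical check of the starting configuration. -/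
def StBase : Prop := InK 21 [3, 1, 1, 1, 1] [2, 2, 1, 1, 1] [3, 3, 2, 1]

end Pool.Agent.Helper80.TS
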