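import Pool.Agent.Helper80.TS.St

/-!
# Module Step: one step for configurations of lists (MP_ae7841_nt)
-/

set_option autoImplicit false

namespace Pool.Agent.Helper80.TS

theorem im12_Step {D : Dat} {lev : ℕ} {A B C : Iv} {S : ℝ} (h : Im D lev A B C S) :
    Im D lev B A C S := by
  unfold Im at h ⊢
  tauto

theorem im23_Step {D : Dat} {lev : ℕ} {A B C : Iv} {S : ℝ} (h : Im D lev A B C S) :
    Im D lev A C B S := by
  unfold Im at h ⊢
  tauto

theorem ink12_Step {l : ℕ} {A B C : List ℕ} (h : InK l A B C) : InK l B A C :=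
  ⟨im12_Step h.im, h.dB, h.dA, h.dC, h.rB, h.rA, h.rC⟩

theorem ink23_Step {l : ℕ} {A B C : List ℕ} (h : InK l A B C) : InK l A C B :=
  ⟨im23_Step h.im, h.dA, h.dC, h.dB, h.rA, h.rC, h.rB⟩

/-- the conclusion -/
def Concl_Step (l : ℕ) (A B C : List ℕ) : Prop :=
  (∃ (l' : ℕ) (u v w : List ℕ), l' < l ∧ W12 u ∧ W12 v ∧ W12 w ∧
    InK l' (A ++ u) (B ++ v) (C ++ w)) ∨
  (∃ (u v w : List ℕ), Ones u ∧ Ones v ∧ Ones w ∧ ¬ (u = [] ∧ v = [] ∧ w = []) ∧
    InK l (A ++ u) (B ++ v) (C ++ w)) ∨ HasTwo A B C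

theorem concl12_Step {l : ℕ} {A B C : List ℕ} (h : Concl_Step l A B C) : Concl_Step l B A C := by
  rcases h with ⟨l', u, v, w, hl, hu, hv, hw, hk⟩ | ⟨u, v, w, hu, hv, hw, hne, hk⟩ |
    ⟨u, v, w, u', v', w', h1, h2, h3, h4, h5, h6, h7, h8, h9⟩
  · exact Or.inl ⟨l', v, u, w, hl, hv, hu, hw, ink12_Step hk⟩
  · exact Or.inr (Or.inl ⟨v, u, w, hv, hu, hw, fun h => hne ⟨h.2.1, h.1, h.2.2⟩, ink12_Step hk⟩)
  · exact Or.inr (Or.inr ⟨v, u, w, v', u', w', h2, h1, h3, h5, h4, h6, by tauto,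
      ink12_Step h8, ink12_Step h9⟩)

theorem concl23_Step {l : ℕ} {A B C : List ℕ} (h : Concl_Step l A B C) : Concl_Step l A C B := by
  rcases h with ⟨l', u, v, w, hl, hu, hv, hw, hk⟩ | ⟨u, v, w, hu, hv, hw, hne, hk⟩ |
    ⟨u, v, w, u', v', w', h1, h2, h3, h4, h5, h6, h7, h8, h9⟩
  · exact Or.inl ⟨l', u, w, v, hl, hu, hw, hv, ink23_Step hk⟩
  · exact Or.inr (Or.inl ⟨u, w, v, hu, hw, hv, fun h => hne ⟨h.1, h.2.2, h.2.1⟩, ink23_Step hk⟩)
  · exact Or.inr (Or.inr ⟨u, w, v, u', w', v', h1, h3, h2, h4, h6, h5, by tauto,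
      ink23_Step h8, ink23_Step h9⟩)

theorem cell_mono_Step {D : Dat} (hD : DOK D) {l l' : ℕ} (hl : l ≤ l') {A B C : Iv} {S : ℝ}
    (h : Cell D l A B C S) : Cell D l' A B C S := by
  induction l', hl using Nat.le_induction with
  | base => exact h
  | succ n _ ih =>
    obtain ⟨i, j, k, h1, h2⟩ := ih
    exact ⟨i, j, k, h1, hD.mono n _ _ _ h2⟩

theorem im_mono_Step {D : Dat} (hD : DOK D) {l l' : ℕ} (hl : l ≤ l') {A B C : Iv} {S : ℝ}
    (h : Im D l A B C S) : Im D l' A B C S := by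
  unfold Im at h ⊢
  rcases h with h | h | h | h | h | h
  · exact Or.inl (cell_mono_Step hD hl h)
  · exact Or.inr (Or.inl (cell_mono_Step hD hl h))
  · exact Or.inr (Or.inr (Or.inl (cell_mono_Step hD hl h)))
  · exact Or.inr (Or.inr (Or.inr (Or.inl (cell_mono_Step hD hl h))))
  · exact Or.inr (Or.inr (Or.inr (Or.inr (Or.inl (cell_mono_Step hD hl h)))))
  · exact Or.inr (Or.inr (Or.inr (Or.inr (Or.inr (cell_mono_Step hD hl h)))))

theorem w12_dg_Step {w : List ℕ} (h : W12 w) : Dg w := fun a ha => by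
  rcases h a ha with h | h <;> omega

theorem ones_w12_Step {w : List ℕ} (h : Ones w) : W12 w := fun a ha => Or.inl (h a ha)

theorem dg_append_Step {u v : List ℕ} (hu : Dg u) (hv : Dg v) : Dg (u ++ v) := fun a ha => by
  rcases List.mem_append.1 ha with h | h
  · exact hu a h
  · exact hv a h

theorem ink_Step (hApp : StApp) (hRR : StRR) {l l' : ℕ} {A B C u v w : List ℕ}
    (h : InK l A B C) (hu : W12 u) (hv : W12 v) (hw : W12 w)
    (him : Im dat l' ((iv A).ref u) ((iv B).ref v) ((iv C).ref w) 1) :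
    InK l' (A ++ u) (B ++ v) (C ++ w) := by
  have e1 := hApp A u h.dA (w12_dg_Step hu)
  have e2 := hApp B v h.dB (w12_dg_Step hv)
  have e3 := hApp C w h.dC (w12_dg_Step hw)
  refine ⟨by rw [e1, e2, e3]; exact him, dg_append_Step h.dA (w12_dg_Step hu),
    dg_append_Step h.dB (w12_dg_Step hv), dg_append_Step h.dC (w12_dg_Step hw), ?_, ?_, ?_⟩
  · rw [e1]; exact hRR u _ hu h.rA
  · rw [e2]; exact hRR v _ hv h.rB
  · rw [e3]; exact hRR w _ hw h.rC

theorem ordered_Step (hNeg : StNeg) (hApp : StApp) (hRR : StRR) (hDOK : StDOK) (l : ℕ)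
    (A B C : List ℕ) (hl : l ≤ 21) (h : InK l A B C)
    (hc : Cell dat l (iv A) (iv B) (iv C) 1) : Concl_Step l A B C := by
  have hlev : ∀ lev, ¬ Cell dat lev (iv A) (iv B) (iv C) 1 → lev < l := by
    intro lev hn
    by_contra hle
    push Not at hle
    exact hn (cell_mono_Step hDOK hle hc)
  rcases hNeg (iv A) (iv B) (iv C) 1 h.rA h.rB h.rC (cell_mono_Step hDOK hl hc) with
    ⟨lev, u, v, w, hu, hv, hw, hn, him⟩ | ⟨lev, u, v, w, hu, hv, hw, hne, hn, him⟩ |
    ⟨u, v, w, u', v', w', hu, hv, hw, hu', hv', hw', hinc, him, him'⟩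
  · exact Or.inl ⟨lev, u, v, w, hlev lev hn, hu, hv, hw, ink_Step hApp hRR h hu hv hw him⟩
  · refine Or.inr (Or.inl ⟨u, v, w, hu, hv, hw, hne, ?_⟩)
    have hle : lev ≤ l := by
      rcases hn with rfl | hn
      · exact Nat.zero_le _
      · have := hlev _ hn
        omega
    exact ink_Step hApp hRR h (ones_w12_Step hu) (ones_w12_Step hv) (ones_w12_Step hw)
      (im_mono_Step hDOK hle him)
  · exact Or.inr (Or.inr ⟨u, v, w, u', v', w', hu, hv, hw, hu', hv', hw', hinc,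
      ink_Step hApp hRR h hu hv hw him, ink_Step hApp hRR h hu' hv' hw' him'⟩)

theorem hStep (hNeg : StNeg) (hApp : StApp) (hRR : StRR) (hDOK : StDOK) : StStep := by
  intro l A B C hl h
  have key := fun (A B C : List ℕ) (h : InK l A B C) (hc : Cell dat l (iv A) (iv B) (iv C) 1) =>
    ordered_Step hNeg hApp hRR hDOK l A B C hl h hc
  change Concl_Step l A B C
  rcases h.im with hc | hc | hc | hc | hc | hc
  · exact key A B C h hc
  · exact concl23_Step (key A C B (ink23_Step h) hc)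
  · exact concl12_Step (key B A C (ink12_Step h) hc)
  · -- `B, C, A`
    have h1 := key B C A (ink23_Step (ink12_Step h)) hc
    exact concl12_Step (concl23_Step h1)
  · -- `C, A, B`
    have h1 := key C A B (ink12_Step (ink23_Step h)) hc
    exact concl23_Step (concl12_Step h1)
  · -- `C, B, A`
    have h1 := key C B A (ink12_Step (ink23_Step (ink12_Step h))) hc
    exact concl12_Step (concl23_Step (concl12_Step h1))

end Pool.Agent.Helper80.TS
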