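import Pool.Agent.Helper80.TS.St

/-!
Module Two (MP_ae7841_nt): every admissible configuration has two incomparable descendants.
-/

set_option autoImplicit false

namespace Pool.Agent.Helper80.TS

theorem two_inc {p u v : List ℕ} (h : Inc u v) : Inc (p ++ u) (p ++ v) := by
  obtain ⟨q, a, b, u', v', hab, rfl, rfl⟩ := h
  exact ⟨p ++ q, a, b, u', v', hab, by rw [List.append_assoc], by rw [List.append_assoc]⟩

theorem two_w12_append {u v : List ℕ} (hu : W12 u) (hv : W12 v) : W12 (u ++ v) := by
  intro a ha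
  rcases List.mem_append.1 ha with h | h
  · exact hu a h
  · exact hv a h

theorem two_ones_append {u v : List ℕ} (hu : Ones u) (hv : Ones v) : Ones (u ++ v) := by
  intro a ha
  rcases List.mem_append.1 ha with h | h
  · exact hu a h
  · exact hv a h

theorem two_ones_w12 {u : List ℕ} (hu : Ones u) : W12 u := fun a ha => Or.inl (hu a ha)

theorem two_ones_dg {u : List ℕ} (hu : Ones u) : Dg u := fun a ha => (hu a ha).ge

theorem two_desc {A B C u v w : List ℕ} (hu : W12 u) (hv : W12 v) (hw : W12 w)
    (h : HasTwo (A ++ u) (B ++ v) (C ++ w)) : HasTwo A B C := by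
  obtain ⟨u1, v1, w1, u2, v2, w2, h1, h2, h3, h4, h5, h6, hi, hk1, hk2⟩ := h
  refine ⟨u ++ u1, v ++ v1, w ++ w1, u ++ u2, v ++ v2, w ++ w2, two_w12_append hu h1,
    two_w12_append hv h2, two_w12_append hw h3, two_w12_append hu h4, two_w12_append hv h5,
    two_w12_append hw h6, ?_, ?_, ?_⟩
  · rcases hi with h | h | h
    · exact Or.inl (two_inc h)
    · exact Or.inr (Or.inl (two_inc h))
    · exact Or.inr (Or.inr (two_inc h))
  · simpa only [List.append_assoc] using hk1
  · simpa only [List.append_assoc] using hk2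

/-- the golden tail -/
theorem two_gold : 1 / ((1 : ℝ) + (Real.sqrt 5 - 1) / 2) = (Real.sqrt 5 - 1) / 2 := by
  have h5 : Real.sqrt 5 ^ 2 = 5 := Real.sq_sqrt (by norm_num)
  have h0 : 0 ≤ Real.sqrt 5 := Real.sqrt_nonneg 5
  have h1 : (1 : ℝ) + (Real.sqrt 5 - 1) / 2 ≠ 0 := by
    have : 0 < (1 : ℝ) + (Real.sqrt 5 - 1) / 2 := by linarith
    exact this.ne'
  rw [div_eq_iff h1]
  nlinarith

theorem two_cf_ones (A u : List ℕ) (hu : Ones u) :
    cf (A ++ u) ((Real.sqrt 5 - 1) / 2) = cf A ((Real.sqrt 5 - 1) / 2) := by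
  induction A with
  | nil =>
    induction u with
    | nil => rfl
    | cons a u ih =>
      have ha : a = 1 := hu a List.mem_cons_self
      have h1 := ih fun b hb => hu b (List.mem_cons_of_mem _ hb)
      simp only [List.nil_append, cf] at h1 ⊢
      rw [h1, ha, Nat.cast_one]
      exact two_gold
  | cons a A ih =>
    simp only [List.cons_append, cf]
    rw [ih]

theorem two_hull : hA ≤ (Real.sqrt 5 - 1) / 2 ∧ (Real.sqrt 5 - 1) / 2 ≤ hB := by
  have h1 : (2 : ℝ) ≤ Real.sqrt 5 := by
    rw [Real.le_sqrt' (by norm_num)]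
    norm_num
  have h2 : Real.sqrt 5 ≤ 2.4 := by
    rw [Real.sqrt_le_left (by norm_num)]
    norm_num
  unfold hA hB
  constructor <;> linarith

/-- shrinking of the lengths -/
theorem two_len (hApp : StApp) (hFac : StFac) (A u : List ℕ) (hA : Dg A) (hL : 0 < (iv A).L)
    (hr : RS (iv A).r) (hu : Ones u) (n : ℕ) (hn : n ≤ u.length) :
    (iv (A ++ u)).L ≤ (iv A).L * (1 / 2) ^ n := by
  rw [hApp A u hA (two_ones_dg hu)]
  change (iv A).L * (pos (iv A).r (hi u) - pos (iv A).r (lo u)) ≤ _
  have h0 : 0 ≤ (iv A).r := by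
    rcases hr with h | h <;> linarith [h.1]
  have h1 : (iv A).r ≤ 1 := by
    rcases hr with h | h <;> linarith [h.2]
  have h2 := (hFac u (iv A).r (two_ones_w12 hu) h0 h1).2
  have h3 : ((1 : ℝ) / 2) ^ u.length ≤ (1 / 2) ^ n :=
    pow_le_pow_of_le_one (by norm_num) (by norm_num) hn
  exact mul_le_mul_of_nonneg_left (h2.trans h3) hL.le

theorem hTwo (hStep : StStep) (hGeo : StGeo) (hGold : StGold) (hApp : StApp) (hFac : StFac)
    (hMat : StMat) : StTwo := by
  have _ := hMat
  intro l
  induction l using Nat.strong_induction_on with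
  | _ l ih =>
    intro A B C hl hK
    by_contra hnot
    -- long lists of ones
    have key : ∀ n : ℕ, ∃ u v w : List ℕ, Ones u ∧ Ones v ∧ Ones w ∧
        n ≤ u.length + v.length + w.length ∧ InK l (A ++ u) (B ++ v) (C ++ w) := by
      intro n
      induction n with
      | zero =>
        refine ⟨[], [], [], ?_, ?_, ?_, Nat.zero_le _, ?_⟩
        · intro a ha; simp at ha
        · intro a ha; simp at ha
        · intro a ha; simp at ha
        · simpa only [List.append_nil] using hK
      | succ n ihn =>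
        obtain ⟨u, v, w, hu, hv, hw, hlen, hIn⟩ := ihn
        rcases hStep l _ _ _ hl hIn with ⟨l', u', v', w', hl', hu', hv', hw', hIn'⟩ |
          ⟨u', v', w', hu', hv', hw', hne, hIn'⟩ | h2
        · exact absurd (two_desc (two_ones_w12 hu) (two_ones_w12 hv) (two_ones_w12 hw)
            (two_desc hu' hv' hw' (ih l' hl' _ _ _ (by omega) hIn'))) hnot
        · refine ⟨u ++ u', v ++ v', w ++ w', two_ones_append hu hu', two_ones_append hv hv',
            two_ones_append hw hw', ?_, ?_⟩
          · rw [List.length_append, List.length_append, List.length_append]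
            have h1 : 0 < u'.length + v'.length + w'.length := by
              by_contra h0
              apply hne
              refine ⟨List.eq_nil_of_length_eq_zero (by omega),
                List.eq_nil_of_length_eq_zero (by omega),
                List.eq_nil_of_length_eq_zero (by omega)⟩
            omega
          · simpa only [List.append_assoc] using hIn'
        · exact absurd (two_desc (two_ones_w12 hu) (two_ones_w12 hv) (two_ones_w12 hw) h2) hnot
    obtain ⟨hLA, hLB, hLC, -, -, -, -⟩ := hGeo l A B C hK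
    obtain ⟨g1, g2⟩ := two_hull
    have hbd : ∀ n : ℕ, |cf A ((Real.sqrt 5 - 1) / 2) + cf B ((Real.sqrt 5 - 1) / 2) +
        cf C ((Real.sqrt 5 - 1) / 2) - 1| ≤
        30 * ((iv A).L + (iv B).L + (iv C).L) * (1 / 2) ^ n := by
      intro n
      obtain ⟨u, v, w, hu, hv, hw, hlen, hIn⟩ := key (3 * n)
      obtain ⟨-, -, -, hA30, hB30, hC30, hval⟩ := hGeo l _ _ _ hIn
      have h1 := hval _ _ _ g1 g2 g1 g2 g1 g2
      rw [two_cf_ones A u hu, two_cf_ones B v hv, two_cf_ones C w hw] at h1
      have hp : (0 : ℝ) ≤ (1 / 2) ^ n := by positivity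
      have h2 : n ≤ u.length ∨ n ≤ v.length ∨ n ≤ w.length := by omega
      rcases h2 with h2 | h2 | h2
      · have h3 := two_len hApp hFac A u hK.dA hLA hK.rA hu n h2
        have h4 : (iv A).L * (1 / 2) ^ n ≤ ((iv A).L + (iv B).L + (iv C).L) * (1 / 2) ^ n :=
          mul_le_mul_of_nonneg_right (by linarith) hp
        linarith
      · have h3 := two_len hApp hFac B v hK.dB hLB hK.rB hv n h2
        have h4 : (iv B).L * (1 / 2) ^ n ≤ ((iv A).L + (iv B).L + (iv C).L) * (1 / 2) ^ n :=
          mul_le_mul_of_nonneg_right (by linarith) hp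
        linarith
      · have h3 := two_len hApp hFac C w hK.dC hLC hK.rC hw n h2
        have h4 : (iv C).L * (1 / 2) ^ n ≤ ((iv A).L + (iv B).L + (iv C).L) * (1 / 2) ^ n :=
          mul_le_mul_of_nonneg_right (by linarith) hp
        linarith
    have hlim : Filter.Tendsto (fun n : ℕ => 30 * ((iv A).L + (iv B).L + (iv C).L) *
        ((1 : ℝ) / 2) ^ n) Filter.atTop (nhds 0) := by
      have h1 := (tendsto_pow_atTop_nhds_zero_of_lt_one (r := (1 : ℝ) / 2) (by norm_num)
        (by norm_num)).const_mul (30 * ((iv A).L + (iv B).L + (iv C).L))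
      rwa [mul_zero] at h1
    have h0 := ge_of_tendsto' hlim hbd
    have h1 : cf A ((Real.sqrt 5 - 1) / 2) + cf B ((Real.sqrt 5 - 1) / 2) +
        cf C ((Real.sqrt 5 - 1) / 2) - 1 = 0 := abs_eq_zero.1 (le_antisymm h0 (abs_nonneg _))
    exact hGold A B C hK.dA hK.dB hK.dC (by linarith)

end Pool.Agent.Helper80.TS
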