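import Pool.Agent.Helper80.TS.St

/-!
# Module Uniq: the cell of a state is unique (MP_ae7841_nt)
-/

set_option autoImplicit false

namespace Pool.Agent.Helper80.TS

theorem le_Uniq {D : Dat} (hD : DOK D) {i j k i' j' k' : ℕ} {A B C : Iv} {S : ℝ}
    (h : CellAt D i j k A B C S) (h' : CellAt D i' j' k' A B C S) :
    i' ≤ i ∧ j' ≤ j ∧ k' ≤ k := by
  have hA := h.bL
  refine ⟨?_, ?_, ?_⟩
  · by_contra hlt
    push Not at hlt
    have h1 := hD.grid (i + 13) (i' + 12) (by omega) (by have := h'.bi; omega)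
    have h2 : (gg D (i + 13) : ℝ) ≤ gg D (i' + 12) := by exact_mod_cast h1
    have h3 := mul_le_mul_of_nonneg_right h2 hA.le
    have h4 := h.x2
    have h5 := h'.x1
    linarith
  · by_contra hlt
    push Not at hlt
    have h1 := hD.grid (j + 1) j' (by omega) (by have := h'.bj; omega)
    have h2 : (gg D (j + 1) : ℝ) ≤ gg D j' := by exact_mod_cast h1
    have h3 := mul_le_mul_of_nonneg_right h2 hA.le
    have h4 := h.y2
    have h5 := h'.y1
    linarith
  · by_contra hlt
    push Not at hlt
    have h1 : ((k : ℝ) + 1) ≤ k' := by exact_mod_cast hlt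
    have h2 : 0 ≤ A.L + B.L + C.L := by
      have := h.aL
      have := h.cL
      linarith
    have h3 := mul_le_mul_of_nonneg_right h1 h2
    have h4 := h.t2
    have h5 := h'.t1
    linarith

theorem hUniq : StUniq := by
  intro D hD i j k i' j' k' A B C S h h'
  obtain ⟨a1, a2, a3⟩ := le_Uniq hD h h'
  obtain ⟨b1, b2, b3⟩ := le_Uniq hD h' h
  exact ⟨by omega, by omega, by omega⟩

end Pool.Agent.Helper80.TS
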