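import Pool.Agent.Helper80.TS.St

/-!
# Module Wb: bounds of a word
-/

set_option autoImplicit false

namespace Pool.Agent.Helper80.TS

namespace Wb

theorem div_lo (a b : ℕ) (x : ℝ) (hb : 0 < b) (h : (a : ℝ) / b ≤ x) : ((a / b : ℕ) : ℝ) ≤ x :=
  Nat.cast_div_le.trans h

theorem div_hi (a b : ℕ) (x : ℝ) (hb : 0 < b) (h : x ≤ (a : ℝ) / b) :
    x ≤ ((Nat.succ (a / b) : ℕ) : ℝ) := by
  refine h.trans ?_
  have hb' : (0 : ℝ) < b := by exact_mod_cast hb
  rw [div_le_iff₀ hb']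
  have h1 : a < Nat.succ (a / b) * b := by
    have h2 := Nat.div_add_mod a b
    have h3 := Nat.mod_lt a hb
    rw [Nat.succ_eq_add_one, add_mul, one_mul, mul_comm]
    omega
  exact_mod_cast h1.le

/-- the facts on the ends of the cylinder -/
structure Fc (w : List ℕ) : Prop where
  fd1 : (0 : ℝ) < d1 w
  fd2 : (0 : ℝ) < d2 w
  flo : lo w = (n1 w : ℝ) / d1 w
  fhi : hi w = (n2 w : ℝ) / d2 w
  det : (n2 w : ℝ) * d1 w - (n1 w : ℝ) * d2 w = 36610000

theorem dg_of_W12 {w : List ℕ} (h : W12 w) : Dg w := by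
  intro a ha
  rcases h a ha with h | h <;> omega

theorem facts (hMat : StMat) (w : List ℕ) (hw : W12 w) : Fc w := by
  obtain ⟨h1, h2, h3, h4⟩ := hMat w (dg_of_W12 hw)
  have hA := h1 TS.hA (by unfold TS.hA; norm_num)
  have hB := h1 TS.hB (by unfold TS.hB; norm_num)
  set p := (mat w).1 with hp
  set p' := (mat w).2.1 with hp'
  set q := (mat w).2.2.1 with hq
  set q' := (mat w).2.2.2 with hq'
  have hq1 : (1 : ℝ) ≤ q := by exact_mod_cast h2
  have hq'0 : (0 : ℝ) ≤ q' := Nat.cast_nonneg _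
  have hdA : (dA w : ℝ) = q * 10000 + q' * 3660 := by
    unfold dA
    push_cast
    ring
  have hdB : (dB w : ℝ) = q * 10000 + q' * 7321 := by
    unfold dB
    push_cast
    ring
  have hnA : (nA w : ℝ) = p * 10000 + p' * 3660 := by
    unfold nA
    push_cast
    ring
  have hnB : (nB w : ℝ) = p * 10000 + p' * 7321 := by
    unfold nB
    push_cast
    ring
  have hdA0 : (0 : ℝ) < dA w := by rw [hdA]; linarith
  have hdB0 : (0 : ℝ) < dB w := by rw [hdB]; linarith
  have eA : cf w TS.hA = (nA w : ℝ) / dA w := by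
    rw [hA, hnA, hdA]
    unfold TS.hA
    have e1 : (q : ℝ) + q' * (3660 / 10000) ≠ 0 := by positivity
    have e2 : (q : ℝ) * 10000 + q' * 3660 ≠ 0 := by positivity
    rw [div_eq_div_iff e1 e2]
    ring
  have eB : cf w TS.hB = (nB w : ℝ) / dB w := by
    rw [hB, hnB, hdB]
    unfold TS.hB
    have e1 : (q : ℝ) + q' * (7321 / 10000) ≠ 0 := by positivity
    have e2 : (q : ℝ) * 10000 + q' * 7321 ≠ 0 := by positivity
    rw [div_eq_div_iff e1 e2]
    ring
  by_cases hpar : par w = true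
  · rw [if_pos hpar] at h4
    have h5 : (p' : ℝ) * q - p * q' = -1 := by exact_mod_cast h4
    have hdet : (nA w : ℝ) * dB w - nB w * dA w = 36610000 := by
      rw [hnA, hnB, hdA, hdB]
      linear_combination (-36610000) * h5
    have hle : cf w TS.hB ≤ cf w TS.hA := by
      rw [eA, eB, div_le_div_iff₀ hdB0 hdA0]
      linarith
    have f1 : n1 w = nB w := by unfold n1; rw [if_pos hpar]
    have f2 : d1 w = dB w := by unfold TS.d1; rw [if_pos hpar]
    have f3 : n2 w = nA w := by unfold n2; rw [if_pos hpar]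
    have f4 : d2 w = dA w := by unfold TS.d2; rw [if_pos hpar]
    refine ⟨?_, ?_, ?_, ?_, ?_⟩
    · rw [f2]; exact hdB0
    · rw [f4]; exact hdA0
    · unfold TS.lo; rw [min_eq_right hle, eB, f1, f2]
    · unfold TS.hi; rw [max_eq_left hle, eA, f3, f4]
    · rw [f1, f2, f3, f4]; exact hdet
  · rw [if_neg hpar] at h4
    have h5 : (p' : ℝ) * q - p * q' = 1 := by exact_mod_cast h4
    have hdet : (nB w : ℝ) * dA w - nA w * dB w = 36610000 := by
      rw [hnA, hnB, hdA, hdB]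
      linear_combination (36610000) * h5
    have hle : cf w TS.hA ≤ cf w TS.hB := by
      rw [eA, eB, div_le_div_iff₀ hdA0 hdB0]
      linarith
    have f1 : n1 w = nA w := by unfold n1; rw [if_neg hpar]
    have f2 : d1 w = dA w := by unfold TS.d1; rw [if_neg hpar]
    have f3 : n2 w = nB w := by unfold n2; rw [if_neg hpar]
    have f4 : d2 w = dB w := by unfold TS.d2; rw [if_neg hpar]
    refine ⟨?_, ?_, ?_, ?_, ?_⟩
    · rw [f2]; exact hdA0
    · rw [f4]; exact hdB0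
    · unfold TS.lo; rw [min_eq_left hle, eA, f1, f2]
    · unfold TS.hi; rw [max_eq_right hle, eB, f3, f4]
    · rw [f1, f2, f3, f4]; exact hdet

/-- formula for the relative position -/
theorem pos_eq (ρ N D : ℝ) (hρ : 0 ≤ ρ) (hN : 0 ≤ N) (hD : 0 < D) :
    pos (ρ / 10000) (N / D) = (10000 * N - 3660 * D) * (100000000 + 7321 * ρ) /
      (36610000 * (10000 * D + ρ * N)) := by
  unfold pos hA hB
  have h1 : 10000 * D + ρ * N ≠ 0 := by positivity
  have h2 : 1 + ρ / 10000 * (N / D) ≠ 0 := by positivity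
  have h3 : (7321 / 10000 - 3660 / 10000 : ℝ) * (1 + ρ / 10000 * (N / D)) ≠ 0 := by
    apply mul_ne_zero
    · norm_num
    · exact h2
  rw [div_eq_div_iff h3 (by positivity)]
  field_simp
  ring

/-- monotonicity -/
theorem mono1 (N D Z x y : ℝ) (hN : 0 ≤ N) (hD : 0 < D) (hZ : 0 ≤ Z) (hx : 0 ≤ x) (hxy : x ≤ y)
    (h : 10000 * N ≤ 7321 * D) :
    Z * (100000000 + 7321 * x) * 1048576 / (36610000 * (10000 * D + x * N)) ≤
      Z * (100000000 + 7321 * y) * 1048576 / (36610000 * (10000 * D + y * N)) := by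
  have hy : 0 ≤ y := hx.trans hxy
  have h1 : 0 < 10000 * D + x * N := by positivity
  have h2 : 0 < 10000 * D + y * N := by positivity
  rw [div_le_div_iff₀ (by positivity) (by positivity)]
  have h3 : (100000000 + 7321 * x) * (10000 * D + y * N) ≤
      (100000000 + 7321 * y) * (10000 * D + x * N) := by
    have : (100000000 + 7321 * y) * (10000 * D + x * N) -
        (100000000 + 7321 * x) * (10000 * D + y * N) =
        (y - x) * (10000 * (7321 * D - 10000 * N)) := by ring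
    have h4 : 0 ≤ (y - x) * (10000 * (7321 * D - 10000 * N)) :=
      mul_nonneg (by linarith) (by linarith)
    linarith
  calc Z * (100000000 + 7321 * x) * 1048576 * (36610000 * (10000 * D + y * N))
      = (Z * 1048576 * 36610000) * ((100000000 + 7321 * x) * (10000 * D + y * N)) := by ring
    _ ≤ (Z * 1048576 * 36610000) * ((100000000 + 7321 * y) * (10000 * D + x * N)) :=
        mul_le_mul_of_nonneg_left h3 (by positivity)
    _ = _ := by ring

theorem monoB (N D x y : ℝ) (hN : 0 ≤ N) (hD : 0 < D) (hx : 0 ≤ x) (hxy : x ≤ y)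
    (h : 10000 * N ≤ 7321 * D) :
    (100000000 + 7321 * x) / (10000 * D + x * N) ≤ (100000000 + 7321 * y) / (10000 * D + y * N) := by
  have hy : 0 ≤ y := hx.trans hxy
  have h1 : 0 < 10000 * D + x * N := by positivity
  have h2 : 0 < 10000 * D + y * N := by positivity
  rw [div_le_div_iff₀ h1 h2]
  have : (100000000 + 7321 * y) * (10000 * D + x * N) -
      (100000000 + 7321 * x) * (10000 * D + y * N) =
      (y - x) * (10000 * (7321 * D - 10000 * N)) := by ring
  have h4 : 0 ≤ (y - x) * (10000 * (7321 * D - 10000 * N)) :=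
    mul_nonneg (by linarith) (by linarith)
  linarith

theorem monoA (N D x y : ℝ) (hN : 0 ≤ N) (hD : 0 < D) (hx : 0 ≤ x) (hxy : x ≤ y)
    (h : 3660 * D ≤ 10000 * N) :
    (100000000 + 3660 * y) / (10000 * D + y * N) ≤ (100000000 + 3660 * x) / (10000 * D + x * N) := by
  have hy : 0 ≤ y := hx.trans hxy
  have h1 : 0 < 10000 * D + x * N := by positivity
  have h2 : 0 < 10000 * D + y * N := by positivity
  rw [div_le_div_iff₀ h2 h1]
  have : (100000000 + 3660 * x) * (10000 * D + y * N) -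
      (100000000 + 3660 * y) * (10000 * D + x * N) =
      (y - x) * (10000 * (10000 * N - 3660 * D)) := by ring
  have h4 : 0 ≤ (y - x) * (10000 * (10000 * N - 3660 * D)) :=
    mul_nonneg (by linarith) (by linarith)
  linarith

theorem diff_eq (ρ N1 D1 N2 D2 : ℝ) (hρ : 0 ≤ ρ) (hN1 : 0 ≤ N1) (hD1 : 0 < D1) (hN2 : 0 ≤ N2)
    (hD2 : 0 < D2) (hdet : N2 * D1 - N1 * D2 = 36610000) :
    pos (ρ / 10000) (N2 / D2) - pos (ρ / 10000) (N1 / D1) =
      ((100000000 + 3660 * ρ) / (10000 * D1 + ρ * N1)) *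
        ((100000000 + 7321 * ρ) / (10000 * D2 + ρ * N2)) := by
  rw [pos_eq ρ N2 D2 hρ hN2 hD2, pos_eq ρ N1 D1 hρ hN1 hD1]
  have h1 : 10000 * D1 + ρ * N1 ≠ 0 := by positivity
  have h2 : 10000 * D2 + ρ * N2 ≠ 0 := by positivity
  rw [div_mul_div_comm, div_sub_div _ _ (by positivity) (by positivity),
    div_eq_div_iff (by positivity) (by positivity)]
  linear_combination (36610000 * (100000000 + 7321 * ρ) * (10000 * D1 + ρ * N1) *
    (10000 * D2 + ρ * N2) * (100000000 + 3660 * ρ)) * hdet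

end Wb

open Wb in
theorem hWb (hMat : StMat) (hHull : StHull) : StWb := by
  intro e w R r hT hw hR
  obtain ⟨hR1, hR2⟩ := hR
  have hF := facts hMat w hw
  obtain ⟨g1, g2, g3, -⟩ := hHull w hw
  set ρ := 10000 * r with hρ
  have hr : r = ρ / 10000 := by rw [hρ]; ring
  have hl0 : (0 : ℝ) ≤ R.lo := Nat.cast_nonneg _
  have hρ0 : 0 ≤ ρ := hl0.trans hR1
  have hh0 : (0 : ℝ) ≤ R.hi := Nat.cast_nonneg _
  set N1 : ℝ := (n1 w : ℝ) with hN1
  set N2 : ℝ := (n2 w : ℝ) with hN2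
  set D1 : ℝ := (d1 w : ℝ) with hD1
  set D2 : ℝ := (d2 w : ℝ) with hD2
  have hN1' : 0 ≤ N1 := Nat.cast_nonneg _
  have hN2' : 0 ≤ N2 := Nat.cast_nonneg _
  have hD1' : 0 < D1 := hF.fd1
  have hD2' : 0 < D2 := hF.fd2
  have hlo : lo w = N1 / D1 := hF.flo
  have hhi : hi w = N2 / D2 := hF.fhi
  have hdet : N2 * D1 - N1 * D2 = 36610000 := hF.det
  -- inequalities for the ends
  have k1 : 10000 * N1 ≤ 7321 * D1 := by
    have h1 : N1 / D1 ≤ 7321 / 10000 := by rw [← hlo]; exact g2.le.trans g3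
    rw [div_le_div_iff₀ hD1' (by norm_num)] at h1
    linarith
  have k2 : 10000 * N2 ≤ 7321 * D2 := by
    have h1 : N2 / D2 ≤ 7321 / 10000 := by rw [← hhi]; exact g3
    rw [div_le_div_iff₀ hD2' (by norm_num)] at h1
    linarith
  have k3 : 3660 * D1 ≤ 10000 * N1 := by
    have h1 : 3660 / 10000 ≤ N1 / D1 := by rw [← hlo]; exact g1
    rw [div_le_div_iff₀ (by norm_num) hD1'] at h1
    linarith
  have k4 : 3660 * D2 ≤ 10000 * N2 := by
    have h1 : 3660 / 10000 ≤ N2 / D2 := by rw [← hhi]; exact g1.trans g2.le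
    rw [div_le_div_iff₀ (by norm_num) hD2'] at h1
    linarith
  -- table entries
  have t1 : ((Nat.land e m24 : ℕ) : ℝ) = N1 := congrArg (fun t : ℕ => (t : ℝ)) hT.n1
  have t2 : ((fld e 24 m24 : ℕ) : ℝ) = N2 := congrArg (fun t : ℕ => (t : ℝ)) hT.n2
  have t3 : ((fld e 48 m36 : ℕ) : ℝ) = 10000 * D1 := by
    have h1 := congrArg (fun t : ℕ => (t : ℝ)) hT.d1
    simp only [Nat.cast_mul, Nat.cast_ofNat] at h1
    exact h1
  have t4 : ((fld e 84 m36 : ℕ) : ℝ) = 10000 * D2 := by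
    have h1 := congrArg (fun t : ℕ => (t : ℝ)) hT.d2
    simp only [Nat.cast_mul, Nat.cast_ofNat] at h1
    exact h1
  have t5 : ((fld e 120 m36 : ℕ) : ℝ) = 10000 * N1 - 3660 * D1 := by
    have h1 : ((fld e 120 m36 + 3660 * TS.d1 w : ℕ) : ℝ) = ((10000 * TS.n1 w : ℕ) : ℝ) :=
      congrArg (fun t : ℕ => (t : ℝ)) hT.z1
    push_cast at h1
    linarith
  have t6 : ((fld e 156 m36 : ℕ) : ℝ) = 10000 * N2 - 3660 * D2 := by
    have h1 : ((fld e 156 m36 + 3660 * TS.d2 w : ℕ) : ℝ) = ((10000 * TS.n2 w : ℕ) : ℝ) :=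
      congrArg (fun t : ℕ => (t : ℝ)) hT.z2
    push_cast at h1
    linarith
  clear_value N1 N2 D1 D2
  have hd1 : 0 < fld e 48 m36 := by
    have : (0 : ℝ) < ((fld e 48 m36 : ℕ) : ℝ) := by rw [t3]; positivity
    exact_mod_cast this
  have hd2 : 0 < fld e 84 m36 := by
    have : (0 : ℝ) < ((fld e 84 m36 : ℕ) : ℝ) := by rw [t4]; positivity
    exact_mod_cast this
  have z1 : 0 ≤ 10000 * N1 - 3660 * D1 := by linarith
  have z2 : 0 ≤ 10000 * N2 - 3660 * D2 := by linarith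
  have hpl : 1048576 * pos r (lo w) = (10000 * N1 - 3660 * D1) * (100000000 + 7321 * ρ) * 1048576 /
      (36610000 * (10000 * D1 + ρ * N1)) := by
    rw [hr, hlo, pos_eq ρ N1 D1 hρ0 hN1' hD1']
    ring
  have hph : 1048576 * pos r (hi w) = (10000 * N2 - 3660 * D2) * (100000000 + 7321 * ρ) * 1048576 /
      (36610000 * (10000 * D2 + ρ * N2)) := by
    rw [hr, hhi, pos_eq ρ N2 D2 hρ0 hN2' hD2']
    ring
  have hdf : 1048576 * (pos r (hi w) - pos r (lo w)) = 1048576 *
      (((100000000 + 3660 * ρ) / (10000 * D1 + ρ * N1)) *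
        ((100000000 + 7321 * ρ) / (10000 * D2 + ρ * N2))) := by
    rw [hr, hhi, hlo, diff_eq ρ N1 D1 N2 D2 hρ0 hN1' hD1' hN2' hD2' hdet]
  refine ⟨?_, ?_, ?_, ?_, ?_, ?_⟩
  · have h : (wb e R).al = (fld e 120 m36 * (100000000 + 7321 * R.lo) * 1048576) /
        (36610000 * (fld e 48 m36 + R.lo * Nat.land e m24)) := rfl
    rw [h]
    refine div_lo _ _ _ (Nat.mul_pos (by norm_num) (Nat.add_pos_left hd1 _)) ?_
    rw [hpl]
    push_cast
    rw [t1, t3, t5]
    exact mono1 N1 D1 _ _ _ hN1' hD1' z1 hl0 hR1 k1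
  · have h : (wb e R).ah = Nat.succ ((fld e 120 m36 * (100000000 + 7321 * R.hi) * 1048576) /
        (36610000 * (fld e 48 m36 + R.hi * Nat.land e m24))) := rfl
    rw [h]
    refine div_hi _ _ _ (Nat.mul_pos (by norm_num) (Nat.add_pos_left hd1 _)) ?_
    rw [hpl]
    push_cast
    rw [t1, t3, t5]
    exact mono1 N1 D1 _ _ _ hN1' hD1' z1 hρ0 hR2 k1
  · have h : (wb e R).bl = (fld e 156 m36 * (100000000 + 7321 * R.lo) * 1048576) /
        (36610000 * (fld e 84 m36 + R.lo * fld e 24 m24)) := rfl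
    rw [h]
    refine div_lo _ _ _ (Nat.mul_pos (by norm_num) (Nat.add_pos_left hd2 _)) ?_
    rw [hph]
    push_cast
    rw [t2, t4, t6]
    exact mono1 N2 D2 _ _ _ hN2' hD2' z2 hl0 hR1 k2
  · have h : (wb e R).bh = Nat.succ ((fld e 156 m36 * (100000000 + 7321 * R.hi) * 1048576) /
        (36610000 * (fld e 84 m36 + R.hi * fld e 24 m24))) := rfl
    rw [h]
    refine div_hi _ _ _ (Nat.mul_pos (by norm_num) (Nat.add_pos_left hd2 _)) ?_
    rw [hph]
    push_cast
    rw [t2, t4, t6]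
    exact mono1 N2 D2 _ _ _ hN2' hD2' z2 hρ0 hR2 k2
  · have h : (wb e R).fl = ((100000000 + 3660 * R.hi) * (100000000 + 7321 * R.lo) * 1048576) /
        ((fld e 48 m36 + R.hi * Nat.land e m24) * (fld e 84 m36 + R.lo * fld e 24 m24)) := rfl
    rw [h]
    refine div_lo _ _ _ (Nat.mul_pos (Nat.add_pos_left hd1 _) (Nat.add_pos_left hd2 _)) ?_
    rw [hdf]
    push_cast
    rw [t1, t2, t3, t4]
    have e1 := monoA N1 D1 ρ R.hi hN1' hD1' hρ0 hR2 k3
    have e2 := monoB N2 D2 R.lo ρ hN2' hD2' hl0 hR1 k2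
    have e3 : ((100000000 + 3660 * (R.hi : ℝ)) / (10000 * D1 + R.hi * N1)) *
        ((100000000 + 7321 * (R.lo : ℝ)) / (10000 * D2 + R.lo * N2)) ≤
        ((100000000 + 3660 * ρ) / (10000 * D1 + ρ * N1)) *
        ((100000000 + 7321 * ρ) / (10000 * D2 + ρ * N2)) :=
      mul_le_mul e1 e2 (by positivity) (by positivity)
    rw [div_mul_div_comm] at e3
    refine le_trans (le_of_eq ?_) (mul_le_mul_of_nonneg_left e3 (by norm_num))
    ring
  · have h : (wb e R).fh = Nat.succ (((100000000 + 3660 * R.lo) * (100000000 + 7321 * R.hi) *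
        1048576) / ((fld e 48 m36 + R.lo * Nat.land e m24) * (fld e 84 m36 + R.hi * fld e 24 m24))) :=
      rfl
    rw [h]
    refine div_hi _ _ _ (Nat.mul_pos (Nat.add_pos_left hd1 _) (Nat.add_pos_left hd2 _)) ?_
    rw [hdf]
    push_cast
    rw [t1, t2, t3, t4]
    have e1 := monoA N1 D1 R.lo ρ hN1' hD1' hl0 hR1 k3
    have e2 := monoB N2 D2 ρ R.hi hN2' hD2' hρ0 hR2 k2
    have e3 : ((100000000 + 3660 * ρ) / (10000 * D1 + ρ * N1)) *
        ((100000000 + 7321 * ρ) / (10000 * D2 + ρ * N2)) ≤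
        ((100000000 + 3660 * (R.lo : ℝ)) / (10000 * D1 + R.lo * N1)) *
        ((100000000 + 7321 * (R.hi : ℝ)) / (10000 * D2 + R.hi * N2)) :=
      mul_le_mul e1 e2 (by positivity) (by positivity)
    rw [div_mul_div_comm (100000000 + 3660 * (R.lo : ℝ))] at e3
    refine (mul_le_mul_of_nonneg_left e3 (by norm_num)).trans (le_of_eq ?_)
    ring

end Pool.Agent.Helper80.TS
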