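import Pool.Agent.Helper80.TS.St

/-!
# Module Word: facts on word codes (MP_ae7841_nt)
-/

set_option autoImplicit false

namespace Pool.Agent.Helper80.TS

theorem w12_digf_Word (n : ℕ) : ∀ c : ℕ, W12 (digf n c) := by
  induction n with
  | zero => intro c a ha; simp [digf] at ha
  | succ n ih =>
    intro c a ha
    unfold digf at ha
    split_ifs at ha with h
    · simp at ha
    · rw [List.mem_cons] at ha
      rcases ha with rfl | ha
      · have := Nat.mod_two_eq_zero_or_one c
        omega
      · exact ih _ a ha

theorem sel_true_Word {β : Type} (t f : β) : sel true t f = t := rfl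
theorem sel_false_Word {β : Type} (t f : β) : sel false t f = f := rfl

theorem inc_succ_Word (n a b : ℕ) : inc (n + 1) a b =
    sel (Nat.ble a 1) false (sel (Nat.ble b 1) false
      (sel (Nat.beq (Nat.land a 1) (Nat.land b 1)) (inc n (Nat.div a 2) (Nat.div b 2)) true)) := rfl

theorem inc_Word (n : ℕ) : ∀ a b : ℕ, inc n a b = true → Inc (digf n a) (digf n b) := by
  induction n with
  | zero => intro a b h; exact absurd h (by simp [inc])
  | succ n ih =>
    intro a b h
    rw [inc_succ_Word] at h
    cases ha : Nat.ble a 1 with
    | true => rw [ha, sel_true_Word] at h; exact absurd h (by simp)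
    | false =>
      rw [ha, sel_false_Word] at h
      cases hb : Nat.ble b 1 with
      | true => rw [hb, sel_true_Word] at h; exact absurd h (by simp)
      | false =>
        rw [hb, sel_false_Word] at h
        have ha1 : ¬ a ≤ 1 := fun h1 => by
          rw [Nat.ble_eq_true_of_le h1] at ha
          exact absurd ha (by simp)
        have hb1 : ¬ b ≤ 1 := fun h1 => by
          rw [Nat.ble_eq_true_of_le h1] at hb
          exact absurd hb (by simp)
        have ea : digf (n + 1) a = (a % 2 + 1) :: digf n (a / 2) := by
          rw [digf, if_neg ha1]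
        have eb : digf (n + 1) b = (b % 2 + 1) :: digf n (b / 2) := by
          rw [digf, if_neg hb1]
        have hla : Nat.land a 1 = a % 2 := Nat.and_one_is_mod a
        have hlb : Nat.land b 1 = b % 2 := Nat.and_one_is_mod b
        rw [hla, hlb] at h
        cases hc : Nat.beq (a % 2) (b % 2) with
        | true =>
          rw [hc, sel_true_Word] at h
          have hab : a % 2 = b % 2 := Nat.eq_of_beq_eq_true hc
          obtain ⟨p, x, y, u, v, hxy, h1, h2⟩ := ih (a / 2) (b / 2) h
          refine ⟨(a % 2 + 1) :: p, x, y, u, v, hxy, ?_, ?_⟩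
          · rw [ea, h1]; rfl
          · rw [eb, h2, hab]; rfl
        | false =>
          have hab : a % 2 ≠ b % 2 := Nat.ne_of_beq_eq_false hc
          exact ⟨[], a % 2 + 1, b % 2 + 1, _, _, by omega, ea, eb⟩

theorem hWord : StWord := by
  refine ⟨w12_digf_Word 8, ?_, fun a b _ _ h => inc_Word 8 a b h, ?_⟩
  · have h : ∀ c : Fin 128, one c.1 = true → ∀ a ∈ dig c.1, a = 1 := by decide +kernel
    intro c hc h1
    exact h ⟨c, hc⟩ h1
  · intro c hc
    by_contra h
    have : dig c = (c % 2 + 1) :: digf 7 (c / 2) := by
      unfold dig
      rw [digf, if_neg h]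
    rw [this] at hc
    exact absurd hc (by simp)

end Pool.Agent.Helper80.TS
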